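import Pool.Agent.H25.Trees

/-! Base change for the subspaces of plain trees. -/

namespace Pool.Agent.H25

open MonoidAlgebra

section
variable {K : Type*} [Field K] {A : Type*} [Ring A] [Algebra K A]

lemma br_span_le {S S' : Set A} {R : Submodule K A} (h : ∀ x ∈ S, ∀ y ∈ S', x * y - y * x ∈ R) :
    br (Submodule.span K S) (Submodule.span K S') ≤ R := by
  rw [br, Submodule.map₂_span_span, Submodule.span_le]
  rintro _ ⟨x, hx, y, hy, rfl⟩
  exact h x hx y hy

end

section
variable {K : Type*} [Field K]

/-- extension of scalars on the free algebra -/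
noncomputable def mp (K L : Type*) [Field K] [Field L] [Algebra K L] : TT K →+* TT L :=
  MonoidAlgebra.mapRingHom Wd (algebraMap K L)

variable {L : Type*} [Field L] [Algebra K L]

lemma mp_smul (c : K) (x : TT K) : mp K L (c • x) = algebraMap K L c • mp K L x := by
  ext w
  simp [mp, Algebra.smul_def]

lemma mp_wd (w : Wd) : mp K L (wd w) = wd w := by
  simp [mp, wd]

/-- extension of a subspace -/
noncomputable def ext (L : Type*) [Field L] [Algebra K L] (X : Submodule K (TT K)) : Submodule L (TT L) :=
  Submodule.span L (mp K L '' X)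

lemma mp_mem_ext {X : Submodule K (TT K)} {x : TT K} (hx : x ∈ X) : mp K L x ∈ ext L X :=
  Submodule.subset_span ⟨x, hx, rfl⟩

lemma ext_le {X : Submodule K (TT K)} {Y : Submodule L (TT L)} (h : ∀ x ∈ X, mp K L x ∈ Y) :
    ext L X ≤ Y := by
  rw [ext, Submodule.span_le]
  rintro _ ⟨x, hx, rfl⟩
  exact h x hx

lemma X0_ext : ∀ s : BT, X0 L s = ext L (X0 K s)
  | BT.leaf => by
    apply le_antisymm
    · rw [X0, V1, Submodule.span_le]
      rintro _ ⟨i, rfl⟩
      change (wd (FreeMonoid.of (i, 0)) : TT L) ∈ _
      rw [← mp_wd (K := K)]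
      exact mp_mem_ext (letter_mem_V1 i 0)
    · apply ext_le
      intro x hx
      rw [X0, V1] at hx
      induction hx using Submodule.span_induction with
      | mem x hx =>
        obtain ⟨i, rfl⟩ := hx
        change mp K L (wd (FreeMonoid.of (i, 0))) ∈ _
        rw [mp_wd]
        exact letter_mem_V1 i 0
      | zero => rw [map_zero]; exact Submodule.zero_mem _
      | add x y _ _ h h' => rw [map_add]; exact Submodule.add_mem _ h h'
      | smul c x _ h => rw [mp_smul]; exact Submodule.smul_mem _ _ h
  | BT.node a b => by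
    apply le_antisymm
    · rw [X0, X0_ext a, X0_ext b]
      apply br_span_le
      rintro _ ⟨x, hx, rfl⟩ _ ⟨y, hy, rfl⟩
      rw [← map_mul, ← map_mul, ← map_sub]
      exact mp_mem_ext (mem_br hx hy)
    · apply ext_le
      intro x hx
      rw [X0] at hx
      refine br_ind (C := fun x => mp K L x ∈ X0 L (BT.node a b)) ?_ ?_ ?_ hx
      · rw [map_zero]; exact Submodule.zero_mem _
      · intro x y h h'; rw [map_add]; exact Submodule.add_mem _ h h'
      · intro x hx y hy
        rw [map_sub, map_mul, map_mul, X0]
        refine mem_br ?_ ?_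
        · rw [X0_ext a]; exact mp_mem_ext hx
        · rw [X0_ext b]; exact mp_mem_ext hy

end

theorem base_change {K L : Type*} [Field K] [Field L] [Algebra K L] (s t : BT)
    (h : X0 K s = X0 K t) : X0 L s = X0 L t := by
  rw [X0_ext (K := K) s, X0_ext (K := K) t, h]

end Pool.Agent.H25
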