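import Pool.Agent.H25.Trees

/-! From identities in Lie algebras to the subspaces of trees. -/

namespace Pool.Agent.H25

open MonoidAlgebra

universe u v

/-- the multilinear Lie monomial of a tree in the variables `i, i + 1, ...` -/
noncomputable def mono (K : Type u) [Field K] : BT → ℕ → FreeLieAlgebra K ℕ
  | BT.leaf, i => FreeLieAlgebra.of K i
  | BT.node a b, i => ⁅mono K a i, mono K b (i + a.lv)⁆

/-- the identity of the tree `t` holds in `A` -/
def Holds (K : Type u) [Field K] (t : BT) (A : Type v) [LieRing A] [LieAlgebra K A] : Prop :=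
  ∀ f : ℕ → A, FreeLieAlgebra.lift K f (mono K t 0) = 0

/-- the value of the monomial of a tree -/
def ev {A : Type v} [LieRing A] : BT → (ℕ → A) → ℕ → A
  | BT.leaf, f, i => f i
  | BT.node a b, f, i => ⁅ev a f i, ev b f (i + a.lv)⁆

section ev
variable {K : Type u} [Field K] {A : Type v} [LieRing A]

lemma lift_mono [LieAlgebra K A] (f : ℕ → A) : ∀ (t : BT) (i : ℕ),
    FreeLieAlgebra.lift K f (mono K t i) = ev t f i
  | BT.leaf, i => by rw [mono, FreeLieAlgebra.lift_of_apply, ev]
  | BT.node a b, i => by rw [mono, LieHom.map_lie, lift_mono f a, lift_mono f b, ev]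

lemma holds_iff [LieAlgebra K A] (t : BT) : Holds K t A ↔ ∀ f : ℕ → A, ev t f 0 = 0 := by
  unfold Holds
  simp only [lift_mono]

lemma ev_congr : ∀ (t : BT) (f g : ℕ → A) (i : ℕ),
    (∀ n, i ≤ n → n < i + t.lv → f n = g n) → ev t f i = ev t g i
  | BT.leaf, f, g, i, h => h i le_rfl (by simp [BT.lv])
  | BT.node a b, f, g, i, h => by
    have ha := BT.lv_pos a
    have hb := BT.lv_pos b
    have e : (BT.node a b).lv = a.lv + b.lv := rfl
    rw [e] at h
    rw [ev, ev, ev_congr a f g i (fun n h1 h2 => h n h1 (by omega)),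
      ev_congr b f g (i + a.lv) (fun n h1 h2 => h n (by omega) (by omega))]

lemma ev_shift : ∀ (t : BT) (f : ℕ → A) (i j : ℕ), ev t f (i + j) = ev t (fun n => f (n + j)) i
  | BT.leaf, f, i, j => rfl
  | BT.node a b, f, i, j => by
    rw [ev, ev, ev_shift a f i j, ← ev_shift b f (i + a.lv) j]
    congr 2
    ring

lemma ev_map {B : Type v} [LieRing B] (φ : A → B) (hφ : ∀ x y, φ ⁅x, y⁆ = ⁅φ x, φ y⁆) :
    ∀ (t : BT) (f : ℕ → A) (i : ℕ), φ (ev t f i) = ev t (fun n => φ (f n)) i
  | BT.leaf, f, i => rfl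
  | BT.node a b, f, i => by rw [ev, ev, hφ, ev_map φ hφ a, ev_map φ hφ b]

/-- glue two functions at `m` -/
def gl (m : ℕ) (f g : ℕ → A) : ℕ → A := fun n => if n < m then f n else g n

lemma ev_gl (a b : BT) (f g : ℕ → A) (i : ℕ) :
    ev (BT.node a b) (gl (i + a.lv) f g) i = ⁅ev a f i, ev b g (i + a.lv)⁆ := by
  rw [ev, ev_congr a (gl (i + a.lv) f g) f i (fun n _ h => by simp [gl, h]),
    ev_congr b (gl (i + a.lv) f g) g (i + a.lv) (fun n h _ => by simp [gl, not_lt.mpr h])]

/-- move the base point -/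
lemma ev_move (t : BT) (f : ℕ → A) (i j : ℕ) : ∃ g : ℕ → A, ev t g j = ev t f i := by
  refine ⟨fun n => f (n - j + i), ?_⟩
  have h1 := ev_shift t (fun n => f (n - j + i)) 0 j
  have h2 := ev_shift t f 0 i
  rw [zero_add] at h1 h2
  rw [h1, h2]
  congr 1
  funext n
  simp

lemma iso_ev {s t : BT} (h : BT.Iso s t) : ∀ (f : ℕ → A) (i j : ℕ), ∃ g : ℕ → A,
    ev s f i = ev t g j ∨ ev s f i = - ev t g j := by
  induction h with
  | leaf => exact fun f i j => ⟨fun _ => f i, Or.inl rfl⟩
  | @node a b c d _ _ h1 h2 =>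
    intro f i j
    obtain ⟨g1, e1⟩ := h1 f i j
    obtain ⟨g2, e2⟩ := h2 f (i + a.lv) (j + c.lv)
    refine ⟨gl (j + c.lv) g1 g2, ?_⟩
    rw [ev_gl, ev]
    rcases e1 with e1 | e1 <;> rcases e2 with e2 | e2 <;> rw [e1, e2]
    · exact Or.inl rfl
    · right; rw [lie_neg]
    · right; rw [neg_lie]
    · left; rw [neg_lie, lie_neg, neg_neg]
  | @swap a b c d _ _ h1 h2 =>
    intro f i j
    obtain ⟨g1, e1⟩ := h1 f i (j + c.lv)
    obtain ⟨g2, e2⟩ := h2 f (i + a.lv) j
    refine ⟨gl (j + c.lv) g2 g1, ?_⟩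
    rw [ev_gl, ev]
    rcases e1 with e1 | e1 <;> rcases e2 with e2 | e2 <;> rw [e1, e2]
    · right; rw [lie_skew]
    · left; rw [lie_neg, lie_skew]
    · left; rw [neg_lie, lie_skew]
    · right; rw [neg_lie, lie_neg, neg_neg, lie_skew]

end ev

theorem holds_of_iso {K : Type u} [Field K] {s t : BT} (h : BT.Iso s t) (A : Type v) [LieRing A]
    [LieAlgebra K A] : Holds K s A ↔ Holds K t A := by
  have main : ∀ {s t : BT}, BT.Iso s t → Holds K t A → Holds K s A := by
    intro s t h ht
    rw [holds_iff] at ht ⊢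
    intro f
    obtain ⟨g, e | e⟩ := iso_ev h f 0 0
    · rw [e, ht g]
    · rw [e, ht g, neg_zero]
  exact ⟨main h.symm, main h⟩

attribute [local instance 100] LieRing.ofAssociativeRing

section
variable (K : Type u) [Field K]

/-- the verbal ideal of a tree in the free associative algebra -/
noncomputable def MM : BT → Submodule K (TT K)
  | BT.leaf => ⊤
  | BT.node a b => br (MM a) (MM b)

/-- the lowest part of the verbal ideal -/
noncomputable def MMV : BT → Submodule K (TT K)
  | BT.leaf => len K 1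
  | BT.node a b => br (MMV a) (MMV b)

variable {K}

lemma MM_ideal : ∀ (t : BT) (x z : TT K), x ∈ MM K t → x * z - z * x ∈ MM K t
  | BT.leaf, x, z, _ => Submodule.mem_top
  | BT.node a b, x, z, hx => by
    refine br_ind (C := fun x => x * z - z * x ∈ MM K (BT.node a b)) ?_ ?_ ?_ hx
    · rw [zero_mul, mul_zero, sub_zero]; exact Submodule.zero_mem _
    · intro x y h h'
      have e : (x + y) * z - z * (x + y) = (x * z - z * x) + (y * z - z * y) := by noncomm_ring
      rw [e]; exact Submodule.add_mem _ h h'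
    · intro x hx y hy
      have e : (x * y - y * x) * z - z * (x * y - y * x)
          = ((x * z - z * x) * y - y * (x * z - z * x)) + (x * (y * z - z * y) - (y * z - z * y) * x) := by
        noncomm_ring
      rw [e]
      exact Submodule.add_mem _ (mem_br (MM_ideal a x z hx) hy) (mem_br hx (MM_ideal b y z hy))

lemma ev_mem_MM : ∀ (t : BT) (f : ℕ → TT K) (i : ℕ), ev t f i ∈ MM K t
  | BT.leaf, f, i => Submodule.mem_top
  | BT.node a b, f, i => by
    rw [ev, Ring.lie_def]
    exact mem_br (ev_mem_MM a f i) (ev_mem_MM b f _)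

lemma MM_le {W : Submodule K (TT K)} (t : BT) (h : ∀ f : ℕ → TT K, ev t f 0 ∈ W) : MM K t ≤ W := by
  have main : ∀ (t : BT) (i : ℕ), MM K t ≤ Submodule.span K (Set.range fun f : ℕ → TT K => ev t f i) := by
    intro t
    induction t with
    | leaf => exact fun i x _ => Submodule.subset_span ⟨fun _ => x, rfl⟩
    | node a b ha hb =>
      intro i
      rw [MM, br_le]
      intro x hx y hy
      have hx' := ha i hx
      have hy' := hb (i + a.lv) hy
      clear hx hy
      induction hx' using Submodule.span_induction with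
      | mem x hx =>
        obtain ⟨f, rfl⟩ := hx
        induction hy' using Submodule.span_induction with
        | mem y hy =>
          obtain ⟨g, rfl⟩ := hy
          apply Submodule.subset_span
          exact ⟨gl (i + a.lv) f g, by simp only [ev_gl, Ring.lie_def]⟩
        | zero => rw [mul_zero, zero_mul, sub_zero]; exact Submodule.zero_mem _
        | add x y _ _ hx hy =>
          have e : ∀ z : TT K, z * (x + y) - (x + y) * z = (z * x - x * z) + (z * y - y * z) := by
            intro z; noncomm_ring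
          rw [e]; exact Submodule.add_mem _ hx hy
        | smul c x _ hx =>
          rw [mul_smul_comm, smul_mul_assoc, ← smul_sub]; exact Submodule.smul_mem _ _ hx
      | zero => rw [mul_zero, zero_mul, sub_zero]; exact Submodule.zero_mem _
      | add x z _ _ hx hz =>
        have e : (x + z) * y - y * (x + z) = (x * y - y * x) + (z * y - y * z) := by noncomm_ring
        rw [e]; exact Submodule.add_mem _ hx hz
      | smul c x _ hx =>
        rw [mul_smul_comm, smul_mul_assoc, ← smul_sub]; exact Submodule.smul_mem _ _ hx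
  refine (main t 0).trans (Submodule.span_le.2 ?_)
  rintro _ ⟨f, rfl⟩
  exact h f

/-- the Lie ideal -/
noncomputable def MI (s : BT) : LieIdeal K (TT K) :=
  { MM K s with
    lie_mem := by
      intro x m hm
      change ⁅x, m⁆ ∈ MM K s
      rw [Ring.lie_def, ← neg_sub]
      exact Submodule.neg_mem _ (MM_ideal s m x hm) }

lemma mem_MI {s : BT} {x : TT K} : x ∈ MI (K := K) s ↔ x ∈ MM K s := Iff.rfl

lemma MM_le_of_holds (s t : BT) (h : ∀ (A : Type u) [LieRing A] [LieAlgebra K A],
    Holds K s A → Holds K t A) : MM K t ≤ MM K s := by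
  have h1 := h (TT K ⧸ MI (K := K) s)
  rw [holds_iff, holds_iff] at h1
  have hmk : ∀ x y : TT K, (LieSubmodule.Quotient.mk ⁅x, y⁆ : TT K ⧸ MI (K := K) s)
      = ⁅(LieSubmodule.Quotient.mk x : TT K ⧸ MI (K := K) s), LieSubmodule.Quotient.mk y⁆ := by
    intro x y
    rfl
  have h2 : ∀ f : ℕ → TT K ⧸ MI (K := K) s, ev s f 0 = 0 := by
    intro f
    have hs : ∀ n, ∃ x : TT K, (LieSubmodule.Quotient.mk x : TT K ⧸ MI (K := K) s) = f n :=
      fun n => LieSubmodule.Quotient.surjective_mk' (MI (K := K) s) (f n)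
    choose g hg using hs
    have e : f = fun n => (LieSubmodule.Quotient.mk (g n) : TT K ⧸ MI (K := K) s) := by
      funext n; exact (hg n).symm
    rw [e, ← ev_map _ hmk]
    exact (LieSubmodule.Quotient.mk_eq_zero' (N := MI (K := K) s)).2 (ev_mem_MM s g 0)
  have h3 := h1 h2
  apply MM_le
  intro f
  have h4 := h3 (fun n => (LieSubmodule.Quotient.mk (f n) : TT K ⧸ MI (K := K) s))
  rw [← ev_map _ hmk] at h4
  exact (LieSubmodule.Quotient.mk_eq_zero' (N := MI (K := K) s)).1 h4

lemma MMV_le_len : ∀ t : BT, MMV K t ≤ len K t.lv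
  | BT.leaf => le_rfl
  | BT.node a b => br_len (MMV_le_len a) (MMV_le_len b)

lemma X0_le_MM : ∀ t : BT, X0 K t ≤ MM K t
  | BT.leaf => le_top
  | BT.node a b => br_mono (X0_le_MM a) (X0_le_MM b)

lemma X0_ne_bot : ∀ t : BT, X0 K t ≠ ⊥
  | BT.leaf => V1_ne_bot 0
  | BT.node a b => br_ne_bot a.lv_pos b.lv_pos (X0_le_len a) (X0_le_len b) (X0_clo a) (X0_clo b)
      (X0_ne_bot a) (X0_ne_bot b)

/-- `x = c + y + z` with `y` in the lowest part and `z` of higher degree -/
lemma MM_decomp : ∀ (t : BT) (x : TT K), x ∈ MM K t →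
    ∃ (c : K) (y z : TT K), y ∈ MMV K t ∧ z ∈ hi K (t.lv + 1) ∧ x = c • 1 + y + z
  | BT.leaf, x, _ => by
    refine T_ind (P := fun x => ∃ (c : K) (y z : TT K), y ∈ MMV K BT.leaf ∧
      z ∈ hi K (BT.leaf.lv + 1) ∧ x = c • 1 + y + z) ?_ ?_ ?_ ?_ x
    · exact ⟨0, 0, 0, Submodule.zero_mem _, Submodule.zero_mem _, by simp⟩
    · rintro _ _ ⟨c, y, z, hy, hz, rfl⟩ ⟨c', y', z', hy', hz', rfl⟩
      refine ⟨c + c', y + y', z + z', Submodule.add_mem _ hy hy', Submodule.add_mem _ hz hz', ?_⟩
      rw [add_smul]; abel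
    · rintro r _ ⟨c, y, z, hy, hz, rfl⟩
      refine ⟨r * c, r • y, r • z, Submodule.smul_mem _ _ hy, Submodule.smul_mem _ _ hz, ?_⟩
      rw [smul_add, smul_add, smul_smul]
    · intro w
      rcases Nat.lt_or_ge w.length 2 with hw | hw
      · rcases Nat.lt_or_ge w.length 1 with hw1 | hw1
        · have : w = 1 := FreeMonoid.length_eq_zero.1 (by omega)
          subst this
          exact ⟨1, 0, 0, Submodule.zero_mem _, Submodule.zero_mem _, by simp⟩
        · refine ⟨0, wd w, 0, ?_, Submodule.zero_mem _, by simp⟩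
          have h1 : w.length = 1 := by omega
          change wd w ∈ len K 1
          rw [← h1]; exact wd_mem_len w
      · refine ⟨0, 0, wd w, Submodule.zero_mem _, ?_, by simp⟩
        exact hi_mono hw (len_le_hi _ (wd_mem_len w))
  | BT.node a b, x, hx => by
    refine br_ind (C := fun x => ∃ (c : K) (y z : TT K), y ∈ MMV K (BT.node a b) ∧
      z ∈ hi K ((BT.node a b).lv + 1) ∧ x = c • 1 + y + z) ?_ ?_ ?_ hx
    · exact ⟨0, 0, 0, Submodule.zero_mem _, Submodule.zero_mem _, by simp⟩
    · rintro _ _ ⟨c, y, z, hy, hz, rfl⟩ ⟨c', y', z', hy', hz', rfl⟩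
      refine ⟨c + c', y + y', z + z', Submodule.add_mem _ hy hy', Submodule.add_mem _ hz hz', ?_⟩
      rw [add_smul]; abel
    · intro p hp q hq
      obtain ⟨c, y, z, hy, hz, rfl⟩ := MM_decomp a p hp
      obtain ⟨c', y', z', hy', hz', rfl⟩ := MM_decomp b q hq
      refine ⟨0, y * y' - y' * y, (y * z' + z * y' + z * z') - (z' * y + y' * z + z' * z), mem_br hy hy',
        ?_, ?_⟩
      · have e : (BT.node a b).lv + 1 = a.lv + b.lv + 1 := rfl
        have y1 := len_le_hi _ (MMV_le_len a hy)
        have y2 := len_le_hi _ (MMV_le_len b hy')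
        have m1 : y * z' ∈ hi K (a.lv + b.lv + 1) := hi_mono (by omega) (hi_mul y1 hz')
        have m2 : z * y' ∈ hi K (a.lv + b.lv + 1) := hi_mono (by omega) (hi_mul hz y2)
        have m3 : z * z' ∈ hi K (a.lv + b.lv + 1) := hi_mono (by omega) (hi_mul hz hz')
        have m4 : z' * y ∈ hi K (a.lv + b.lv + 1) := hi_mono (by omega) (hi_mul hz' y1)
        have m5 : y' * z ∈ hi K (a.lv + b.lv + 1) := hi_mono (by omega) (hi_mul y2 hz)
        have m6 : z' * z ∈ hi K (a.lv + b.lv + 1) := hi_mono (by omega) (hi_mul hz' hz)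
        rw [e]
        exact Submodule.sub_mem _ (Submodule.add_mem _ (Submodule.add_mem _ m1 m2) m3)
          (Submodule.add_mem _ (Submodule.add_mem _ m4 m5) m6)
      · have h1 : (c • (1 : TT K)) * (c' • 1 + y' + z') = (c' • 1 + y' + z') * (c • (1 : TT K)) := by
          rw [smul_mul_assoc, one_mul, mul_smul_comm, mul_one]
        have h2 : (c' • (1 : TT K)) * (y + z) = (y + z) * (c' • (1 : TT K)) := by
          rw [smul_mul_assoc, one_mul, mul_smul_comm, mul_one]
        rw [zero_smul, zero_add]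
        generalize c • (1 : TT K) = P at h1 ⊢
        generalize c' • (1 : TT K) = Q at h1 h2 ⊢
        calc (P + y + z) * (Q + y' + z') - (Q + y' + z') * (P + y + z)
            = (P * (Q + y' + z') - (Q + y' + z') * P) + ((y + z) * Q - Q * (y + z))
              + ((y + z) * (y' + z') - (y' + z') * (y + z)) := by noncomm_ring
          _ = (y + z) * (y' + z') - (y' + z') * (y + z) := by rw [h1, h2, sub_self, sub_self]; simp
          _ = _ := by noncomm_ring

/-- keep the letters of exponent zero -/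
noncomputable def kz : TT K →ₐ[K] TT K :=
  MonoidAlgebra.lift K (TT K) Wd (FreeMonoid.lift (fun a : ℕ × ℕ =>
    if a.2 = 0 then (wd (FreeMonoid.of a) : TT K) else 0))

lemma kz_of (a : ℕ × ℕ) : kz (wd (FreeMonoid.of a) : TT K) =
    if a.2 = 0 then (wd (FreeMonoid.of a) : TT K) else 0 := by
  have h : kz (single (FreeMonoid.of a) 1 : TT K) =
      if a.2 = 0 then (wd (FreeMonoid.of a) : TT K) else 0 := by
    rw [kz, MonoidAlgebra.lift_single, one_smul, FreeMonoid.lift_eval_of]
  exact h

lemma kz_X0 : ∀ t : BT, ∀ x ∈ X0 K t, kz x = x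
  | BT.leaf, x, hx => by
    change x ∈ V1 K 0 at hx
    rw [V1] at hx
    induction hx using Submodule.span_induction with
    | mem x hx => obtain ⟨i, rfl⟩ := hx; simp [kz_of]
    | zero => exact map_zero _
    | add x y _ _ h h' => rw [map_add, h, h']
    | smul c x _ h => rw [map_smul, h]
  | BT.node a b, x, hx => by
    refine br_ind (C := fun x => kz x = x) (map_zero _) ?_ ?_ hx
    · intro x y h h'; rw [map_add, h, h']
    · intro x hx y hy
      rw [map_sub, map_mul, map_mul, kz_X0 a x hx, kz_X0 b y hy]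

lemma kz_MMV : ∀ t : BT, ∀ x ∈ MMV K t, kz x ∈ X0 K t
  | BT.leaf, x, hx => by
    change x ∈ len K 1 at hx
    change kz x ∈ V1 K 0
    refine len_ind (P := fun x => kz x ∈ V1 K 0) ?_ ?_ ?_ ?_ hx
    · rw [map_zero]; exact Submodule.zero_mem _
    · intro x y h h'; rw [map_add]; exact Submodule.add_mem _ h h'
    · intro c x h; rw [map_smul]; exact Submodule.smul_mem _ _ h
    · intro w hw
      obtain ⟨a, rfl⟩ := FreeMonoid.length_eq_one.1 hw
      rw [kz_of]
      split_ifs with h
      · have e : a = (a.1, 0) := by ext <;> simp [h]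
        rw [e]; exact letter_mem_V1 _ _
      · exact Submodule.zero_mem _
  | BT.node a b, x, hx => by
    refine br_ind (C := fun x => kz x ∈ X0 K (BT.node a b)) ?_ ?_ ?_ hx
    · rw [map_zero]; exact Submodule.zero_mem _
    · intro x y h h'; rw [map_add]; exact Submodule.add_mem _ h h'
    · intro x hx y hy
      rw [map_sub, map_mul, map_mul]
      exact mem_br (kz_MMV a x hx) (kz_MMV b y hy)

lemma coeff_hi {k : ℕ} {z : TT K} (hz : z ∈ hi K k) {w : Wd} (h : w.length < k) :
    z.coeff w = 0 := mem_hi.1 hz w h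

lemma coeff_one_pos {w : Wd} (h : 1 ≤ w.length) : (1 : TT K).coeff w = 0 := by
  rw [← wd_one, coeff_wd, if_neg]
  rintro rfl
  simp at h

lemma lv_le_of_le {s t : BT} (h : MM K t ≤ MM K s) : s.lv ≤ t.lv := by
  obtain ⟨x, hx, hx0⟩ := Submodule.exists_mem_ne_zero_of_ne_bot (X0_ne_bot (K := K) t)
  obtain ⟨c, y, z, hy, hz, e⟩ := MM_decomp s x (h (X0_le_MM t hx))
  by_contra hcon
  push Not at hcon
  obtain ⟨w, hw⟩ := exists_coeff_ne hx0
  have hwl := length_of_coeff_ne (X0_le_len t hx) hw
  have ht := t.lv_pos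
  apply hw
  rw [e]
  simp only [coeff_add, Finsupp.add_apply, coeff_smul, Finsupp.smul_apply, smul_eq_mul]
  rw [coeff_one_pos (by omega), mem_len.1 (MMV_le_len s hy) w (by omega),
    coeff_hi hz (by omega)]
  simp

lemma X0_le_of_le {s t : BT} (h : MM K t ≤ MM K s) (hl : s.lv = t.lv) : X0 K t ≤ X0 K s := by
  intro x hx
  obtain ⟨c, y, z, hy, hz, e⟩ := MM_decomp s x (h (X0_le_MM t hx))
  have hxy : x = y := by
    apply eq_of_coeff (X0_le_len t hx) (hl ▸ MMV_le_len s hy)
    intro w hw
    have ht := t.lv_pos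
    rw [e]
    simp only [coeff_add, Finsupp.add_apply, coeff_smul, Finsupp.smul_apply, smul_eq_mul]
    rw [coeff_one_pos (by omega), coeff_hi hz (by omega)]
    simp
  rw [← kz_X0 t x hx]
  have := kz_MMV s y hy
  rwa [← hxy] at this

end

theorem semantic {K : Type u} [Field K] (s t : BT) (h : ∀ (A : Type u) [LieRing A]
    [LieAlgebra K A], Holds K s A ↔ Holds K t A) : BT.lv s = BT.lv t ∧ X0 K s = X0 K t := by
  have h1 : MM K t ≤ MM K s := MM_le_of_holds s t (fun A _ _ => (h A).1)
  have h2 : MM K s ≤ MM K t := MM_le_of_holds t s (fun A _ _ => (h A).2)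
  have hl : s.lv = t.lv := le_antisymm (lv_le_of_le h1) (lv_le_of_le h2)
  exact ⟨hl, le_antisymm (X0_le_of_le h2 hl.symm) (X0_le_of_le h1 hl)⟩

end Pool.Agent.H25
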