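import Pool.Agent.H25.Trees

/-! Small trees are good. -/

namespace Pool.Agent.H25

/-- number of cherries (inner vertices both of whose children are leaves) -/
def ch : BT → ℕ
  | BT.leaf => 0
  | BT.node BT.leaf BT.leaf => 1
  | BT.node a b => ch a + ch b

lemma lv_core_le : ∀ s : BT, s.core.lv ≤ s.lv
  | BT.leaf => le_rfl
  | BT.node BT.leaf b => by
    have := lv_core_le b
    rw [BT.core, BT.lv]; omega
  | BT.node (BT.node a c) BT.leaf => by
    have := lv_core_le (BT.node a c)
    rw [BT.core, BT.lv]; omega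
  | BT.node (BT.node a c) (BT.node b d) => by
    have h1 := lv_core_le (BT.node a c)
    have h2 := lv_core_le (BT.node b d)
    rw [BT.core, BT.lv, BT.lv]; omega

lemma lv_iter_core_le (s : BT) (t : ℕ) : (BT.core^[t] s).lv ≤ s.lv := by
  induction t with
  | zero => exact le_rfl
  | succ t ih =>
    rw [Function.iterate_succ_apply']
    exact (lv_core_le _).trans ih

lemma lv_contract (s : BT) : (contract s).lv = s.core.lv := by
  rw [← DT.lv_shape, shape_contract]

lemma dec_add_lv_contract : ∀ s : BT, (contract s).dec + (contract s).lv = s.lv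
  | BT.leaf => rfl
  | BT.node BT.leaf b => by
    have := dec_add_lv_contract b
    rw [contract, DT.dec_bump, DT.lv_bump, BT.lv, BT.lv]; omega
  | BT.node (BT.node a c) BT.leaf => by
    have := dec_add_lv_contract (BT.node a c)
    rw [contract, DT.dec_bump, DT.lv_bump]
    change _ = BT.lv (BT.node a c) + 1
    omega
  | BT.node (BT.node a c) (BT.node b d) => by
    have h1 := dec_add_lv_contract (BT.node a c)
    have h2 := dec_add_lv_contract (BT.node b d)
    rw [contract, DT.dec, DT.lv]
    change _ = BT.lv (BT.node a c) + BT.lv (BT.node b d)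
    omega

/-- all decorations of leaves are positive -/
def Ge1 : DT → Prop
  | DT.leaf r => 1 ≤ r
  | DT.node _ a b => Ge1 a ∧ Ge1 b

lemma ge1_bump {D : DT} (h : Ge1 D) : Ge1 D.bump := by
  cases D with
  | leaf r => exact Nat.le_succ_of_le h
  | node r a b => exact h

lemma contract_ge1 : ∀ s : BT, s ≠ BT.leaf → Ge1 (contract s)
  | BT.leaf, h => absurd rfl h
  | BT.node BT.leaf BT.leaf, _ => by rw [contract, contract]; exact le_rfl
  | BT.node BT.leaf (BT.node a b), _ => by
    rw [contract]; exact ge1_bump (contract_ge1 _ (by simp))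
  | BT.node (BT.node a c) BT.leaf, _ => by
    rw [contract]; exact ge1_bump (contract_ge1 _ (by simp))
  | BT.node (BT.node a c) (BT.node b d), _ => by
    rw [contract]; exact ⟨contract_ge1 _ (by simp), contract_ge1 _ (by simp)⟩

lemma lv_le_dec : ∀ D : DT, Ge1 D → D.lv ≤ D.dec
  | DT.leaf r, h => h
  | DT.node r a b, h => by
    have h1 := lv_le_dec a h.1
    have h2 := lv_le_dec b h.2
    rw [DT.lv, DT.dec]; omega

lemma uni_of_eq : ∀ D : DT, Ge1 D → D.dec = D.lv → D.Uni 1
  | DT.leaf r, _, e => e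
  | DT.node r a b, h, e => by
    have h1 := lv_le_dec a h.1
    have h2 := lv_le_dec b h.2
    rw [DT.lv, DT.dec] at e
    exact ⟨by omega, uni_of_eq a h.1 (by omega), uni_of_eq b h.2 (by omega)⟩

lemma not_trouble_of_lv {A B : DT} (h : A.lv + B.lv ≤ 5) : ¬ DT.Trouble A B := by
  rintro ⟨h1, h2, ⟨k, hk⟩, -⟩
  rcases k with _ | _ | k
  · omega
  · omega
  · have : B.lv * (k + 1 + 1) = B.lv * k + 2 * B.lv := by ring
    have h3 : 0 ≤ B.lv * k := Nat.zero_le _
    omega

lemma nt_of_lv : ∀ D : DT, D.lv ≤ 5 → D.NT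
  | DT.leaf _, _ => trivial
  | DT.node r A B, h => by
    rw [DT.lv] at h
    exact ⟨not_trouble_of_lv h, not_trouble_of_lv (by omega), nt_of_lv A (by omega),
      nt_of_lv B (by omega)⟩

lemma not_trouble_of_total {A B : DT} (hA : Ge1 A) (hB : Ge1 B)
    (h : A.dec + A.lv + (B.dec + B.lv) ≤ 14) : ¬ DT.Trouble A B := by
  rintro ⟨h1, h2, ⟨k, hk⟩, ⟨A1, A2, e, e1, e2⟩, hu⟩
  have d1 : A.dec = A1.dec + A2.dec := by rw [e, DT.dec]; omega
  have l1 : A.lv = A1.lv + A2.lv := by rw [e, DT.lv]
  have s1 : A.dec * B.lv = B.dec * A.lv := by rw [d1, l1, add_mul, mul_add, e1, e2]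
  have dk : A.dec = B.dec * k := by
    rw [hk] at s1
    have : 0 < B.lv := by omega
    apply Nat.eq_of_mul_eq_mul_right this
    rw [s1]; ring
  have hb := lv_le_dec B hB
  rcases k with _ | _ | _ | k
  · omega
  · omega
  · have hl : A.lv = 4 ∧ B.lv = 2 ∧ B.dec = 2 ∧ A.dec = 4 := by omega
    exact hu ⟨1, uni_of_eq A hA (by omega), uni_of_eq B hB (by omega)⟩
  · have t1 : B.lv * (k + 1 + 1 + 1) = B.lv * k + 3 * B.lv := by ring
    have t2 : B.dec * (k + 1 + 1 + 1) = B.dec * k + 3 * B.dec := by ring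
    have t3 : 0 ≤ B.lv * k := Nat.zero_le _
    have t4 : 0 ≤ B.dec * k := Nat.zero_le _
    omega

lemma nt_of_total : ∀ D : DT, Ge1 D → D.dec + D.lv ≤ 14 → D.NT
  | DT.leaf _, _, _ => trivial
  | DT.node r A B, hg, h => by
    rw [DT.lv, DT.dec] at h
    exact ⟨not_trouble_of_total hg.1 hg.2 (by omega), not_trouble_of_total hg.2 hg.1 (by omega),
      nt_of_total A hg.1 (by omega), nt_of_total B hg.2 (by omega)⟩

/-- all trees with at most 14 leaves are good -/
theorem good_of_lv (s : BT) (h : s.lv ≤ 14) : Good s := by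
  intro t
  have h1 : (BT.core^[t] s).lv ≤ 14 := (lv_iter_core_le s t).trans h
  generalize BT.core^[t] s = u at h1
  cases u with
  | leaf => rw [contract]; trivial
  | node a b => exact nt_of_total _ (contract_ge1 _ (by simp)) (by rw [dec_add_lv_contract]; exact h1)

lemma lv_core_eq_ch : ∀ s : BT, s ≠ BT.leaf → s.core.lv = ch s
  | BT.leaf, h => absurd rfl h
  | BT.node BT.leaf BT.leaf, _ => rfl
  | BT.node BT.leaf (BT.node a b), _ => by
    rw [BT.core, lv_core_eq_ch (BT.node a b) (by simp)]
    simp [ch]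
  | BT.node (BT.node a c) BT.leaf, _ => by
    rw [BT.core, lv_core_eq_ch (BT.node a c) (by simp)]
    simp [ch]
  | BT.node (BT.node a c) (BT.node b d), _ => by
    rw [BT.core, BT.lv, lv_core_eq_ch (BT.node a c) (by simp), lv_core_eq_ch (BT.node b d) (by simp)]
    simp [ch]

/-- all trees with at most 5 cherries are good -/
theorem good_of_ch (s : BT) (h : ch s ≤ 5) : Good s := by
  have h0 : s.core.lv ≤ 5 := by
    cases s with
    | leaf => rw [BT.core, BT.lv]; omega
    | node a b => rw [lv_core_eq_ch _ (by simp)]; exact h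
  intro t
  apply nt_of_lv
  rw [lv_contract, ← Function.iterate_succ_apply' BT.core t s, Function.iterate_succ_apply]
  exact (lv_iter_core_le _ _).trans h0

end Pool.Agent.H25
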