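import Pool.Agent.H25.Trees

/-! Contraction of cherries: from plain trees to decorated trees of cherries. -/

namespace Pool.Agent.H25

open MonoidAlgebra

section
variable {K : Type*} [Field K]

/-- left multiplication -/
noncomputable def Lm : TT K →ₐ[K] Module.End K (TT K) := Algebra.lmul K (TT K)

lemma Lm_apply (x y : TT K) : Lm x y = x * y := rfl

lemma Lm_inj {x y : TT K} (h : (Lm x : Module.End K (TT K)) = Lm y) : x = y := by
  have := congrArg (fun f : Module.End K (TT K) => f 1) h
  simpa [Lm_apply] using this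

/-- the representation used for the contraction -/
noncomputable def phi : TT K →ₐ[K] Module.End K (TT K) :=
  MonoidAlgebra.lift K (Module.End K (TT K)) Wd (FreeMonoid.lift (fun a : ℕ × ℕ =>
    if a.2 = 0 then (if a.1 % 2 = 0 then Lm (wd (FreeMonoid.of (a.1 / 2, 0))) else D) else 0))

lemma phi_of (a : ℕ × ℕ) : phi (wd (FreeMonoid.of a) : TT K) =
    if a.2 = 0 then (if a.1 % 2 = 0 then Lm (wd (FreeMonoid.of (a.1 / 2, 0))) else D) else 0 := by
  rw [phi, wd, MonoidAlgebra.lift_single, one_smul, FreeMonoid.lift_eval_of]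

lemma Lm_D (f : TT K) : Lm f * D - D * Lm f = - Lm (D f) := by
  refine LinearMap.ext (fun y => ?_)
  change f * D y - D (f * y) = - (D f * y)
  rw [D_mul]; abel

lemma phi_leaf {x : TT K} (hx : x ∈ V1 K 0) : ∃ f ∈ V1 K 0, ∃ c : K, phi x = Lm f + c • D := by
  rw [V1] at hx
  induction hx using Submodule.span_induction with
  | mem x hx =>
    obtain ⟨i, rfl⟩ := hx
    rw [phi_of]
    by_cases h : i % 2 = 0
    · exact ⟨_, letter_mem_V1 (i / 2) 0, 0, by simp [h]⟩
    · exact ⟨0, Submodule.zero_mem _, 1, by simp [h]⟩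
  | zero => exact ⟨0, Submodule.zero_mem _, 0, by simp⟩
  | add x y _ _ hx hy =>
    obtain ⟨f, hf, c, e⟩ := hx
    obtain ⟨g, hg, d, e'⟩ := hy
    exact ⟨f + g, Submodule.add_mem _ hf hg, c + d, by rw [map_add, e, e', map_add, add_smul]; abel⟩
  | smul a x _ hx =>
    obtain ⟨f, hf, c, e⟩ := hx
    exact ⟨a • f, Submodule.smul_mem _ _ hf, a * c, by rw [map_smul, e, map_smul, smul_add, smul_smul]⟩

lemma phi_R0 {x : TT K} (hx : x ∈ V1 K 0) : phi (R0 x) = Lm x := by
  rw [V1] at hx
  induction hx using Submodule.span_induction with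
  | mem x hx =>
    obtain ⟨i, rfl⟩ := hx
    rw [R0, hv_of, phi_of]
    simp
  | zero => simp
  | add x y _ _ hx hy => rw [map_add, map_add, hx, hy, map_add]
  | smul a x _ hx => rw [map_smul, map_smul, hx, map_smul]

lemma phi_one : phi (wd (FreeMonoid.of (1, 0)) : TT K) = D := by
  rw [phi_of]; simp

/-- elements with a given leading space -/
def Lead (W : Submodule K (TT K)) (k : ℕ) (e : Module.End K (TT K)) : Prop :=
  ∃ f ∈ W, ∃ h ∈ hi K (k + 1), e = Lm (f + h)

lemma Lead.add {W : Submodule K (TT K)} {k : ℕ} {e e' : Module.End K (TT K)} (h : Lead W k e)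
    (h' : Lead W k e') : Lead W k (e + e') := by
  obtain ⟨f, hf, a, ha, e1⟩ := h
  obtain ⟨g, hg, b, hb, e2⟩ := h'
  refine ⟨f + g, Submodule.add_mem _ hf hg, a + b, Submodule.add_mem _ ha hb, ?_⟩
  rw [e1, e2, ← map_add]
  congr 1
  abel

lemma Lead.zero {W : Submodule K (TT K)} {k : ℕ} : Lead W k 0 :=
  ⟨0, Submodule.zero_mem _, 0, Submodule.zero_mem _, by simp⟩

lemma comm_hi {k l : ℕ} {f g a b : TT K} (hf : f ∈ hi K k) (hg : g ∈ hi K l)
    (ha : a ∈ hi K (k + 1)) (hb : b ∈ hi K (l + 1)) :
    ((f + a) * (g + b) - (g + b) * (f + a)) - (f * g - g * f) ∈ hi K (k + l + 1) := by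
  have e : ((f + a) * (g + b) - (g + b) * (f + a)) - (f * g - g * f) =
      (f * b + a * (g + b)) - (b * f + (g + b) * a) := by noncomm_ring
  rw [e]
  have hgb : g + b ∈ hi K l := Submodule.add_mem _ hg (hi_mono (by omega) hb)
  refine Submodule.sub_mem _ (Submodule.add_mem _ ?_ ?_) (Submodule.add_mem _ ?_ ?_)
  · exact hi_mono (by omega) (hi_mul hf hb)
  · exact hi_mono (by omega) (hi_mul ha hgb)
  · exact hi_mono (by omega) (hi_mul hb hf)
  · exact hi_mono (by omega) (hi_mul hgb ha)

section steps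
variable {P Q : Submodule K (TT K)} {A B : DT}

/-- the two inclusions for one tree -/
structure Contr (P : Submodule K (TT K)) (A : DT) : Prop where
  into : ∀ s ∈ P, Lead (XX K A) A.lv (phi s)
  onto : ∀ f ∈ XX K A, ∃ s ∈ P, ∃ h ∈ hi K (A.lv + 1), phi s = Lm (f + h)

lemma contr_leaf_right (h : Contr P A) : Contr (br P (V1 K 0)) A.bump := by
  constructor
  · intro s hs
    refine br_ind (C := fun s => Lead (XX K A.bump) A.bump.lv (phi s)) ?_ ?_ ?_ hs
    · rw [map_zero]; exact Lead.zero
    · intro x y hx hy; rw [map_add]; exact hx.add hy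
    · intro x hx y hy
      obtain ⟨f, hf, a, ha, e⟩ := h.into x hx
      obtain ⟨g, hg, c, e'⟩ := phi_leaf hy
      refine ⟨-(c • D f), ?_, ((f + a) * g - g * (f + a)) - c • D a, ?_, ?_⟩
      · rw [XX_bump]
        exact Submodule.neg_mem _ (Submodule.smul_mem _ _ (Submodule.mem_map_of_mem hf))
      · rw [DT.lv_bump]
        refine Submodule.sub_mem _ ?_ (Submodule.smul_mem _ _ (D_hi ha))
        have hf' : f + a ∈ hi K A.lv :=
          Submodule.add_mem _ (len_le_hi _ (XX_len A hf)) (hi_mono (by omega) ha)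
        have hg' : g ∈ hi K 1 := len_le_hi _ (bi_le_len _ _ (V1_bi 0 hg))
        refine Submodule.sub_mem _ (hi_mul hf' hg') ?_
        rw [add_comm]
        exact hi_mul hg' hf'
      · have h1 := Lm_D (f + a)
        rw [map_sub, map_mul, map_mul, e, e']
        have h2 : (Lm (f + a) : Module.End K (TT K)) * (Lm g + c • D) - (Lm g + c • D) * Lm (f + a) =
            (Lm (f + a) * Lm g - Lm g * Lm (f + a)) + c • (Lm (f + a) * D - D * Lm (f + a)) := by
          rw [mul_add, add_mul, mul_smul_comm, smul_mul_assoc, smul_sub]; abel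
        rw [h2, h1, ← map_mul, ← map_mul, ← map_sub, ← map_neg, ← map_smul, ← map_add]
        congr 1
        rw [map_add, smul_neg, smul_add]; abel
  · intro f hf
    rw [XX_bump] at hf
    obtain ⟨g, hg, rfl⟩ := hf
    obtain ⟨s, hs, a, ha, e⟩ := h.onto g hg
    refine ⟨-(s * wd (FreeMonoid.of (1, 0)) - wd (FreeMonoid.of (1, 0)) * s),
      Submodule.neg_mem _ (mem_br hs (letter_mem_V1 1 0)), D a, ?_, ?_⟩
    · rw [DT.lv_bump]; exact D_hi ha
    · rw [map_neg, map_sub, map_mul, map_mul, phi_one, e, Lm_D, neg_neg, map_add]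

lemma contr_leaf_left (h : Contr P A) : Contr (br (V1 K 0) P) A.bump := by
  rw [br_comm]; exact contr_leaf_right h

lemma contr_node (h : Contr P A) (h' : Contr Q B) : Contr (br P Q) (DT.node 0 A B) := by
  have hXX : XX K (DT.node 0 A B) = br (XX K A) (XX K B) := by
    rw [XX, pow_zero]
    exact Submodule.map_id _
  constructor
  · intro s hs
    refine br_ind (C := fun s => Lead (XX K (DT.node 0 A B)) (DT.node 0 A B).lv (phi s)) ?_ ?_ ?_ hs
    · rw [map_zero]; exact Lead.zero
    · intro x y hx hy; rw [map_add]; exact hx.add hy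
    · intro x hx y hy
      obtain ⟨f, hf, a, ha, e⟩ := h.into x hx
      obtain ⟨g, hg, b, hb, e'⟩ := h'.into y hy
      refine ⟨f * g - g * f, ?_, ((f + a) * (g + b) - (g + b) * (f + a)) - (f * g - g * f), ?_, ?_⟩
      · rw [hXX]; exact mem_br hf hg
      · exact comm_hi (len_le_hi _ (XX_len A hf)) (len_le_hi _ (XX_len B hg)) ha hb
      · rw [map_sub, map_mul, map_mul, e, e', ← map_mul, ← map_mul, ← map_sub]
        congr 1
        abel
  · intro f hf
    rw [hXX] at hf
    refine br_ind (C := fun f => ∃ s ∈ br P Q, ∃ h ∈ hi K ((DT.node 0 A B).lv + 1), phi s = Lm (f + h))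
      ?_ ?_ ?_ hf
    · exact ⟨0, Submodule.zero_mem _, 0, Submodule.zero_mem _, by simp⟩
    · rintro x y ⟨s, hs, a, ha, e⟩ ⟨t, ht, b, hb, e'⟩
      refine ⟨s + t, Submodule.add_mem _ hs ht, a + b, Submodule.add_mem _ ha hb, ?_⟩
      rw [map_add, e, e', ← map_add]
      congr 1
      abel
    · intro x hx y hy
      obtain ⟨s, hs, a, ha, e⟩ := h.onto x hx
      obtain ⟨t, ht, b, hb, e'⟩ := h'.onto y hy
      refine ⟨s * t - t * s, mem_br hs ht, ((x + a) * (y + b) - (y + b) * (x + a)) - (x * y - y * x), ?_, ?_⟩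
      · exact comm_hi (len_le_hi _ (XX_len A hx)) (len_le_hi _ (XX_len B hy)) ha hb
      · rw [map_sub, map_mul, map_mul, e, e', ← map_mul, ← map_mul, ← map_sub]
        congr 1
        abel

lemma contr_cherry : Contr (br (V1 K 0) (V1 K 0)) (DT.leaf 1) := by
  constructor
  · intro s hs
    refine br_ind (C := fun s => Lead (XX K (DT.leaf 1)) 1 (phi s)) ?_ ?_ ?_ hs
    · rw [map_zero]; exact Lead.zero
    · intro x y hx hy; rw [map_add]; exact hx.add hy
    · intro x hx y hy
      obtain ⟨f, hf, c, e⟩ := phi_leaf hx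
      obtain ⟨g, hg, d, e'⟩ := phi_leaf hy
      refine ⟨c • D g - d • D f, ?_, f * g - g * f, ?_, ?_⟩
      · rw [XX]
        have h1 := D_V1 (K := K) 0
        rw [zero_add] at h1
        rw [← h1]
        exact Submodule.sub_mem _ (Submodule.smul_mem _ _ (Submodule.mem_map_of_mem hg))
          (Submodule.smul_mem _ _ (Submodule.mem_map_of_mem hf))
      · have hf' : f ∈ hi K 1 := len_le_hi _ (bi_le_len _ _ (V1_bi 0 hf))
        have hg' : g ∈ hi K 1 := len_le_hi _ (bi_le_len _ _ (V1_bi 0 hg))
        exact Submodule.sub_mem _ (hi_mul hf' hg') (hi_mul hg' hf')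
      · rw [map_sub, map_mul, map_mul, e, e']
        have h2 : (Lm f + c • D : Module.End K (TT K)) * (Lm g + d • D) - (Lm g + d • D) * (Lm f + c • D) =
            (Lm f * Lm g - Lm g * Lm f) + d • (Lm f * D - D * Lm f) - c • (Lm g * D - D * Lm g) := by
          simp only [mul_add, add_mul, mul_smul_comm, smul_mul_assoc, smul_sub, smul_add, smul_smul]
          rw [mul_comm c d]; abel
        rw [h2, Lm_D, Lm_D]
        simp only [map_add, map_sub, map_mul, map_smul, smul_neg]
        abel
  · intro f hf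
    rw [XX] at hf
    have h1 := D_V1 (K := K) 0
    rw [zero_add] at h1
    rw [← h1] at hf
    obtain ⟨g, hg, rfl⟩ := hf
    refine ⟨wd (FreeMonoid.of (1, 0)) * R0 g - R0 g * wd (FreeMonoid.of (1, 0)),
      mem_br (letter_mem_V1 1 0) (V1_clo 0 _ g hg), 0, Submodule.zero_mem _, ?_⟩
    rw [map_sub, map_mul, map_mul, phi_one, phi_R0 hg, add_zero, ← neg_sub, Lm_D, neg_neg]

end steps

/-- the contraction of every tree with at least two leaves -/
theorem contr_node_all : ∀ a b : BT, Contr (X0 K (BT.node a b)) (contract (BT.node a b))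
  | BT.leaf, BT.leaf => contr_cherry
  | BT.leaf, BT.node b d => by
    rw [contract, X0]
    exact contr_leaf_left (contr_node_all b d)
  | BT.node a c, BT.leaf => by
    rw [contract, X0]
    exact contr_leaf_right (contr_node_all a c)
  | BT.node a c, BT.node b d => by
    rw [contract, X0]
    exact contr_node (contr_node_all a c) (contr_node_all b d)
termination_by a b => sizeOf a + sizeOf b
decreasing_by all_goals (simp_wf; try omega)

/-- the subspace of a plain tree determines the subspace of its contraction -/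
theorem contr_le [Infinite K] {a b c d : BT} (h : X0 K (BT.node a b) = X0 K (BT.node c d))
    (hk : (contract (BT.node a b)).lv = (contract (BT.node c d)).lv) :
    XX K (contract (BT.node a b)) ≤ XX K (contract (BT.node c d)) := by
  intro f hf
  obtain ⟨s, hs, u, hu, e⟩ := (contr_node_all a b).onto f hf
  rw [h] at hs
  obtain ⟨g, hg, v, hv, e'⟩ := (contr_node_all c d).into s hs
  have h1 : f + u = g + v := Lm_inj (e.symm.trans e')
  have h2 : f = g := by
    apply eq_of_coeff (XX_len _ hf) (hk ▸ XX_len _ hg)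
    intro w hw
    have h3 := congrArg (fun x : TT K => x.coeff w) h1
    simp only [coeff_add, Finsupp.add_apply] at h3
    rw [mem_hi.1 hu w (by omega), mem_hi.1 hv w (by omega), add_zero, add_zero] at h3
    exact h3
  rw [h2]; exact hg

lemma contr_lv_le [Infinite K] {a b c d : BT} (h : X0 K (BT.node a b) = X0 K (BT.node c d)) :
    (contract (BT.node c d)).lv ≤ (contract (BT.node a b)).lv := by
  by_contra hcon
  push Not at hcon
  obtain ⟨f, hf, hf0⟩ := Submodule.exists_mem_ne_zero_of_ne_bot (XX_ne_bot (K := K) (contract (BT.node a b)))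
  obtain ⟨s, hs, u, hu, e⟩ := (contr_node_all a b).onto f hf
  rw [h] at hs
  obtain ⟨g, hg, v, hv, e'⟩ := (contr_node_all c d).into s hs
  have h1 : f + u = g + v := Lm_inj (e.symm.trans e')
  apply hf0
  apply eq_of_coeff (XX_len _ hf) (Submodule.zero_mem _)
  intro w hw
  have h3 := congrArg (fun x : TT K => x.coeff w) h1
  simp only [coeff_add, Finsupp.add_apply] at h3
  rw [mem_hi.1 hu w (by omega), mem_hi.1 hv w (by omega), mem_len.1 (XX_len _ hg) w (by omega), add_zero,
    add_zero] at h3
  rw [h3]; rfl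

theorem contr_eq [Infinite K] {a b c d : BT} (h : X0 K (BT.node a b) = X0 K (BT.node c d)) :
    XX K (contract (BT.node a b)) = XX K (contract (BT.node c d)) := by
  have hk := le_antisymm (contr_lv_le h.symm) (contr_lv_le h)
  exact le_antisymm (contr_le h hk) (contr_le h.symm hk.symm)

end

end Pool.Agent.H25
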