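import Pool.Agent.H25.Words

/-! Derivations, variable maps, brackets of subspaces. -/

namespace Pool.Agent.H25

open MonoidAlgebra

section der
variable {K : Type*} [Field K]

/-- the value of a derivation on a word -/
noncomputable def derW (d : ℕ × ℕ → TT K) : List (ℕ × ℕ) → TT K
  | [] => 0
  | a :: w => d a * wd (FreeMonoid.ofList w) + wd (FreeMonoid.of a) * derW d w

lemma derW_append (d : ℕ × ℕ → TT K) (u v : List (ℕ × ℕ)) :
    derW d (u ++ v) = derW d u * wd (FreeMonoid.ofList v) + wd (FreeMonoid.ofList u) * derW d v := by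
  induction u with
  | nil => simp [derW]
  | cons a u ih =>
    rw [List.cons_append, derW, ih, derW, FreeMonoid.ofList_append, wd_mul, FreeMonoid.ofList_cons,
      wd_mul]
    noncomm_ring

/-- the derivation with given values on letters -/
noncomputable def der (d : ℕ × ℕ → TT K) : TT K →ₗ[K] TT K := lin (fun w => derW d w.toList)

lemma der_wd (d : ℕ × ℕ → TT K) (w : Wd) : der d (wd w) = derW d w.toList := by simp [der]

lemma der_mul (d : ℕ × ℕ → TT K) (x y : TT K) : der d (x * y) = der d x * y + x * der d y := by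
  refine T_ind (P := fun x => der d (x * y) = der d x * y + x * der d y) ?_ ?_ ?_ ?_ x
  · simp
  · intro x x' h h'
    rw [add_mul, map_add, h, h', map_add]; noncomm_ring
  · intro c x h
    rw [smul_mul_assoc, map_smul, h, map_smul, smul_add, smul_mul_assoc, smul_mul_assoc]
  · intro u
    refine T_ind (P := fun y => der d (wd u * y) = der d (wd u) * y + wd u * der d y) ?_ ?_ ?_ ?_ y
    · simp
    · intro x x' h h'
      rw [mul_add, map_add, h, h', map_add]; noncomm_ring
    · intro c x h
      rw [mul_smul_comm, map_smul, h, map_smul, smul_add, mul_smul_comm, mul_smul_comm]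
    · intro v
      rw [← wd_mul, der_wd, der_wd, der_wd, FreeMonoid.toList_mul, derW_append,
        FreeMonoid.ofList_toList, FreeMonoid.ofList_toList]

@[simp] lemma der_one (d : ℕ × ℕ → TT K) : der d 1 = 0 := by
  rw [← wd_one, der_wd]; rfl

@[simp] lemma der_of (d : ℕ × ℕ → TT K) (a : ℕ × ℕ) : der d (wd (FreeMonoid.of a)) = d a := by
  rw [der_wd]; simp [derW]

/-- words are generated by letters: induction -/
lemma word_ind {P : Wd → Prop} (h1 : P 1) (hm : ∀ a w, P w → P (FreeMonoid.of a * w)) (w : Wd) : P w := by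
  have : ∀ l : List (ℕ × ℕ), P (FreeMonoid.ofList l) := by
    intro l
    induction l with
    | nil => exact h1
    | cons a l ih => rw [FreeMonoid.ofList_cons]; exact hm a _ ih
  exact this w.toList

/-- an algebra map intertwining on letters intertwines everywhere -/
lemma map_der {B : Type*} [Ring B] [Algebra K B] (h : TT K →ₐ[K] B) (E : B →ₗ[K] B)
    (hE : ∀ x y, E (x * y) = E x * y + x * E y) (d : ℕ × ℕ → TT K)
    (hl : ∀ a, h (d a) = E (h (wd (FreeMonoid.of a)))) (x : TT K) : h (der d x) = E (h x) := by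
  have hE1 : E 1 = 0 := by
    have := hE 1 1
    simp only [mul_one, one_mul] at this
    simpa using this
  refine T_ind (P := fun x => h (der d x) = E (h x)) ?_ ?_ ?_ ?_ x
  · simp
  · intro x y hx hy; rw [map_add, map_add, hx, hy, map_add, map_add]
  · intro c x hx; rw [map_smul, map_smul, hx, map_smul, map_smul]
  · intro w
    refine word_ind (P := fun w => h (der d (wd w)) = E (h (wd w))) ?_ ?_ w
    · simp [hE1]
    · intro a w ih
      rw [wd_mul, der_mul, map_add, map_mul, map_mul, der_of, hl, ih, map_mul, hE]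

/-- the derivation raising exponents -/
noncomputable def D : TT K →ₗ[K] TT K := der (fun a => wd (FreeMonoid.of (a.1, a.2 + 1)))

lemma D_mul (x y : TT K) : D (x * y) = D x * y + x * D y := der_mul _ x y

lemma D_bi_word (w : Wd) : D (wd w : TT K) ∈ bi K w.length (wt w + 1) := by
  refine word_ind (P := fun w => D (wd w : TT K) ∈ bi K w.length (wt w + 1)) ?_ ?_ w
  · rw [wd_one, D, der_one]; exact Submodule.zero_mem _
  · intro a w ih
    rw [wd_mul, D_mul]
    refine Submodule.add_mem _ ?_ ?_
    · rw [D, der_of, ← wd_mul]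
      have := wd_mem_bi (K := K) (FreeMonoid.of (a.1, a.2 + 1) * w)
      simp only [FreeMonoid.length_mul, FreeMonoid.length_of, wt_mul, wt_of] at this ⊢
      have e : a.2 + wt w + 1 = a.2 + 1 + wt w := by ring
      rw [e]; exact this
    · rw [mem_bi] at ih ⊢
      intro u hu
      rw [coeff_mul_left (wd_mem_len _), FreeMonoid.length_of, coeff_wd]
      by_cases h : FreeMonoid.of a = tk 1 u
      · rw [ih, mul_zero]
        intro h2
        apply hu
        have h3 := tk_mul_dr 1 u
        rw [← h] at h3
        rw [← h3]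
        simp only [FreeMonoid.length_mul, FreeMonoid.length_of, wt_mul, wt_of, h2.1, h2.2]
        simp; ring
      · rw [if_neg h, zero_mul]

lemma bi_ind {k N : ℕ} {P : TT K → Prop} (h0 : P 0) (hadd : ∀ x y, P x → P y → P (x + y))
    (hs : ∀ (c : K) x, P x → P (c • x)) (hw : ∀ w : Wd, w.length = k → wt w = N → P (wd w))
    {x : TT K} (hx : x ∈ bi K k N) : P x := by
  rw [bi_eq_span] at hx
  induction hx using Submodule.span_induction with
  | mem x hx => obtain ⟨w, hw', rfl⟩ := hx; exact hw w hw'.1 hw'.2
  | zero => exact h0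
  | add x y _ _ hx hy => exact hadd x y hx hy
  | smul c x _ hx => exact hs c x hx

lemma hi_ind {k : ℕ} {P : TT K → Prop} (h0 : P 0) (hadd : ∀ x y, P x → P y → P (x + y))
    (hs : ∀ (c : K) x, P x → P (c • x)) (hw : ∀ w : Wd, k ≤ w.length → P (wd w))
    {x : TT K} (hx : x ∈ hi K k) : P x := by
  rw [hi_eq_span] at hx
  induction hx using Submodule.span_induction with
  | mem x hx => obtain ⟨w, hw', rfl⟩ := hx; exact hw w hw'
  | zero => exact h0
  | add x y _ _ hx hy => exact hadd x y hx hy
  | smul c x _ hx => exact hs c x hx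

lemma D_bi {k N : ℕ} {x : TT K} (hx : x ∈ bi K k N) : D x ∈ bi K k (N + 1) := by
  refine bi_ind (P := fun x => D x ∈ bi K k (N + 1)) ?_ ?_ ?_ ?_ hx
  · rw [map_zero]; exact Submodule.zero_mem _
  · intro x y h h'; rw [map_add]; exact Submodule.add_mem _ h h'
  · intro c x h; rw [map_smul]; exact Submodule.smul_mem _ _ h
  · rintro w rfl rfl; exact D_bi_word w

lemma D_len {k : ℕ} {x : TT K} (hx : x ∈ len K k) : D x ∈ len K k := by
  refine len_ind (P := fun x => D x ∈ len K k) ?_ ?_ ?_ ?_ hx
  · rw [map_zero]; exact Submodule.zero_mem _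
  · intro x y h h'; rw [map_add]; exact Submodule.add_mem _ h h'
  · intro c x h; rw [map_smul]; exact Submodule.smul_mem _ _ h
  · rintro w rfl; exact bi_le_len _ _ (D_bi_word w)

lemma D_hi {k : ℕ} {x : TT K} (hx : x ∈ hi K k) : D x ∈ hi K k := by
  refine hi_ind (P := fun x => D x ∈ hi K k) ?_ ?_ ?_ ?_ hx
  · rw [map_zero]; exact Submodule.zero_mem _
  · intro x y h h'; rw [map_add]; exact Submodule.add_mem _ h h'
  · intro c x h; rw [map_smul]; exact Submodule.smul_mem _ _ h
  · rintro w hw; exact hi_mono hw (len_le_hi _ (bi_le_len _ _ (D_bi_word w)))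

lemma Dpow_bi {k N : ℕ} (r : ℕ) {x : TT K} (hx : x ∈ bi K k N) : (D ^ r) x ∈ bi K k (N + r) := by
  induction r with
  | zero => simpa using hx
  | succ r ih => rw [pow_succ', Module.End.mul_apply]; exact D_bi ih

lemma bi_mul {k N l M : ℕ} {x y : TT K} (hx : x ∈ bi K k N) (hy : y ∈ bi K l M) :
    x * y ∈ bi K (k + l) (N + M) := by
  refine bi_ind (P := fun x => x * y ∈ bi K (k + l) (N + M)) ?_ ?_ ?_ ?_ hx
  · rw [zero_mul]; exact Submodule.zero_mem _
  · intro x x' h h'; rw [add_mul]; exact Submodule.add_mem _ h h'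
  · intro c x h; rw [smul_mul_assoc]; exact Submodule.smul_mem _ _ h
  · rintro u rfl rfl
    refine bi_ind (P := fun y => wd u * y ∈ bi K (u.length + l) (wt u + M)) ?_ ?_ ?_ ?_ hy
    · rw [mul_zero]; exact Submodule.zero_mem _
    · intro x x' h h'; rw [mul_add]; exact Submodule.add_mem _ h h'
    · intro c x h; rw [mul_smul_comm]; exact Submodule.smul_mem _ _ h
    · rintro v rfl rfl
      rw [← wd_mul, ← FreeMonoid.length_mul, ← wt_mul]
      exact wd_mem_bi _

lemma hi_mul {k l : ℕ} {x y : TT K} (hx : x ∈ hi K k) (hy : y ∈ hi K l) : x * y ∈ hi K (k + l) := by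
  refine hi_ind (P := fun x => x * y ∈ hi K (k + l)) ?_ ?_ ?_ ?_ hx
  · rw [zero_mul]; exact Submodule.zero_mem _
  · intro x x' h h'; rw [add_mul]; exact Submodule.add_mem _ h h'
  · intro c x h; rw [smul_mul_assoc]; exact Submodule.smul_mem _ _ h
  · intro u hu
    refine hi_ind (P := fun y => wd u * y ∈ hi K (k + l)) ?_ ?_ ?_ ?_ hy
    · rw [mul_zero]; exact Submodule.zero_mem _
    · intro x x' h h'; rw [mul_add]; exact Submodule.add_mem _ h h'
    · intro c x h; rw [mul_smul_comm]; exact Submodule.smul_mem _ _ h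
    · intro v hv
      rw [← wd_mul]
      refine hi_mono ?_ (len_le_hi _ (wd_mem_len _))
      rw [FreeMonoid.length_mul]; omega

end der

section br
variable {K : Type*} [Field K] {A : Type*} [Ring A] [Algebra K A]

/-- span of the commutators -/
def br (P Q : Submodule K A) : Submodule K A :=
  Submodule.map₂ (LinearMap.mul K A - (LinearMap.mul K A).flip) P Q

lemma mem_br {P Q : Submodule K A} {x y : A} (hx : x ∈ P) (hy : y ∈ Q) : x * y - y * x ∈ br P Q :=
  Submodule.apply_mem_map₂ (LinearMap.mul K A - (LinearMap.mul K A).flip) hx hy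

lemma br_le {P Q R : Submodule K A} : br P Q ≤ R ↔ ∀ x ∈ P, ∀ y ∈ Q, x * y - y * x ∈ R := by
  unfold br
  rw [Submodule.map₂_le]
  rfl

lemma br_comm (P Q : Submodule K A) : br P Q = br Q P := by
  apply le_antisymm <;> rw [br_le] <;> intro x hx y hy <;>
  · rw [← neg_sub]
    exact Submodule.neg_mem _ (mem_br hy hx)

lemma br_mono {P Q P' Q' : Submodule K A} (h : P ≤ P') (h' : Q ≤ Q') : br P Q ≤ br P' Q' := by
  rw [br_le]
  intro x hx y hy
  exact mem_br (h hx) (h' hy)

lemma br_ind {P Q : Submodule K A} {C : A → Prop} (h0 : C 0) (hadd : ∀ x y, C x → C y → C (x + y))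
    (hm : ∀ x ∈ P, ∀ y ∈ Q, C (x * y - y * x)) {f : A} (hf : f ∈ br P Q) : C f := by
  have hf' : f ∈ AddSubmonoid.closure {z | ∃ x ∈ P, ∃ y ∈ Q, z = x * y - y * x} := by
    have : br P Q ≤ ({ AddSubmonoid.closure {z | ∃ x ∈ P, ∃ y ∈ Q, z = x * y - y * x} with
        smul_mem' := by
          intro c z hz
          change z ∈ AddSubmonoid.closure _ at hz
          change c • z ∈ AddSubmonoid.closure _
          induction hz using AddSubmonoid.closure_induction with
          | mem z hz =>
            obtain ⟨x, hx, y, hy, rfl⟩ := hz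
            apply AddSubmonoid.subset_closure
            exact ⟨c • x, Submodule.smul_mem _ _ hx, y, hy, by
              rw [smul_mul_assoc, mul_smul_comm, smul_sub]⟩
          | zero => rw [smul_zero]; exact AddSubmonoid.zero_mem _
          | add x y _ _ hx hy => rw [smul_add]; exact AddSubmonoid.add_mem _ hx hy } :
            Submodule K A) := by
      rw [br_le]
      intro x hx y hy
      exact AddSubmonoid.subset_closure ⟨x, hx, y, hy, rfl⟩
    exact this hf
  clear hf
  induction hf' using AddSubmonoid.closure_induction with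
  | mem z hz => obtain ⟨x, hx, y, hy, rfl⟩ := hz; exact hm x hx y hy
  | zero => exact h0
  | add x y _ _ hx hy => exact hadd x y hx hy

end br

section vars
variable {K : Type*} [Field K]

/-- a substitution of variables (possibly killing some), keeping exponents -/
noncomputable def hv (g : ℕ → Option ℕ) : TT K →ₐ[K] TT K :=
  MonoidAlgebra.lift K (TT K) Wd (FreeMonoid.lift (fun a : ℕ × ℕ =>
    match g a.1 with
    | some i => (wd (FreeMonoid.of (i, a.2)) : TT K)
    | none => 0))

lemma hv_of (g : ℕ → Option ℕ) (a : ℕ × ℕ) : hv g (wd (FreeMonoid.of a) : TT K) =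
    match g a.1 with
    | some i => (wd (FreeMonoid.of (i, a.2)) : TT K)
    | none => 0 := by
  rw [hv, wd, MonoidAlgebra.lift_single, one_smul, FreeMonoid.lift_eval_of]

lemma hv_D (g : ℕ → Option ℕ) (x : TT K) : hv g (D x) = D (hv g x) := by
  refine map_der (hv g) D D_mul _ ?_ x
  intro a
  rw [hv_of, hv_of]
  cases h : g a.1 with
  | none => simp
  | some i => simp [D]

lemma hv_Dpow (g : ℕ → Option ℕ) (r : ℕ) (x : TT K) : hv g ((D ^ r) x) = (D ^ r) (hv g x) := by
  induction r with
  | zero => simp
  | succ r ih => rw [pow_succ', Module.End.mul_apply, Module.End.mul_apply, hv_D, ih]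

lemma hv_bi_word (g : ℕ → Option ℕ) (w : Wd) : hv g (wd w : TT K) ∈ bi K w.length (wt w) := by
  refine word_ind (P := fun w => hv g (wd w : TT K) ∈ bi K w.length (wt w)) ?_ ?_ w
  · rw [wd_one, map_one]; exact wd_mem_bi 1
  · intro a w ih
    rw [wd_mul, map_mul, FreeMonoid.length_mul, wt_mul]
    refine bi_mul ?_ ih
    rw [hv_of, FreeMonoid.length_of, wt_of]
    cases h : g a.1 with
    | none => exact Submodule.zero_mem _
    | some i =>
      have := wd_mem_bi (K := K) (FreeMonoid.of (i, a.2))
      simpa using this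

lemma hv_bi (g : ℕ → Option ℕ) {k N : ℕ} {x : TT K} (hx : x ∈ bi K k N) : hv g x ∈ bi K k N := by
  refine bi_ind (P := fun x => hv g x ∈ bi K k N) ?_ ?_ ?_ ?_ hx
  · rw [map_zero]; exact Submodule.zero_mem _
  · intro x y h h'; rw [map_add]; exact Submodule.add_mem _ h h'
  · intro c x h; rw [map_smul]; exact Submodule.smul_mem _ _ h
  · rintro w rfl rfl; exact hv_bi_word g w

lemma hv_len (g : ℕ → Option ℕ) {k : ℕ} {x : TT K} (hx : x ∈ len K k) : hv g x ∈ len K k := by
  refine len_ind (P := fun x => hv g x ∈ len K k) ?_ ?_ ?_ ?_ hx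
  · rw [map_zero]; exact Submodule.zero_mem _
  · intro x y h h'; rw [map_add]; exact Submodule.add_mem _ h h'
  · intro c x h; rw [map_smul]; exact Submodule.smul_mem _ _ h
  · rintro w rfl; exact bi_le_len _ _ (hv_bi_word g w)

/-- even variables -/
noncomputable def R0 : TT K →ₐ[K] TT K := hv (fun i => some (2 * i))
/-- odd variables -/
noncomputable def R1 : TT K →ₐ[K] TT K := hv (fun i => some (2 * i + 1))
/-- read off even variables -/
noncomputable def P0 : TT K →ₐ[K] TT K := hv (fun i => if i % 2 = 0 then some (i / 2) else none)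
/-- read off odd variables -/
noncomputable def P1 : TT K →ₐ[K] TT K := hv (fun i => if i % 2 = 1 then some (i / 2) else none)

/-- odd copy of a word -/
def m1 : Wd →* Wd := FreeMonoid.map (fun a : ℕ × ℕ => (2 * a.1 + 1, a.2))

lemma algHom_ext' {B : Type*} [Ring B] [Algebra K B] {f g : TT K →ₐ[K] B}
    (h : ∀ a, f (wd (FreeMonoid.of a)) = g (wd (FreeMonoid.of a))) (x : TT K) : f x = g x := by
  refine T_ind (P := fun x => f x = g x) ?_ ?_ ?_ ?_ x
  · simp
  · intro x y h h'; rw [map_add, map_add, h, h']
  · intro c x h; rw [map_smul, map_smul, h]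
  · intro w
    refine word_ind (P := fun w => f (wd w) = g (wd w)) ?_ ?_ w
    · simp
    · intro a w ih; rw [wd_mul, map_mul, map_mul, h, ih]

lemma P0_R0 (x : TT K) : P0 (R0 x) = x := by
  refine algHom_ext' (f := P0.comp R0) (g := AlgHom.id K (TT K)) ?_ x
  intro a
  simp only [AlgHom.comp_apply, AlgHom.id_apply, P0, R0, hv_of]
  simp

lemma P1_R1 (x : TT K) : P1 (R1 x) = x := by
  refine algHom_ext' (f := P1.comp R1) (g := AlgHom.id K (TT K)) ?_ x
  intro a
  simp only [AlgHom.comp_apply, AlgHom.id_apply, P1, R1, hv_of]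
  have h1 : (2 * a.1 + 1) % 2 = 1 := by omega
  have h2 : (2 * a.1 + 1) / 2 = a.1 := by omega
  simp [h1, h2]

lemma P0_R1 {k : ℕ} (hk : 1 ≤ k) {x : TT K} (hx : x ∈ len K k) : P0 (R1 x) = 0 := by
  refine len_ind (P := fun x => P0 (R1 x) = 0) ?_ ?_ ?_ ?_ hx
  · simp
  · intro x y h h'; rw [map_add, map_add, h, h', add_zero]
  · intro c x h; rw [map_smul, map_smul, h, smul_zero]
  · intro w hw
    rcases hl : w.toList with _ | ⟨a, l⟩
    · have : w.length = 0 := by rw [length_def, hl]; rfl
      omega
    · have e : w = FreeMonoid.of a * FreeMonoid.ofList l := by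
        rw [← FreeMonoid.ofList_cons, ← hl, FreeMonoid.ofList_toList]
      rw [e, wd_mul, map_mul, map_mul]
      have : P0 (R1 (wd (FreeMonoid.of a) : TT K)) = 0 := by
        simp only [P0, R1, hv_of]
        have h1 : (2 * a.1 + 1) % 2 = 1 := by omega
        simp [h1]
      rw [this, zero_mul]

lemma m1_inj : Function.Injective (m1 : Wd → Wd) := by
  intro u v h
  have h2 : (m1 u).toList = (m1 v).toList := by rw [h]
  rw [m1, FreeMonoid.toList_map, FreeMonoid.toList_map] at h2
  apply FreeMonoid.toList.injective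
  refine List.map_injective_iff.2 ?_ h2
  rintro ⟨a, b⟩ ⟨c, d⟩ h
  simp only [Prod.mk.injEq] at h
  ext
  · simp; omega
  · simp [h.2]

@[simp] lemma length_m1 (v : Wd) : (m1 v).length = v.length := by
  rw [m1, length_def, FreeMonoid.toList_map, List.length_map]; rfl

lemma coeff_P1_word (w : Wd) : ∀ v : Wd, (P1 (wd w : TT K)).coeff v = (wd w : TT K).coeff (m1 v) := by
  classical
  refine word_ind (P := fun w => ∀ v : Wd, (P1 (wd w : TT K)).coeff v = (wd w : TT K).coeff (m1 v))
    ?_ ?_ w
  · intro v
    rw [wd_one, map_one, ← wd_one, coeff_wd, coeff_wd]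
    by_cases h : v = 1
    · subst h; simp
    · rw [if_neg (Ne.symm h), if_neg]
      intro h2
      apply h
      apply m1_inj
      rw [← h2, map_one]
  · intro a w ih v
    have hm : m1 v = m1 (tk 1 v) * m1 (dr 1 v) := by rw [← map_mul, tk_mul_dr]
    rw [wd_mul, map_mul]
    have hlen : (P1 (wd (FreeMonoid.of a) : TT K)) ∈ len K 1 := by
      exact hv_len (K := K) (fun i => if i % 2 = 1 then some (i / 2) else none)
        (wd_mem_len (FreeMonoid.of a))
    rw [coeff_mul_left hlen, ih (dr 1 v)]
    by_cases hv : 1 ≤ v.length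
    · have ht : (m1 (tk 1 v)).length = 1 := by rw [length_m1, length_tk hv]
      have hx1 : (wd (FreeMonoid.of a) : TT K) ∈ len K 1 := by simpa using wd_mem_len (FreeMonoid.of a)
      rw [hm, coeff_mul_left hx1, tk_mul ht, dr_mul ht]
      congr 1
      -- single letters
      obtain ⟨b, hb⟩ := FreeMonoid.length_eq_one.1 (length_tk hv)
      rw [hb]
      have e1 : m1 (FreeMonoid.of b) = FreeMonoid.of (2 * b.1 + 1, b.2) := by
        simp [m1]
      rw [e1, P1, hv_of, coeff_wd]
      by_cases ha : a.1 % 2 = 1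
      · simp only [ha, if_true]
        rw [coeff_wd]
        congr 1
        rw [eq_iff_iff]
        constructor
        · intro h
          have := FreeMonoid.of_injective h
          rw [← this]
          congr 1
          ext
          · simp; omega
          · rfl
        · intro h
          have := FreeMonoid.of_injective h
          rw [this]
          congr 1
          ext
          · simp; omega
          · rfl
      · simp only [ha, if_false]
        rw [if_neg]
        · rfl
        · intro h
          have := FreeMonoid.of_injective h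
          rw [this] at ha
          simp at ha
    · have hv1 : v = 1 := by
        rw [← FreeMonoid.length_eq_zero]; omega
      subst hv1
      have h1 : (P1 (wd (FreeMonoid.of a) : TT K)).coeff (tk 1 1) = 0 := by
        apply mem_len.1 hlen
        simp [tk]
      rw [h1, zero_mul, map_one, ← wd_mul, coeff_wd, if_neg]
      intro h
      apply_fun FreeMonoid.length at h
      simp at h

lemma coeff_P1 (x : TT K) (v : Wd) : (P1 x).coeff v = x.coeff (m1 v) := by
  refine T_ind (P := fun x => (P1 x).coeff v = x.coeff (m1 v)) ?_ ?_ ?_ ?_ x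
  · simp
  · intro x y h h'; rw [map_add, coeff_add, coeff_add, Finsupp.add_apply, Finsupp.add_apply, h, h']
  · intro c x h; rw [map_smul, coeff_smul, coeff_smul, Finsupp.smul_apply, Finsupp.smul_apply, h]
  · intro w; exact coeff_P1_word w v

lemma coeff_R1 (x : TT K) (v : Wd) : (R1 x).coeff (m1 v) = x.coeff v := by
  rw [← coeff_P1, P1_R1]

/-- the operator reading a word `v` in odd variables at the right end -/
noncomputable def sg (v : Wd) : TT K →ₗ[K] TT K := P0.toLinearMap ∘ₗ sR (m1 v)

lemma sg_apply (v : Wd) (x : TT K) : sg v x = P0 (sR (m1 v) x) := rfl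

lemma sg_comm {k l : ℕ} (hlk : l ≤ k) {x y : TT K} (hx : x ∈ len K k) (hy : y ∈ len K l) {v : Wd}
    (hv : v.length = l) :
    sg v (x * y - y * x) = (P1 y).coeff v • P0 x - P0 y * sg v x := by
  rw [sg_apply, map_sub, sR_mul_eq x hy (by rw [length_m1, hv]),
    sR_mul y hx (by rw [length_m1, hv]; exact hlk), map_sub, map_smul, map_mul, coeff_P1, sg_apply]

lemma sg_R {k l : ℕ} (hl : 1 ≤ l) (hlk : l ≤ k) {x y : TT K} (hx : x ∈ len K k) (hy : y ∈ len K l)
    {v : Wd} (hv : v.length = l) :
    sg v (R0 x * R1 y - R1 y * R0 x) = y.coeff v • x := by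
  have hx' : R0 x ∈ len K k := hv_len _ hx
  have hy' : R1 y ∈ len K l := hv_len _ hy
  rw [sg_comm hlk hx' hy' hv, P1_R1, P0_R0, P0_R1 hl hy, zero_mul, sub_zero]

end vars

end Pool.Agent.H25
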