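import Pool.Agent.H25.LB

/-! Evaluation of exponents at weights attached to positions. -/

namespace Pool.Agent.H25

open MonoidAlgebra

variable {K : Type*} [Field K]

/-- scalar part of the evaluation of a word -/
def evS (z : ℕ → K) : List (ℕ × ℕ) → K
  | [] => 1
  | a :: w => z 0 ^ a.2 * evS (fun n => z (n + 1)) w

lemma evS_append (z : ℕ → K) (u v : List (ℕ × ℕ)) :
    evS z (u ++ v) = evS z u * evS (fun n => z (n + u.length)) v := by
  induction u generalizing z with
  | nil => simp [evS]
  | cons a u ih =>
    rw [List.cons_append, evS, ih, evS, List.length_cons, mul_assoc]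
    congr 3

lemma evS_congr {z z' : ℕ → K} (u : List (ℕ × ℕ)) (h : ∀ n < u.length, z n = z' n) :
    evS z u = evS z' u := by
  induction u generalizing z z' with
  | nil => rfl
  | cons a u ih =>
    rw [evS, evS, h 0 (by simp)]
    congr 1
    apply ih
    intro n hn
    apply h
    simpa using hn

lemma evS_scale (z : ℕ → K) (c : K) (u : List (ℕ × ℕ)) :
    evS (fun n => c * z n) u = c ^ (u.map Prod.snd).sum * evS z u := by
  induction u generalizing z with
  | nil => simp [evS]
  | cons a u ih =>
    rw [evS, ih, evS, List.map_cons, List.sum_cons, mul_pow, pow_add]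
    ring

/-- forget exponents -/
def z0 : Wd →* Wd := FreeMonoid.map (fun a : ℕ × ℕ => (a.1, 0))

@[simp] lemma length_z0 (v : Wd) : (z0 v).length = v.length := by
  rw [z0, length_def, FreeMonoid.toList_map, List.length_map]; rfl

/-- evaluation at position weights -/
noncomputable def Ev (z : ℕ → K) : TT K →ₗ[K] TT K := lin (fun w => evS z w.toList • wd (z0 w))

lemma Ev_wd (z : ℕ → K) (w : Wd) : Ev z (wd w) = evS z w.toList • wd (z0 w) := by
  rw [Ev, lin_wd]

@[simp] lemma Ev_one (z : ℕ → K) : Ev z 1 = 1 := by
  rw [← wd_one, Ev_wd]; simp [evS]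

lemma Ev_len {k : ℕ} {x : TT K} (z : ℕ → K) (hx : x ∈ len K k) : Ev z x ∈ len K k := by
  refine len_ind (P := fun x => Ev z x ∈ len K k) ?_ ?_ ?_ ?_ hx
  · rw [map_zero]; exact Submodule.zero_mem _
  · intro x y h h'; rw [map_add]; exact Submodule.add_mem _ h h'
  · intro c x h; rw [map_smul]; exact Submodule.smul_mem _ _ h
  · intro w hw
    rw [Ev_wd]
    have := wd_mem_len (K := K) (z0 w)
    rw [length_z0, hw] at this
    exact Submodule.smul_mem _ _ this

lemma Ev_mul {k : ℕ} {x : TT K} (z : ℕ → K) (hx : x ∈ len K k) (y : TT K) :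
    Ev z (x * y) = Ev z x * Ev (fun n => z (n + k)) y := by
  refine len_ind (P := fun x => Ev z (x * y) = Ev z x * Ev (fun n => z (n + k)) y) ?_ ?_ ?_ ?_ hx
  · simp
  · intro x x' h h'; rw [add_mul, map_add, h, h', map_add, add_mul]
  · intro c x h; rw [smul_mul_assoc, map_smul, h, map_smul, smul_mul_assoc]
  · intro u hu
    refine T_ind (P := fun y => Ev z (wd u * y) = Ev z (wd u) * Ev (fun n => z (n + k)) y)
      ?_ ?_ ?_ ?_ y
    · simp
    · intro x x' h h'; rw [mul_add, map_add, h, h', map_add, mul_add]
    · intro c x h; rw [mul_smul_comm, map_smul, h, map_smul, mul_smul_comm]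
    · intro v
      rw [← wd_mul, Ev_wd, Ev_wd, Ev_wd, FreeMonoid.toList_mul, evS_append, map_mul, wd_mul,
        smul_mul_smul_comm]
      rw [length_def] at hu
      rw [hu]

lemma Ev_congr {k : ℕ} {x : TT K} {z z' : ℕ → K} (hx : x ∈ len K k) (h : ∀ n < k, z n = z' n) :
    Ev z x = Ev z' x := by
  refine len_ind (P := fun x => Ev z x = Ev z' x) ?_ ?_ ?_ ?_ hx
  · simp
  · intro x x' h h'; rw [map_add, h, h', map_add]
  · intro c x h; rw [map_smul, h, map_smul]
  · intro u hu
    rw [Ev_wd, Ev_wd, evS_congr]
    intro n hn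
    rw [← length_def, hu] at hn
    exact h n hn

lemma Ev_scale {k N : ℕ} {x : TT K} (z : ℕ → K) (c : K) (hx : x ∈ bi K k N) :
    Ev (fun n => c * z n) x = c ^ N • Ev z x := by
  refine bi_ind (P := fun x => Ev (fun n => c * z n) x = c ^ N • Ev z x) ?_ ?_ ?_ ?_ hx
  · simp
  · intro x x' h h'; rw [map_add, h, h', map_add, smul_add]
  · intro d x h; rw [map_smul, h, map_smul, smul_comm]
  · intro u _ hN
    rw [Ev_wd, Ev_wd, evS_scale, smul_smul]
    congr 3

lemma Ev_D {k : ℕ} {x : TT K} (z : ℕ → K) (hx : x ∈ len K k) :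
    Ev z (D x) = (∑ p ∈ Finset.range k, z p) • Ev z x := by
  refine len_ind (P := fun x => Ev z (D x) = (∑ p ∈ Finset.range k, z p) • Ev z x) ?_ ?_ ?_ ?_ hx
  · simp
  · intro x x' h h'; rw [map_add, map_add, h, h', map_add, smul_add]
  · intro d x h; rw [map_smul, map_smul, h, map_smul, smul_comm]
  · rintro u rfl
    revert z
    refine word_ind (P := fun u => ∀ z : ℕ → K, Ev z (D (wd u)) =
      (∑ p ∈ Finset.range (FreeMonoid.length u), z p) • Ev z (wd u)) ?_ ?_ u
    · intro z
      rw [wd_one, D, der_one]; simp
    · intro a w ih z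
      have h1 : ∀ b : ℕ × ℕ, (wd (FreeMonoid.of b) : TT K) ∈ len K 1 := fun b => by
        simpa using wd_mem_len (K := K) (FreeMonoid.of b)
      rw [wd_mul, D_mul, map_add, D, der_of, ← D, Ev_mul z (h1 _), Ev_mul z (h1 _), Ev_mul z (h1 _), ih,
        FreeMonoid.length_mul, FreeMonoid.length_of, add_comm 1, Finset.sum_range_succ', add_smul,
        mul_smul_comm, add_comm]
      congr 1
      rw [← smul_mul_assoc]
      congr 1
      rw [Ev_wd, Ev_wd, smul_smul]
      congr 1
      · simp [evS, pow_succ, mul_comm]

lemma Ev_hv (g : ℕ → Option ℕ) (x : TT K) : ∀ z : ℕ → K, Ev z (hv g x) = hv g (Ev z x) := by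
  refine T_ind (P := fun x => ∀ z : ℕ → K, Ev z (hv g x) = hv g (Ev z x)) ?_ ?_ ?_ ?_ x
  · simp
  · intro x x' h h' z; rw [map_add, map_add, h, h', map_add, map_add]
  · intro d x h z; rw [map_smul, map_smul, h, map_smul, map_smul]
  · intro u
    refine word_ind (P := fun u => ∀ z : ℕ → K, Ev z (hv g (wd u)) = hv g (Ev z (wd u))) ?_ ?_ u
    · intro z; simp
    · intro a w ih z
      have h1 : (wd (FreeMonoid.of a) : TT K) ∈ len K 1 := by
        simpa using wd_mem_len (K := K) (FreeMonoid.of a)
      rw [wd_mul, map_mul, Ev_mul z (hv_len g h1), Ev_mul z h1, map_mul, ih]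
      congr 1
      rw [Ev_wd, hv_of, map_smul]
      have e : z0 (FreeMonoid.of a) = FreeMonoid.of (a.1, 0) := by simp [z0]
      rw [e, hv_of]
      cases g a.1 with
      | none => simp
      | some i =>
        simp only
        rw [Ev_wd]
        have e' : z0 (FreeMonoid.of (i, a.2)) = FreeMonoid.of (i, 0) := by simp [z0]
        rw [e']
        simp [evS]

/-- sums of weights over intervals -/
def isum (z : ℕ → K) (i j : ℕ) : K := ∑ p ∈ Finset.Ico i j, z p

/-- existence of a good evaluation point -/
theorem exists_Ev [Infinite K] {k : ℕ} {x : TT K} (hx : x ∈ len K k) (hx0 : x ≠ 0) :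
    ∃ z : ℕ → K, Ev z x ≠ 0 ∧ ∀ i j, i < j → j ≤ k → isum z i j ≠ 0 := by
  classical
  induction k generalizing x with
  | zero =>
    refine ⟨fun _ => 0, ?_, fun i j h h' => by omega⟩
    rw [eq_smul_one hx, map_smul, Ev_one]
    rw [eq_smul_one hx] at hx0
    exact hx0
  | succ k ih =>
    obtain ⟨w0, hw0⟩ := exists_coeff_ne hx0
    have hl := length_of_coeff_ne hx hw0
    obtain ⟨a0, ha0⟩ := FreeMonoid.length_eq_one.1 (length_tk (a := 1) (w := w0) (by omega))
    have hw0' : w0 = FreeMonoid.of a0 * dr 1 w0 := by rw [← ha0, tk_mul_dr]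
    have hx' : sL (FreeMonoid.of a0) x ∈ len K k := by
      have := sL_len (u := FreeMonoid.of a0) hx
      simpa using this
    have hx0' : sL (FreeMonoid.of a0) x ≠ 0 := by
      intro h
      apply hw0
      rw [hw0', ← coeff_sL, h]; rfl
    obtain ⟨z', hz', hs'⟩ := ih hx' hx0'
    obtain ⟨b, hb⟩ := exists_coeff_ne hz'
    let f : Wd → Polynomial K := fun w =>
      match w.toList with
      | [] => 0
      | c :: l => if c.1 = a0.1 then
          Polynomial.C ((Ev z' (wd (FreeMonoid.ofList l))).coeff b) * Polynomial.X ^ c.2 else 0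
    let P : TT K →ₗ[K] Polynomial K := lin f
    let cz : K → ℕ → K := fun s n => Nat.casesOn n s z'
    have h1 : ∀ c : ℕ × ℕ, (wd (FreeMonoid.of c) : TT K) ∈ len K 1 := fun c => by
      simpa using wd_mem_len (K := K) (FreeMonoid.of c)
    have fcons : ∀ c w, f (FreeMonoid.of c * w) = if c.1 = a0.1 then
          Polynomial.C ((Ev z' (wd w)).coeff b) * Polynomial.X ^ c.2 else 0 := by
      intro c w; rfl
    have hA : ∀ (s : K) (y : TT K), (P y).eval s = (Ev (cz s) y).coeff (FreeMonoid.of (a0.1, 0) * b) := by
      intro s y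
      refine T_ind (P := fun y => (P y).eval s = (Ev (cz s) y).coeff (FreeMonoid.of (a0.1, 0) * b))
        ?_ ?_ ?_ ?_ y
      · simp
      · intro x y h h'; rw [map_add, Polynomial.eval_add, h, h', map_add, coeff_add, Finsupp.add_apply]
      · intro c x h
        rw [map_smul, Polynomial.eval_smul, h, map_smul, coeff_smul, Finsupp.smul_apply]
      · intro w
        refine word_ind (P := fun w => (P (wd w)).eval s =
          (Ev (cz s) (wd w)).coeff (FreeMonoid.of (a0.1, 0) * b)) ?_ ?_ w
        · have : P (wd 1) = 0 := by rw [lin_wd]; rfl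
          rw [this, wd_one, Ev_one, Polynomial.eval_zero, ← wd_one, coeff_wd, if_neg]
          intro h
          apply_fun FreeMonoid.length at h
          simp at h
          omega
        · intro c w _
          have hP : P (wd (FreeMonoid.of c * w)) = f (FreeMonoid.of c * w) := lin_wd _ _
          rw [hP, fcons, wd_mul, Ev_mul _ (h1 c), coeff_mul_left (Ev_len _ (h1 c)), tk_mul (by simp),
            dr_mul (by simp), Ev_wd (cz s) (FreeMonoid.of c)]
          have e : z0 (FreeMonoid.of c) = FreeMonoid.of (c.1, 0) := by simp [z0]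
          have e2 : (fun n => cz s (n + 1)) = z' := rfl
          rw [e, e2, coeff_smul, Finsupp.smul_apply, coeff_wd]
          by_cases h : c.1 = a0.1
          · have e0 : cz s 0 = s := rfl
            rw [if_pos h, if_pos (by rw [h])]
            simp only [Polynomial.eval_mul, Polynomial.eval_C, Polynomial.eval_pow,
              Polynomial.eval_X, FreeMonoid.toList_of, evS, smul_eq_mul, mul_one, e0]
            rw [mul_comm]
          · rw [if_neg h, if_neg]
            · simp
            · intro h2
              have := FreeMonoid.of_injective h2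
              exact h (Prod.ext_iff.1 this).1
    have hB : ∀ y : TT K, (P y).coeff a0.2 = (Ev z' (sL (FreeMonoid.of a0) y)).coeff b := by
      intro y
      refine T_ind (P := fun y => (P y).coeff a0.2 = (Ev z' (sL (FreeMonoid.of a0) y)).coeff b)
        ?_ ?_ ?_ ?_ y
      · simp
      · intro x y h h'
        rw [map_add, Polynomial.coeff_add, h, h', map_add, map_add, coeff_add, Finsupp.add_apply]
      · intro c x h
        rw [map_smul, Polynomial.coeff_smul, h, map_smul, map_smul, coeff_smul, Finsupp.smul_apply]
      · intro w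
        refine word_ind (P := fun w => (P (wd w)).coeff a0.2 =
          (Ev z' (sL (FreeMonoid.of a0) (wd w))).coeff b) ?_ ?_ w
        · have h2 : P (wd 1) = 0 := by rw [lin_wd]; rfl
          have h3 : sL (FreeMonoid.of a0) (wd 1 : TT K) = 0 := by
            ext v
            rw [coeff_sL, coeff_wd, if_neg]
            · rfl
            · intro h
              apply_fun FreeMonoid.length at h
              simp at h
              omega
          rw [h2, h3]; simp
        · intro c w _
          have hP : P (wd (FreeMonoid.of c * w)) = f (FreeMonoid.of c * w) := lin_wd _ _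
          rw [hP, fcons, wd_mul, sL_mul (h1 c) _ (by simp), map_smul, coeff_smul, Finsupp.smul_apply,
            coeff_wd]
          by_cases h : c = a0
          · subst h
            rw [if_pos rfl, if_pos rfl, Polynomial.coeff_C_mul_X_pow, if_pos rfl]; simp
          · rw [if_neg (c := FreeMonoid.of c = FreeMonoid.of a0)
              (fun h2 => h (FreeMonoid.of_injective h2)), zero_smul]
            split_ifs with h3
            · rw [Polynomial.coeff_C_mul_X_pow, if_neg]
              intro h4
              exact h (Prod.ext h3 h4.symm)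
            · simp
    have hP0 : P x ≠ 0 := by
      intro h
      apply hb
      rw [← hB, h]; simp
    obtain ⟨s, hs⟩ := Infinite.exists_notMem_finset
      ((P x).roots.toFinset ∪ (Finset.range (k + 1)).image (fun j => -(∑ p ∈ Finset.range j, z' p)))
    rw [Finset.mem_union, not_or] at hs
    refine ⟨cz s, ?_, ?_⟩
    · intro h
      apply hs.1
      rw [Multiset.mem_toFinset, Polynomial.mem_roots hP0, Polynomial.IsRoot, hA, h]; rfl
    · intro i j hij hj
      rcases i with _ | i
      · obtain ⟨j, rfl⟩ : ∃ j', j = j' + 1 := ⟨j - 1, by omega⟩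
        intro h
        apply hs.2
        rw [Finset.mem_image]
        refine ⟨j, by simp; omega, ?_⟩
        rw [isum, ← Finset.range_eq_Ico, Finset.sum_range_succ'] at h
        have e : ∑ p ∈ Finset.range j, cz s (p + 1) = ∑ p ∈ Finset.range j, z' p := rfl
        rw [e] at h
        have e0 : cz s 0 = s := rfl
        rw [e0] at h
        rw [neg_eq_iff_add_eq_zero]
        exact h
      · obtain ⟨j, rfl⟩ : ∃ j', j = j' + 1 := ⟨j - 1, by omega⟩
        have := hs' i j (by omega) (by omega)
        intro h
        apply this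
        rw [isum] at h ⊢
        rw [← h, ← Finset.sum_Ico_add' (fun p => cz s p) i j 1]

end Pool.Agent.H25
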