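import Pool.Agent.H25.Der

/-! Recovering the factors of a bracket of two subspaces. -/

namespace Pool.Agent.H25

open MonoidAlgebra

variable {K : Type*} [Field K]

/-- closed under substitutions of variables -/
def Clo (X : Submodule K (TT K)) : Prop := ∀ g, ∀ x ∈ X, hv g x ∈ X

lemma exists_fun {W : Submodule K (TT K)} {x : TT K} (hx : x ∉ W) :
    ∃ l : TT K →ₗ[K] K, l x = 1 ∧ ∀ y ∈ W, l y = 0 := by
  obtain ⟨f, hf, hW⟩ := Submodule.exists_dual_map_eq_bot_of_notMem hx inferInstance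
  refine ⟨(f x)⁻¹ • f, ?_, ?_⟩
  · simp only [LinearMap.smul_apply, smul_eq_mul]
    exact inv_mul_cancel₀ hf
  · intro y hy
    have : f y ∈ W.map f := Submodule.mem_map_of_mem hy
    rw [hW, Submodule.mem_bot] at this
    simp [this]

lemma eq_of_coeff {l : ℕ} {x y : TT K} (hx : x ∈ len K l) (hy : y ∈ len K l)
    (h : ∀ v : Wd, v.length = l → x.coeff v = y.coeff v) : x = y := by
  ext v
  by_cases hv : v.length = l
  · exact h v hv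
  · rw [mem_len.1 hx v hv, mem_len.1 hy v hv]

section
variable {k l : ℕ} {X1 X2 Y1 Y2 : Submodule K (TT K)}

lemma funct_left (hlk : l ≤ k) (hY1 : Y1 ≤ len K k) (hY2 : Y2 ≤ len K l) (c1 : Clo Y1) (c2 : Clo Y2)
    (L : TT K →ₗ[K] K) (hL : ∀ y ∈ Y2 * (⊤ : Submodule K (TT K)), L y = 0) {f : TT K}
    (hf : f ∈ br Y1 Y2) : ∃ y ∈ Y2, ∀ v : Wd, v.length = l → L (sg v f) = y.coeff v := by
  refine br_ind (C := fun f => ∃ y ∈ Y2, ∀ v : Wd, v.length = l → L (sg v f) = y.coeff v)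
    ?_ ?_ ?_ hf
  · exact ⟨0, Submodule.zero_mem _, fun v _ => by simp⟩
  · rintro x y ⟨a, ha, h⟩ ⟨b, hb, h'⟩
    refine ⟨a + b, Submodule.add_mem _ ha hb, fun v hv => ?_⟩
    rw [map_add, map_add, h v hv, h' v hv, coeff_add, Finsupp.add_apply]
  · intro y1 h1 y2 h2
    refine ⟨L (P0 y1) • P1 y2, Submodule.smul_mem _ _ (c2 _ _ h2), fun v hv => ?_⟩
    have h0 : P0 y2 * sg v y1 ∈ Y2 * (⊤ : Submodule K (TT K)) :=
      Submodule.mul_mem_mul (c2 _ _ h2) Submodule.mem_top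
    rw [sg_comm hlk (hY1 h1) (hY2 h2) hv, map_sub, map_smul, hL _ h0, sub_zero, coeff_smul,
      Finsupp.smul_apply, smul_eq_mul, smul_eq_mul, mul_comm]

lemma stepA (hl : 1 ≤ l) (hlk : l ≤ k) (hX1 : X1 ≤ len K k) (hX2 : X2 ≤ len K l)
    (hY1 : Y1 ≤ len K k) (hY2 : Y2 ≤ len K l) (a1 : Clo X1) (a2 : Clo X2) (c1 : Clo Y1) (c2 : Clo Y2)
    (E : br X1 X2 ≤ br Y1 Y2) (hn : ¬ X1 ≤ Y2 * ⊤) : X2 ≤ Y2 := by
  obtain ⟨x1, hx1, hx1'⟩ := SetLike.not_le_iff_exists.1 hn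
  obtain ⟨L, hL1, hL2⟩ := exists_fun hx1'
  intro x2 hx2
  have hf : R0 x1 * R1 x2 - R1 x2 * R0 x1 ∈ br Y1 Y2 := E (mem_br (a1 _ _ hx1) (a2 _ _ hx2))
  obtain ⟨y, hy, h⟩ := funct_left hlk hY1 hY2 c1 c2 L hL2 hf
  have : x2 = y := by
    apply eq_of_coeff (hX2 hx2) (hY2 hy)
    intro v hv
    rw [← h v hv, sg_R hl hlk (hX1 hx1) (hX2 hx2) hv, map_smul, hL1, smul_eq_mul, mul_one]
  rw [this]; exact hy

lemma sg_mem (hlk : l ≤ k) (hY1 : Y1 ≤ len K k) (hY2 : Y2 ≤ len K l) (c1 : Clo Y1) (c2 : Clo Y2)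
    {f : TT K} (hf : f ∈ br Y1 Y2) {v : Wd} (hv : v.length = l) : sg v f ∈ Y1 ⊔ Y2 * ⊤ := by
  refine br_ind (C := fun f => sg v f ∈ Y1 ⊔ Y2 * ⊤) ?_ ?_ ?_ hf
  · rw [map_zero]; exact Submodule.zero_mem _
  · intro x y h h'; rw [map_add]; exact Submodule.add_mem _ h h'
  · intro y1 h1 y2 h2
    rw [sg_comm hlk (hY1 h1) (hY2 h2) hv]
    refine Submodule.sub_mem _ ?_ ?_
    · exact Submodule.mem_sup_left (Submodule.smul_mem _ _ (c1 _ _ h1))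
    · exact Submodule.mem_sup_right (Submodule.mul_mem_mul (c2 _ _ h2) Submodule.mem_top)

lemma stepB (hl : 1 ≤ l) (hlk : l ≤ k) (hX1 : X1 ≤ len K k) (hX2 : X2 ≤ len K l)
    (hY1 : Y1 ≤ len K k) (hY2 : Y2 ≤ len K l) (a1 : Clo X1) (a2 : Clo X2) (c1 : Clo Y1) (c2 : Clo Y2)
    (E : br X1 X2 ≤ br Y1 Y2) (h0 : X2 ≠ ⊥) : X1 ≤ Y1 ⊔ Y2 * ⊤ := by
  obtain ⟨x2, hx2, hx20⟩ := Submodule.exists_mem_ne_zero_of_ne_bot h0
  obtain ⟨v, hv⟩ := exists_coeff_ne hx20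
  have hvl := length_of_coeff_ne (hX2 hx2) hv
  intro x1 hx1
  have hf : R0 x1 * R1 x2 - R1 x2 * R0 x1 ∈ br Y1 Y2 := E (mem_br (a1 _ _ hx1) (a2 _ _ hx2))
  have h := sg_mem hlk hY1 hY2 c1 c2 hf hvl
  rw [sg_R hl hlk (hX1 hx1) (hX2 hx2) hvl] at h
  have := Submodule.smul_mem _ (x2.coeff v)⁻¹ h
  rwa [smul_smul, inv_mul_cancel₀ hv, one_smul] at this

lemma br_rot {P Q : Submodule K (TT K)} (hP : P ≤ len K k) {f : TT K} (hf : f ∈ br P Q) :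
    ∃ G ∈ P * Q, f = G - rot k G := by
  refine br_ind (C := fun f => ∃ G ∈ P * Q, f = G - rot k G) ?_ ?_ ?_ hf
  · exact ⟨0, Submodule.zero_mem _, by simp⟩
  · rintro x y ⟨a, ha, rfl⟩ ⟨b, hb, rfl⟩
    exact ⟨a + b, Submodule.add_mem _ ha hb, by rw [map_add]; abel⟩
  · intro x hx y hy
    exact ⟨x * y, Submodule.mul_mem_mul hx hy, by rw [rot_mul (hP hx)]⟩

lemma rot_mem {P Q : Submodule K (TT K)} (hP : P ≤ len K k) {G : TT K} (hG : G ∈ P * Q) :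
    rot k G ∈ Q * P := by
  refine Submodule.mul_induction_on hG ?_ ?_
  · intro x hx y hy
    rw [rot_mul (hP hx)]
    exact Submodule.mul_mem_mul hy hx
  · intro x y h h'
    rw [map_add]
    exact Submodule.add_mem _ h h'

lemma sR_mem_left {P Q : Submodule K (TT K)} (hQ : Q ≤ len K l) {G : TT K} (hG : G ∈ P * Q) {v : Wd}
    (hv : v.length = l) : sR v G ∈ P := by
  refine Submodule.mul_induction_on hG ?_ ?_
  · intro x hx y hy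
    rw [sR_mul_eq x (hQ hy) hv]
    exact Submodule.smul_mem _ _ hx
  · intro x y h h'
    rw [map_add]
    exact Submodule.add_mem _ h h'

lemma sR_mem_top {P Q : Submodule K (TT K)} {m : ℕ} (hQ : Q ≤ len K m) {G : TT K} (hG : G ∈ P * Q)
    {v : Wd} (hv : v.length ≤ m) : sR v G ∈ P * ⊤ := by
  refine Submodule.mul_induction_on hG ?_ ?_
  · intro x hx y hy
    rw [sR_mul x (hQ hy) hv]
    exact Submodule.mul_mem_mul hx Submodule.mem_top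
  · intro x y h h'
    rw [map_add]
    exact Submodule.add_mem _ h h'

lemma mul_le_len {P Q : Submodule K (TT K)} (hP : P ≤ len K k) (hQ : Q ≤ len K l) :
    P * Q ≤ len K (k + l) := by
  rw [Submodule.mul_le]
  intro x hx y hy
  exact len_mul (hP hx) (hQ hy)

lemma map_mul_top {P : Submodule K (TT K)} (c : Clo P) (g : ℕ → Option ℕ) {x : TT K}
    (hx : x ∈ P * (⊤ : Submodule K (TT K))) : hv g x ∈ P * (⊤ : Submodule K (TT K)) := by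
  refine Submodule.mul_induction_on hx ?_ ?_
  · intro x hx y hy
    rw [map_mul]
    exact Submodule.mul_mem_mul (c _ _ hx) Submodule.mem_top
  · intro x y h h'
    rw [map_add]
    exact Submodule.add_mem _ h h'

/-- cancellation of a common bracket factor `C`, assuming that `X` meets `C T` trivially -/
lemma stepC {X Y C : Submodule K (TT K)} (hl : 1 ≤ l) (hlk : l ≤ k) (hX : X ≤ len K k)
    (hY : Y ≤ len K k) (hC : C ≤ len K l) (cX : Clo X) (cY : Clo Y) (cC : Clo C) (hC0 : C ≠ ⊥)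
    (E : br Y C ≤ br X C) (H : X ⊓ C * ⊤ = ⊥) : Y ≤ X := by
  intro y hy
  obtain ⟨c, hc, hc0⟩ := Submodule.exists_mem_ne_zero_of_ne_bot hC0
  obtain ⟨v0, hv0⟩ := exists_coeff_ne hc0
  have hvl := length_of_coeff_ne (hC hc) hv0
  have hyB := stepB hl hlk hY hC hX hC cY cC cX cC E hC0 hy
  obtain ⟨x, hx, h, hh, rfl⟩ := Submodule.mem_sup.1 hyB
  have hf : R0 (x + h) * R1 c - R1 c * R0 (x + h) ∈ br X C := E (mem_br (cY _ _ hy) (cC _ _ hc))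
  obtain ⟨G, hG, hfG⟩ := br_rot hX hf
  have hR1c : (R1 c : TT K) ∈ C := cC _ _ hc
  have hR0x : (R0 x : TT K) ∈ X := cX _ _ hx
  have hF0 : G - R0 x * R1 c = 0 := by
    have hF : G - R0 x * R1 c ∈ X * C := Submodule.sub_mem _ hG (Submodule.mul_mem_mul hR0x hR1c)
    apply eq_zero_of_sR (mul_le_len hX hC hF)
    intro v hv
    have h1 : sR v (G - R0 x * R1 c) ∈ X := sR_mem_left hC hF hv
    have h2 : sR v (G - R0 x * R1 c) ∈ C * ⊤ := by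
      have e : G - R0 x * R1 c = R0 h * R1 c - R1 c * R0 (x + h) + rot k G := by
        have h7 : G = (R0 (x + h) * R1 c - R1 c * R0 (x + h)) + rot k G := by rw [hfG]; abel
        have h8 : (R0 (x + h) : TT K) * R1 c = R0 x * R1 c + R0 h * R1 c := by
          rw [map_add, add_mul]
        rw [h8] at h7
        calc G - R0 x * R1 c = (R0 x * R1 c + R0 h * R1 c - R1 c * R0 (x + h) + rot k G)
              - R0 x * R1 c := by rw [← h7]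
          _ = _ := by abel
      rw [e, map_add, map_sub, sR_mul_eq _ (hC hR1c) hv]
      refine Submodule.add_mem _ (Submodule.sub_mem _ ?_ ?_) ?_
      · exact Submodule.smul_mem _ _ (map_mul_top cC _ hh)
      · have hy' : (R0 (x + h) : TT K) ∈ len K k := hY (cY _ _ hy)
        rw [sR_mul _ hy' (by omega)]
        exact Submodule.mul_mem_mul hR1c Submodule.mem_top
      · exact sR_mem_top hX (rot_mem hX hG) (by omega)
    have h3 : sR v (G - R0 x * R1 c) ∈ X ⊓ C * ⊤ := ⟨h1, h2⟩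
    rwa [H, Submodule.mem_bot] at h3
  have hG' : G = R0 x * R1 c := sub_eq_zero.1 hF0
  have hxk : (R0 x : TT K) ∈ len K k := hX hR0x
  rw [hG', rot_mul hxk] at hfG
  have h5 := congrArg (sg v0) hfG
  rw [sg_R hl hlk (hY hy) (hC hc) hvl, sg_R hl hlk (hX hx) (hC hc) hvl] at h5
  have h6 : x + h = x := by
    have := congrArg (fun z => (c.coeff v0)⁻¹ • z) h5
    simpa [smul_smul, inv_mul_cancel₀ hv0] using this
  rw [h6]; exact hx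

/-- Unequal lengths. -/
theorem factor_lt (hl : 1 ≤ l) (hlk : l ≤ k) (hX1 : X1 ≤ len K k) (hX2 : X2 ≤ len K l)
    (hY1 : Y1 ≤ len K k) (hY2 : Y2 ≤ len K l) (a1 : Clo X1) (a2 : Clo X2) (c1 : Clo Y1) (c2 : Clo Y2)
    (n1 : X1 ≠ ⊥) (n2 : X2 ≠ ⊥) (m2 : Y2 ≠ ⊥)
    (E : br X1 X2 = br Y1 Y2) (H : X1 ⊓ Y2 * ⊤ = ⊥) : X1 = Y1 ∧ X2 = Y2 := by
  have hn : ¬ X1 ≤ Y2 * ⊤ := by
    intro h
    rw [inf_eq_left.2 h] at H
    exact n1 H
  have h2 : X2 ≤ Y2 := stepA hl hlk hX1 hX2 hY1 hY2 a1 a2 c1 c2 E.le hn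
  have hn' : ¬ Y1 ≤ X2 * ⊤ := by
    intro h
    apply hn
    refine (stepB hl hlk hX1 hX2 hY1 hY2 a1 a2 c1 c2 E.le n2).trans ?_
    refine sup_le (h.trans ?_) le_rfl
    exact Submodule.mul_le.2 (fun x hx y hy => Submodule.mul_mem_mul (h2 hx) hy)
  have h2' : Y2 ≤ X2 := stepA hl hlk hY1 hY2 hX1 hX2 c1 c2 a1 a2 E.ge hn'
  have e2 : X2 = Y2 := le_antisymm h2 h2'
  subst e2
  have h3 : Y1 ≤ X1 := stepC hl hlk hX1 hY1 hX2 a1 c1 a2 n2 E.ge H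
  have H' : Y1 ⊓ X2 * ⊤ = ⊥ := by
    rw [eq_bot_iff, ← H]
    exact inf_le_inf_right _ h3
  exact ⟨le_antisymm (stepC hl hlk hY1 hX1 hX2 c1 a1 a2 n2 E.le H') h3, rfl⟩

lemma sg_comm_eq {x y : TT K} (hx : x ∈ len K k) (hy : y ∈ len K k) {v : Wd}
    (hv : v.length = k) :
    sg v (x * y - y * x) = (P1 y).coeff v • P0 x - (P1 x).coeff v • P0 y := by
  rw [sg_apply, map_sub, sR_mul_eq x hy (by rw [length_m1, hv]),
    sR_mul_eq y hx (by rw [length_m1, hv]), map_sub, map_smul, map_smul, coeff_P1, coeff_P1]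

lemma funct_eq (hY1 : Y1 ≤ len K k) (hY2 : Y2 ≤ len K k) (c1 : Clo Y1) (c2 : Clo Y2)
    (L : TT K →ₗ[K] K) {f : TT K}
    (hf : f ∈ br Y1 Y2) : ∃ y ∈ Y1 ⊔ Y2, ((∀ z ∈ Y1, L z = 0) → y ∈ Y1) ∧
      ((∀ z ∈ Y2, L z = 0) → y ∈ Y2) ∧ ∀ v : Wd, v.length = k → L (sg v f) = y.coeff v := by
  refine br_ind (C := fun f => ∃ y ∈ Y1 ⊔ Y2, ((∀ z ∈ Y1, L z = 0) → y ∈ Y1) ∧
      ((∀ z ∈ Y2, L z = 0) → y ∈ Y2) ∧ ∀ v : Wd, v.length = k → L (sg v f) = y.coeff v) ?_ ?_ ?_ hf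
  · exact ⟨0, Submodule.zero_mem _, fun _ => Submodule.zero_mem _, fun _ => Submodule.zero_mem _,
      fun v _ => by simp⟩
  · rintro x y ⟨a, ha, ha1, ha2, h⟩ ⟨b, hb, hb1, hb2, h'⟩
    refine ⟨a + b, Submodule.add_mem _ ha hb, fun q => Submodule.add_mem _ (ha1 q) (hb1 q),
      fun q => Submodule.add_mem _ (ha2 q) (hb2 q), fun v hv => ?_⟩
    rw [map_add, map_add, h v hv, h' v hv, coeff_add, Finsupp.add_apply]
  · intro y1 h1 y2 h2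
    have e1 : P1 y1 ∈ Y1 := c1 _ _ h1
    have e2 : P1 y2 ∈ Y2 := c2 _ _ h2
    refine ⟨L (P0 y1) • P1 y2 - L (P0 y2) • P1 y1, ?_, ?_, ?_, fun v hv => ?_⟩
    · exact Submodule.sub_mem _ (Submodule.mem_sup_right (Submodule.smul_mem _ _ e2))
        (Submodule.mem_sup_left (Submodule.smul_mem _ _ e1))
    · intro q
      have : L (P0 y1) = 0 := q _ (c1 _ _ h1)
      rw [this, zero_smul, zero_sub]
      exact Submodule.neg_mem _ (Submodule.smul_mem _ _ e1)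
    · intro q
      have : L (P0 y2) = 0 := q _ (c2 _ _ h2)
      rw [this, zero_smul, sub_zero]
      exact Submodule.smul_mem _ _ e2
    · rw [sg_comm_eq (hY1 h1) (hY2 h2) hv, map_sub, map_smul, map_smul, coeff_sub,
        Finsupp.sub_apply, coeff_smul, coeff_smul, Finsupp.smul_apply, Finsupp.smul_apply]
      simp only [smul_eq_mul]
      ring

lemma eq_aux (hk : 1 ≤ k) (hX1 : X1 ≤ len K k) (hX2 : X2 ≤ len K k)
    (hY1 : Y1 ≤ len K k) (hY2 : Y2 ≤ len K k) (a1 : Clo X1) (a2 : Clo X2) (c1 : Clo Y1) (c2 : Clo Y2)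
    (n1 : X1 ≠ ⊥) (E : br X1 X2 ≤ br Y1 Y2) :
    (X1 ≤ Y1 ∨ X2 ≤ Y1) ∧ (X1 ≤ Y2 ∨ X2 ≤ Y2) ∧ X2 ≤ Y1 ⊔ Y2 := by
  have key : ∀ (L : TT K →ₗ[K] K) (x1 : TT K), x1 ∈ X1 → L x1 = 1 → ∀ x2 ∈ X2,
      ((∀ z ∈ Y1, L z = 0) → x2 ∈ Y1) ∧ ((∀ z ∈ Y2, L z = 0) → x2 ∈ Y2) ∧ x2 ∈ Y1 ⊔ Y2 := by
    intro L x1 hx1 hL x2 hx2
    have hf : R0 x1 * R1 x2 - R1 x2 * R0 x1 ∈ br Y1 Y2 := E (mem_br (a1 _ _ hx1) (a2 _ _ hx2))
    obtain ⟨y, hy, hy1, hy2, h⟩ := funct_eq hY1 hY2 c1 c2 L hf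
    have hyl : y ∈ len K k := (sup_le hY1 hY2) hy
    have : x2 = y := by
      apply eq_of_coeff (hX2 hx2) hyl
      intro v hv
      rw [← h v hv, sg_R hk le_rfl (hX1 hx1) (hX2 hx2) hv, map_smul, hL, smul_eq_mul, mul_one]
    rw [this]
    exact ⟨hy1, hy2, hy⟩
  refine ⟨?_, ?_, ?_⟩
  · by_contra hcon
    push Not at hcon
    obtain ⟨x1, hx1, hx1'⟩ := SetLike.not_le_iff_exists.1 hcon.1
    obtain ⟨L, hL1, hL2⟩ := exists_fun hx1'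
    exact hcon.2 (fun x2 hx2 => (key L x1 hx1 hL1 x2 hx2).1 hL2)
  · by_contra hcon
    push Not at hcon
    obtain ⟨x1, hx1, hx1'⟩ := SetLike.not_le_iff_exists.1 hcon.1
    obtain ⟨L, hL1, hL2⟩ := exists_fun hx1'
    exact hcon.2 (fun x2 hx2 => (key L x1 hx1 hL1 x2 hx2).2.1 hL2)
  · obtain ⟨x1, hx1, hx10⟩ := Submodule.exists_mem_ne_zero_of_ne_bot n1
    have hx1' : x1 ∉ (⊥ : Submodule K (TT K)) := by rwa [Submodule.mem_bot]
    obtain ⟨L, hL1, _⟩ := exists_fun hx1'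
    exact fun x2 hx2 => (key L x1 hx1 hL1 x2 hx2).2.2

/-- Equal lengths. -/
theorem factor_eq (hk : 1 ≤ k) (hX1 : X1 ≤ len K k) (hX2 : X2 ≤ len K k)
    (hY1 : Y1 ≤ len K k) (hY2 : Y2 ≤ len K k) (a1 : Clo X1) (a2 : Clo X2) (c1 : Clo Y1) (c2 : Clo Y2)
    (n1 : X1 ≠ ⊥) (n2 : X2 ≠ ⊥) (m1 : Y1 ≠ ⊥) (m2 : Y2 ≠ ⊥)
    (E : br X1 X2 = br Y1 Y2) : (X1 = Y1 ∧ X2 = Y2) ∨ (X1 = Y2 ∧ X2 = Y1) := by
  obtain ⟨p1, p2, p3⟩ := eq_aux hk hX1 hX2 hY1 hY2 a1 a2 c1 c2 n1 E.le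
  obtain ⟨_, _, p4⟩ := eq_aux hk hX2 hX1 hY1 hY2 a2 a1 c1 c2 n2
    (by rw [br_comm X2 X1]; exact E.le)
  obtain ⟨q1, q2, q3⟩ := eq_aux hk hY1 hY2 hX1 hX2 c1 c2 a1 a2 m1 E.ge
  obtain ⟨_, _, q4⟩ := eq_aux hk hY2 hY1 hX1 hX2 c2 c1 a1 a2 m2
    (by rw [br_comm Y2 Y1]; exact E.ge)
  have s : X1 ⊔ X2 = Y1 ⊔ Y2 := le_antisymm (sup_le p4 p3) (sup_le q4 q3)
  have s1 : Y1 ≤ X1 ⊔ X2 := q4
  have s2 : Y2 ≤ X1 ⊔ X2 := q3
  rcases p1 with p1 | p1 <;> rcases p2 with p2 | p2 <;> rcases q1 with q1 | q1 <;>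
    rcases q2 with q2 | q2 <;>
    first
      | (left; constructor <;> order)
      | (right; constructor <;> order)

end

end Pool.Agent.H25
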