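import Pool.Agent.H25.Trees

/-! The subspace of a decorated tree determines the subspace of its shape. -/

namespace Pool.Agent.H25

open MonoidAlgebra

section
variable {K : Type*} [Field K]

lemma br_span_le_tt {S S' : Set (TT K)} {R : Submodule K (TT K)}
    (h : ∀ x ∈ S, ∀ y ∈ S', x * y - y * x ∈ R) :
    br (Submodule.span K S) (Submodule.span K S') ≤ R := by
  unfold br
  rw [Submodule.map₂_span_span, Submodule.span_le]
  rintro _ ⟨x, hx, y, hy, rfl⟩
  exact h x hx y hy

/-- evaluation of exponents at weights attached to variables -/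
noncomputable def hz (z : ℕ → K) : TT K →ₐ[K] TT K :=
  MonoidAlgebra.lift K (TT K) Wd (FreeMonoid.lift (fun a : ℕ × ℕ =>
    z a.1 ^ a.2 • (wd (FreeMonoid.of (a.1, 0)) : TT K)))

lemma hz_of (z : ℕ → K) (a : ℕ × ℕ) : hz z (wd (FreeMonoid.of a) : TT K) =
    z a.1 ^ a.2 • (wd (FreeMonoid.of (a.1, 0)) : TT K) := by
  rw [hz, wd, MonoidAlgebra.lift_single, one_smul, FreeMonoid.lift_eval_of]

/-- the diagonal derivation with the given weights -/
noncomputable def Dz (z : ℕ → K) : TT K →ₗ[K] TT K := der (fun a => z a.1 • wd (FreeMonoid.of a))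

lemma Dz_mul (z : ℕ → K) (x y : TT K) : Dz z (x * y) = Dz z x * y + x * Dz z y := der_mul _ x y

lemma Dz_of (z : ℕ → K) (a : ℕ × ℕ) : Dz z (wd (FreeMonoid.of a)) = z a.1 • (wd (FreeMonoid.of a) : TT K) :=
  der_of _ a

lemma hz_D (z : ℕ → K) (x : TT K) : hz z (D x) = Dz z (hz z x) := by
  refine map_der (hz z) (Dz z) (Dz_mul z) _ ?_ x
  intro a
  rw [hz_of, hz_of, map_smul, Dz_of, smul_smul, pow_succ]

lemma hz_Dpow (z : ℕ → K) (r : ℕ) (x : TT K) : hz z ((D ^ r) x) = (Dz z ^ r) (hz z x) := by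
  induction r with
  | zero => simp
  | succ r ih => rw [pow_succ', pow_succ', Module.End.mul_apply, Module.End.mul_apply, hz_D, ih]

lemma Dz_X0 (z : ℕ → K) : ∀ s : BT, ∀ x ∈ X0 K s, Dz z x ∈ X0 K s
  | BT.leaf => by
    intro x hx
    rw [X0] at hx ⊢
    have : V1 K 0 ≤ (V1 K 0).comap (Dz z) := by
      conv_lhs => rw [V1]
      rw [Submodule.span_le]
      rintro _ ⟨i, rfl⟩
      change Dz z (wd (FreeMonoid.of (i, 0))) ∈ V1 K 0
      rw [Dz_of]
      exact Submodule.smul_mem _ _ (letter_mem_V1 _ _)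
    exact this hx
  | BT.node a b => by
    intro x hx
    rw [X0] at hx ⊢
    refine br_ind (C := fun x => Dz z x ∈ br (X0 K a) (X0 K b)) ?_ ?_ ?_ hx
    · rw [map_zero]; exact Submodule.zero_mem _
    · intro x y h h'; rw [map_add]; exact Submodule.add_mem _ h h'
    · intro x hx y hy
      have e : Dz z (x * y - y * x) = (Dz z x * y - y * Dz z x) + (x * Dz z y - Dz z y * x) := by
        rw [map_sub, Dz_mul, Dz_mul]; abel
      rw [e]
      exact Submodule.add_mem _ (mem_br (Dz_X0 z a x hx) hy) (mem_br hx (Dz_X0 z b y hy))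

lemma Dzpow_X0 (z : ℕ → K) (s : BT) (r : ℕ) {x : TT K} (hx : x ∈ X0 K s) : (Dz z ^ r) x ∈ X0 K s := by
  induction r with
  | zero => simpa using hx
  | succ r ih => rw [pow_succ', Module.End.mul_apply]; exact Dz_X0 z s _ ih

lemma hz_XX (z : ℕ → K) : ∀ t : DT, ∀ x ∈ XX K t, hz z x ∈ X0 K t.shape
  | DT.leaf r => by
    intro x hx
    rw [XX] at hx
    rw [DT.shape, X0]
    have : V1 K r ≤ (V1 K 0).comap (hz z).toLinearMap := by
      conv_lhs => rw [V1]
      rw [Submodule.span_le]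
      rintro _ ⟨i, rfl⟩
      change hz z (wd (FreeMonoid.of (i, r))) ∈ V1 K 0
      rw [hz_of]
      exact Submodule.smul_mem _ _ (letter_mem_V1 _ _)
    exact this hx
  | DT.node r a b => by
    rintro _ ⟨x, hx, rfl⟩
    rw [hz_Dpow]
    apply Dzpow_X0
    rw [DT.shape, X0]
    refine br_ind (C := fun x => hz z x ∈ br (X0 K a.shape) (X0 K b.shape)) ?_ ?_ ?_ hx
    · rw [map_zero]; exact Submodule.zero_mem _
    · intro x y h h'; rw [map_add]; exact Submodule.add_mem _ h h'
    · intro x hx y hy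
      rw [map_sub, map_mul, map_mul]
      exact mem_br (hz_XX z a x hx) (hz_XX z b y hy)

/-- the multilinear monomial of a tree in the variables `f c, f (c + 1), …` -/
noncomputable def monoT (K : Type*) [Field K] (f : ℕ → ℕ) : BT → ℕ → TT K
  | BT.leaf, c => wd (FreeMonoid.of (f c, 0))
  | BT.node a b, c => monoT K f a c * monoT K f b (c + a.lv) - monoT K f b (c + a.lv) * monoT K f a c

lemma monoT_congr {f g : ℕ → ℕ} : ∀ (s : BT) (c : ℕ), (∀ n, c ≤ n → n < c + s.lv → f n = g n) →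
    monoT K f s c = monoT K g s c
  | BT.leaf, c => fun h => by rw [monoT, monoT, h c le_rfl (by rw [BT.lv]; omega)]
  | BT.node a b, c => fun h => by
    have ha := a.lv_pos
    have hb := b.lv_pos
    rw [BT.lv] at h
    rw [monoT, monoT, monoT_congr a c (fun n h1 h2 => h n h1 (by omega)),
      monoT_congr b (c + a.lv) (fun n h1 h2 => h n (by omega) (by omega))]

lemma hv_monoT (f : ℕ → ℕ) : ∀ (s : BT) (c : ℕ), hv (fun i => some (f i)) (monoT K id s c) = monoT K f s c
  | BT.leaf, c => by rw [monoT, monoT, hv_of]; rfl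
  | BT.node a b, c => by
    rw [monoT, monoT, map_sub, map_mul, map_mul, hv_monoT f a, hv_monoT f b]

lemma X0_le_span : ∀ (s : BT) (c : ℕ), X0 K s ≤ Submodule.span K (Set.range (fun f => monoT K f s c))
  | BT.leaf, c => by
    rw [X0, V1, Submodule.span_le]
    rintro _ ⟨i, rfl⟩
    exact Submodule.subset_span ⟨fun _ => i, rfl⟩
  | BT.node a b, c => by
    rw [X0]
    refine (br_mono (X0_le_span a c) (X0_le_span b (c + a.lv))).trans ?_
    apply br_span_le_tt
    rintro _ ⟨f, rfl⟩ _ ⟨g, rfl⟩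
    refine Submodule.subset_span ⟨fun n => if n < c + a.lv then f n else g n, ?_⟩
    change monoT K _ (BT.node a b) c = _
    rw [monoT, monoT_congr (g := f) a c (fun n _ h2 => if_pos h2),
      monoT_congr (g := g) b (c + a.lv) (fun n h1 _ => if_neg (by omega))]

lemma X0_le_of_mono {s : BT} {c : ℕ} {W : Submodule K (TT K)} (hW : Clo W) (h : monoT K id s c ∈ W) :
    X0 K s ≤ W := by
  refine (X0_le_span s c).trans ?_
  rw [Submodule.span_le]
  rintro _ ⟨f, rfl⟩
  change monoT K f s c ∈ W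
  rw [← hv_monoT]
  exact hW _ _ h

/-- the decorated multilinear monomial -/
noncomputable def dmono (K : Type*) [Field K] : DT → ℕ → TT K
  | DT.leaf r, c => wd (FreeMonoid.of (c, r))
  | DT.node r a b, c => (D ^ r) (dmono K a c * dmono K b (c + a.lv) - dmono K b (c + a.lv) * dmono K a c)

lemma dmono_mem : ∀ (t : DT) (c : ℕ), dmono K t c ∈ XX K t
  | DT.leaf r, c => by rw [dmono, XX]; exact letter_mem_V1 _ _
  | DT.node r a b, c => by
    rw [dmono, XX]
    exact Submodule.mem_map_of_mem (mem_br (dmono_mem a c) (dmono_mem b (c + a.lv)))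

lemma isum_add (z : ℕ → K) {i j k : ℕ} (h : i ≤ j) (h' : j ≤ k) : isum z i j + isum z j k = isum z i k :=
  Finset.sum_Ico_consecutive _ h h'

lemma Dz_monoT (z : ℕ → K) : ∀ (s : BT) (c : ℕ),
    Dz z (monoT K id s c) = isum z c (c + s.lv) • monoT K id s c
  | BT.leaf, c => by
    rw [monoT, Dz_of, BT.lv, isum, Nat.Ico_succ_singleton, Finset.sum_singleton]
    rfl
  | BT.node a b, c => by
    rw [monoT, map_sub, Dz_mul, Dz_mul, Dz_monoT z a, Dz_monoT z b, BT.lv,
      ← isum_add z (show c ≤ c + a.lv by omega) (show c + a.lv ≤ c + (a.lv + b.lv) by omega), add_assoc]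
    simp only [smul_mul_assoc, mul_smul_comm, add_smul, smul_sub]
    abel

lemma Dzpow_monoT (z : ℕ → K) (s : BT) (c r : ℕ) :
    (Dz z ^ r) (monoT K id s c) = (isum z c (c + s.lv)) ^ r • monoT K id s c := by
  induction r with
  | zero => simp
  | succ r ih => rw [pow_succ', Module.End.mul_apply, ih, map_smul, Dz_monoT, smul_smul, pow_succ]

lemma hz_dmono {z : ℕ → K} (hz' : ∀ i j, i < j → isum z i j ≠ 0) : ∀ (t : DT) (c : ℕ),
    ∃ s : K, s ≠ 0 ∧ hz z (dmono K t c) = s • monoT K id t.shape c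
  | DT.leaf r, c => by
    refine ⟨z c ^ r, pow_ne_zero _ ?_, ?_⟩
    · have := hz' c (c + 1) (by omega)
      rwa [isum, Nat.Ico_succ_singleton, Finset.sum_singleton] at this
    · rw [dmono, hz_of, DT.shape, monoT]; rfl
  | DT.node r a b, c => by
    obtain ⟨s, hs, e⟩ := hz_dmono hz' a c
    obtain ⟨s', hs', e'⟩ := hz_dmono hz' b (c + a.lv)
    have hab : hz z (dmono K a c * dmono K b (c + a.lv) - dmono K b (c + a.lv) * dmono K a c) =
        (s * s') • monoT K id (BT.node a.shape b.shape) c := by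
      rw [map_sub, map_mul, map_mul, e, e', monoT, DT.lv_shape, smul_mul_smul_comm, smul_mul_smul_comm,
        mul_comm s' s, smul_sub]
    refine ⟨(s * s') * (isum z c (c + (BT.node a.shape b.shape).lv)) ^ r, ?_, ?_⟩
    · refine mul_ne_zero (mul_ne_zero hs hs') (pow_ne_zero _ (hz' _ _ ?_))
      have := (BT.node a.shape b.shape).lv_pos
      omega
    · rw [dmono, hz_Dpow, hab, map_smul, Dzpow_monoT, smul_smul, DT.shape]

lemma exists_weights (K : Type*) [Field K] [Infinite K] : ∃ z : ℕ → K, ∀ i j, i < j → isum z i j ≠ 0 := by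
  let u := Infinite.natEmbedding K
  refine ⟨fun p => u (p + 1) - u p, ?_⟩
  intro i j hij h
  rw [isum, Finset.sum_Ico_sub u hij.le] at h
  have := u.injective (sub_eq_zero.1 h)
  omega

theorem shape_le [Infinite K] {s t : DT} (h : XX K s ≤ XX K t) : X0 K s.shape ≤ X0 K t.shape := by
  obtain ⟨z, hz'⟩ := exists_weights K
  obtain ⟨c, hc, e⟩ := hz_dmono hz' s 0
  refine X0_le_of_mono (c := 0) (X0_clo _) ?_
  have h1 : hz z (dmono K s 0) ∈ X0 K t.shape := hz_XX z t _ (h (dmono_mem s 0))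
  rw [e] at h1
  have := Submodule.smul_mem _ c⁻¹ h1
  rwa [smul_smul, inv_mul_cancel₀ hc, one_smul] at this

theorem shape_eq [Infinite K] {s t : DT} (h : XX K s = XX K t) : X0 K s.shape = X0 K t.shape :=
  le_antisymm (shape_le h.le) (shape_le h.ge)

end

end Pool.Agent.H25
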