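import Pool.Agent.H25.Prim

/-! A primitive element of the right ideal generated by primitive subspaces `B`, `C` lies in the
subalgebra generated by them. -/

namespace Pool.Agent.H25

open MonoidAlgebra

variable {K : Type*} [Field K]

section
variable (B C : Submodule K (TT K))

/-- the subalgebra generated by two subspaces -/
noncomputable def UU : Subalgebra K (TT K) := Algebra.adjoin K ((B ⊔ C : Submodule K (TT K)) : Set (TT K))

/-- its homogeneous part -/
noncomputable def PP (n : ℕ) : Submodule K (TT K) := Subalgebra.toSubmodule (UU B C) ⊓ len K n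

lemma le_UU : B ⊔ C ≤ Subalgebra.toSubmodule (UU B C) := fun _ hx => Algebra.subset_adjoin hx

lemma cop_UU (hp : B ⊔ C ≤ Prim K) {x : TT K} (hx : x ∈ UU B C) : cop x - i1 x ∈ RI (B ⊔ C) := by
  induction hx using Algebra.adjoin_induction with
  | mem x hx =>
    rw [mem_Prim.1 (hp hx), add_sub_cancel_left]
    have := RI_i2 (W := B ⊔ C) hx 1
    rwa [mul_one] at this
  | algebraMap r =>
    rw [AlgHom.commutes, AlgHom.commutes, sub_self]
    exact Submodule.zero_mem _
  | add x y _ _ hx hy =>
    have : cop (x + y) - i1 (x + y) = (cop x - i1 x) + (cop y - i1 y) := by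
      rw [map_add, map_add]; abel
    rw [this]
    exact Submodule.add_mem _ hx hy
  | mul x y _ _ hx hy =>
    have : cop (x * y) - i1 (x * y) = (cop x - i1 x) * cop y + i1 x * (cop y - i1 y) := by
      rw [map_mul, map_mul, sub_mul, mul_sub]; abel
    rw [this]
    exact Submodule.add_mem _ (RI_mul hx _) (RI_i1 hy _)

lemma sl_PP_eq (hp : B ⊔ C ≤ Prim K) {n : ℕ} {x : TT K} (hx : x ∈ PP B C n * (⊤ : Submodule K (TT K)))
    {u : Wd} (hu : u.length = n) :
    sl u (cop x) - sL u x ∈ (B ⊔ C) * (⊤ : Submodule K (TT K)) := by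
  refine Submodule.mul_induction_on hx ?_ ?_
  · intro b hb t _
    have h1 : cop (b * t) = i1 b * cop t + (cop b - i1 b) * cop t := by
      rw [map_mul, sub_mul]; abel
    rw [h1, map_add, sl_i1_eq hb.2 _ hu, sl_one_cop, sL_mul hb.2 _ hu, add_sub_cancel_left]
    exact mem_RI.1 (RI_mul (cop_UU B C hp hb.1) _) u
  · intro x y h h'
    have : sl u (cop (x + y)) - sL u (x + y) = (sl u (cop x) - sL u x) + (sl u (cop y) - sL u y) := by
      rw [map_add, map_add, map_add]; abel
    rw [this]
    exact Submodule.add_mem _ h h'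

lemma sl_PP_gt (hp : B ⊔ C ≤ Prim K) {n : ℕ} {x : TT K} (hx : x ∈ PP B C n * (⊤ : Submodule K (TT K)))
    {u : Wd} (hu : u.length < n) : sl u (cop x) ∈ (B ⊔ C) * (⊤ : Submodule K (TT K)) := by
  refine Submodule.mul_induction_on hx ?_ ?_
  · intro b hb t _
    have h1 : cop (b * t) = i1 b * cop t + (cop b - i1 b) * cop t := by
      rw [map_mul, sub_mul]; abel
    rw [h1, map_add, sl_i1_gt hb.2 _ hu, zero_add]
    exact mem_RI.1 (RI_mul (cop_UU B C hp hb.1) _) u
  · intro x y h h'
    rw [map_add, map_add]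
    exact Submodule.add_mem _ h h'

/-- products starting with a homogeneous element of the subalgebra of length at least `n` -/
noncomputable def QQ (n : ℕ) : Submodule K (TT K) := ⨆ m : ℕ, PP B C (n + m) * ⊤

lemma QQ_succ (n : ℕ) : QQ B C n = PP B C n * ⊤ ⊔ QQ B C (n + 1) := by
  apply le_antisymm
  · refine iSup_le (fun m => ?_)
    rcases m with _ | m
    · exact le_sup_left
    · refine le_trans ?_ le_sup_right
      have : n + (m + 1) = n + 1 + m := by ring
      rw [this]
      exact le_iSup (fun m => PP B C (n + 1 + m) * ⊤) m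
  · refine sup_le ?_ ?_
    · exact le_iSup (fun m => PP B C (n + m) * ⊤) 0
    · refine iSup_le (fun m => ?_)
      have : n + 1 + m = n + (m + 1) := by ring
      rw [this]
      exact le_iSup (fun m => PP B C (n + m) * ⊤) (m + 1)

lemma PP_mul_le {n b : ℕ} {E : Submodule K (TT K)} (hE : E ≤ len K b) (hE' : E ≤ B ⊔ C) :
    PP B C n * E ≤ PP B C (n + b) := by
  rw [Submodule.mul_le]
  intro x hx y hy
  exact ⟨(UU B C).mul_mem hx.1 (Algebra.subset_adjoin (hE' hy)), len_mul hx.2 (hE hy)⟩

lemma PP_top_le_QQ {n m : ℕ} (h : n ≤ m) : PP B C m * ⊤ ≤ QQ B C n := by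
  obtain ⟨d, rfl⟩ := Nat.exists_eq_add_of_le h
  exact le_iSup (fun m => PP B C (n + m) * ⊤) d

variable {B C}
variable {b c : ℕ}

lemma step_QQ (hb : 1 ≤ b) (hc : 1 ≤ c) (hB : B ≤ len K b) (hC : C ≤ len K c)
    (hp : B ⊔ C ≤ Prim K) {k : ℕ} {x : TT K} (hx : x ∈ len K k) (hxp : x ∈ Prim K) {n : ℕ}
    (hn : 1 ≤ n) (hnk : n < k) (hq : x ∈ QQ B C n) : x ∈ QQ B C (n + 1) := by
  rw [QQ_succ] at hq
  obtain ⟨x0, h0, x1, h1, rfl⟩ := Submodule.mem_sup.1 hq
  have hs1 : ∀ u : Wd, u.length = n → sl u (cop x1) ∈ (B ⊔ C) * (⊤ : Submodule K (TT K)) := by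
    intro u hu
    unfold QQ at h1
    refine Submodule.iSup_induction (fun m => PP B C (n + 1 + m) * (⊤ : Submodule K (TT K)))
      (motive := fun x => sl u (cop x) ∈ (B ⊔ C) * (⊤ : Submodule K (TT K))) h1 ?_ ?_ ?_
    · intro m x hx
      exact sl_PP_gt B C hp hx (by omega)
    · rw [map_zero, map_zero]; exact Submodule.zero_mem _
    · intro x y h h'; rw [map_add, map_add]; exact Submodule.add_mem _ h h'
  have hs0 : ∀ u : Wd, u.length = n → sL u x0 ∈ (B ⊔ C) * (⊤ : Submodule K (TT K)) := by
    intro u hu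
    have e := sl_prim hx hxp (u := u) (by omega) (by omega)
    have e2 := sl_PP_eq B C hp h0 hu
    rw [map_add, map_add] at e
    have e3 : sL u x0 = -(sl u (cop x0) - sL u x0) - sl u (cop x1) := by
      rw [← sub_eq_zero]
      have : sL u x0 - (-(sl u (cop x0) - sL u x0) - sl u (cop x1)) =
        sl u (cop x0) + sl u (cop x1) := by abel
      rw [this, e]
    rw [e3]
    exact Submodule.sub_mem _ (Submodule.neg_mem _ e2) (hs1 u hu)
  have h2 : x0 ∈ PP B C n * ((B ⊔ C) * ⊤) := mem_mul_of_sL (inf_le_right : PP B C n ≤ len K n) h0 hs0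
  refine Submodule.add_mem _ ?_ h1
  rw [← mul_assoc, Submodule.mul_sup, Submodule.sup_mul] at h2
  refine (sup_le ?_ ?_ : _ ≤ QQ B C (n + 1)) h2
  · refine le_trans ?_ (PP_top_le_QQ B C (m := n + b) (by omega))
    exact Submodule.mul_le.2 (fun p hp q hq => Submodule.mul_mem_mul (PP_mul_le B C hB le_sup_left hp) hq)
  · refine le_trans ?_ (PP_top_le_QQ B C (m := n + c) (by omega))
    exact Submodule.mul_le.2 (fun p hp q hq => Submodule.mul_mem_mul (PP_mul_le B C hC le_sup_right hp) hq)

/-- projection to length `k` -/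
noncomputable def prk (k : ℕ) : TT K →ₗ[K] TT K := lin (fun w => if w.length = k then wd w else 0)

lemma coeff_prk (k : ℕ) (x : TT K) (w : Wd) :
    (prk k x).coeff w = if w.length = k then x.coeff w else 0 := by
  classical
  refine T_ind (P := fun x => (prk k x).coeff w = if w.length = k then x.coeff w else 0) ?_ ?_ ?_ ?_ x
  · simp
  · intro x y h h'
    rw [map_add, coeff_add, Finsupp.add_apply, h, h']
    split_ifs <;> simp
  · intro c x h
    rw [map_smul, coeff_smul, Finsupp.smul_apply, h]
    split_ifs <;> simp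
  · intro u
    rw [prk, lin_wd]
    by_cases h : u = w
    · subst h
      split_ifs <;> simp
    · have : (wd u : TT K).coeff w = 0 := by rw [coeff_wd, if_neg h]
      split_ifs <;> simp [this]

lemma prk_of_len {k : ℕ} {x : TT K} (hx : x ∈ len K k) : prk k x = x := by
  ext w
  rw [coeff_prk]
  split_ifs with h
  · rfl
  · rw [mem_len.1 hx w h]

lemma prk_mul_gt {k n : ℕ} (h : k < n) {x : TT K} (hx : x ∈ len K n) (y : TT K) :
    prk k (x * y) = 0 := by
  ext w
  rw [coeff_prk, coeff_mul_left hx]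
  split_ifs with hw
  · have : tk n w = w := by
      unfold tk
      rw [List.take_of_length_le (by rw [← length_def]; omega), FreeMonoid.ofList_toList]
    rw [this, mem_len.1 hx w (by omega), zero_mul]; rfl
  · rfl

lemma prk_mul_eq {k : ℕ} {x : TT K} (hx : x ∈ len K k) (y : TT K) :
    prk k (x * y) = y.coeff 1 • x := by
  ext w
  rw [coeff_prk, coeff_mul_left hx, coeff_smul, Finsupp.smul_apply, smul_eq_mul]
  split_ifs with hw
  · have h1 : tk k w = w := by
      have := tk_mul (a := k) (u := w) (v := 1) hw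
      rwa [mul_one] at this
    have h2 : dr k w = 1 := by
      have := dr_mul (a := k) (u := w) (v := 1) hw
      rwa [mul_one] at this
    rw [h1, h2, mul_comm]
  · rw [mem_len.1 hx w hw, mul_zero]

/-- Main lemma: a primitive homogeneous element of the right ideal generated by `B` and `C`
lies in the subalgebra generated by `B` and `C`. -/
theorem prim_mem_UU (hb : 1 ≤ b) (hc : 1 ≤ c) (hB : B ≤ len K b) (hC : C ≤ len K c)
    (hp : B ⊔ C ≤ Prim K) {k : ℕ} (hk : 1 ≤ k) {x : TT K} (hx : x ∈ len K k) (hxp : x ∈ Prim K)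
    (hq : x ∈ (B ⊔ C) * (⊤ : Submodule K (TT K))) : x ∈ UU B C := by
  have h1 : x ∈ QQ B C 1 := by
    rw [Submodule.sup_mul] at hq
    refine (sup_le ?_ ?_ : _ ≤ QQ B C 1) hq
    · refine le_trans ?_ (PP_top_le_QQ B C (m := b) hb)
      exact Submodule.mul_le.2 (fun p hp q hq => Submodule.mul_mem_mul
        ⟨le_UU B C (Submodule.mem_sup_left hp), hB hp⟩ hq)
    · refine le_trans ?_ (PP_top_le_QQ B C (m := c) hc)
      exact Submodule.mul_le.2 (fun p hp q hq => Submodule.mul_mem_mul
        ⟨le_UU B C (Submodule.mem_sup_right hp), hC hp⟩ hq)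
  have h2 : ∀ n, 1 ≤ n → n ≤ k → x ∈ QQ B C n := by
    intro n hn
    induction n, hn using Nat.le_induction with
    | base => intro _; exact h1
    | succ n hn ih => intro hk'; exact step_QQ hb hc hB hC hp hx hxp hn hk' (ih (by omega))
  have h3 := h2 k hk le_rfl
  have h4 : prk k x ∈ Subalgebra.toSubmodule (UU B C) := by
    unfold QQ at h3
    refine Submodule.iSup_induction (fun m => PP B C (k + m) * (⊤ : Submodule K (TT K)))
      (motive := fun x => prk k x ∈ Subalgebra.toSubmodule (UU B C)) h3 ?_ ?_ ?_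
    · intro m x hx
      refine Submodule.mul_induction_on hx ?_ ?_
      · intro p hp t _
        rcases m with _ | m
        · rw [Nat.add_zero] at hp
          rw [prk_mul_eq hp.2]
          exact Submodule.smul_mem _ _ hp.1
        · rw [prk_mul_gt (by omega) hp.2]
          exact Submodule.zero_mem _
      · intro x y h h'; rw [map_add]; exact Submodule.add_mem _ h h'
    · rw [map_zero]; exact Submodule.zero_mem _
    · intro x y h h'; rw [map_add]; exact Submodule.add_mem _ h h'
  rw [prk_of_len hx] at h4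
  exact h4

/-- words supported in a submonoid-like set -/
lemma UU_supported {S : Set Wd} (h1 : (1 : Wd) ∈ S) (hS : ∀ u ∈ S, ∀ v ∈ S, u * v ∈ S)
    (hB : B ⊔ C ≤ supported K K S) {x : TT K} (hx : x ∈ UU B C) : x ∈ supported K K S := by
  have hspan : ∀ p ∈ supported K K S, ∀ q ∈ supported K K S, p * q ∈ supported K K S := by
    intro p hp q hq
    rw [supported_eq_span_single] at hp hq
    induction hp using Submodule.span_induction with
    | mem p hp =>
      obtain ⟨u, hu, rfl⟩ := hp
      induction hq using Submodule.span_induction with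
      | mem q hq =>
        obtain ⟨v, hv, rfl⟩ := hq
        simp only [single_mul_single, mul_one]
        rw [supported_eq_span_single]
        exact Submodule.subset_span ⟨u * v, hS u hu v hv, rfl⟩
      | zero => rw [mul_zero]; exact Submodule.zero_mem _
      | add x y _ _ hx hy => rw [mul_add]; exact Submodule.add_mem _ hx hy
      | smul c x _ hx => rw [mul_smul_comm]; exact Submodule.smul_mem _ _ hx
    | zero => rw [zero_mul]; exact Submodule.zero_mem _
    | add x y _ _ hx hy => rw [add_mul]; exact Submodule.add_mem _ hx hy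
    | smul c x _ hx => rw [smul_mul_assoc]; exact Submodule.smul_mem _ _ hx
  have hone : (1 : TT K) ∈ supported K K S := by
    rw [supported_eq_span_single]
    exact Submodule.subset_span ⟨1, h1, rfl⟩
  induction hx using Algebra.adjoin_induction with
  | mem x hx => exact hB hx
  | algebraMap r =>
    rw [Algebra.algebraMap_eq_smul_one]
    exact Submodule.smul_mem _ _ hone
  | add x y _ _ hx hy => exact Submodule.add_mem _ hx hy
  | mul x y _ _ hx hy => exact hspan x hx y hy

/-- bidegree consequence -/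
theorem prim_bideg {N M : ℕ} (hb : 1 ≤ b) (hc : 1 ≤ c) (hB : B ≤ bi K b N) (hC : C ≤ bi K c M)
    (hp : B ⊔ C ≤ Prim K) {k P : ℕ} (hk : 1 ≤ k) {x : TT K} (hx : x ∈ bi K k P) (hxp : x ∈ Prim K)
    (hq : x ∈ (B ⊔ C) * (⊤ : Submodule K (TT K))) (hx0 : x ≠ 0) :
    ∃ s t : ℕ, k = s * b + t * c ∧ P = s * N + t * M := by
  have h1 := prim_mem_UU hb hc (hB.trans (bi_le_len _ _)) (hC.trans (bi_le_len _ _)) hp hk
    (bi_le_len _ _ hx) hxp hq
  have h2 : x ∈ supported K K {w : Wd | ∃ s t : ℕ, w.length = s * b + t * c ∧ wt w = s * N + t * M} := by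
    refine UU_supported ?_ ?_ ?_ h1
    · exact ⟨0, 0, by simp, by simp⟩
    · rintro u ⟨s, t, hu1, hu2⟩ v ⟨s', t', hv1, hv2⟩
      refine ⟨s + s', t + t', ?_, ?_⟩
      · rw [FreeMonoid.length_mul, hu1, hv1]; ring
      · rw [wt_mul, hu2, hv2]; ring
    · refine sup_le ?_ ?_
      · refine hB.trans (supported_mono ?_)
        rintro w ⟨h, h'⟩
        exact ⟨1, 0, by rw [h]; ring, by rw [h']; ring⟩
      · refine hC.trans (supported_mono ?_)
        rintro w ⟨h, h'⟩
        exact ⟨0, 1, by rw [h]; ring, by rw [h']; ring⟩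
  obtain ⟨w, hw⟩ := exists_coeff_ne hx0
  have h3 : w.length = k ∧ wt w = P := by
    by_contra hcon
    exact hw (mem_bi.1 hx w hcon)
  have h4 : w ∈ {w : Wd | ∃ s t : ℕ, w.length = s * b + t * c ∧ wt w = s * N + t * M} := by
    by_contra hcon
    exact hw (mem_supported'.1 h2 w hcon)
  obtain ⟨s, t, e1, e2⟩ := h4
  exact ⟨s, t, by rw [← h3.1, e1], by rw [← h3.2, e2]⟩

end

end Pool.Agent.H25
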