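import Pool.Agent.H25.Node
import Pool.Agent.H25.Contr
import Pool.Agent.H25.Sem

/-! The induction. -/

namespace Pool.Agent.H25

open MonoidAlgebra

/-! ### combinatorics of trees -/

namespace DT

lemma Iso.refl : ∀ t : DT, Iso t t
  | DT.leaf r => Iso.leaf r
  | DT.node _ a b => Iso.node (Iso.refl a) (Iso.refl b)

/-- swap the children of the second tree -/
lemma Iso.swap_right {s : DT} {r : ℕ} {a b : DT} (h : Iso s (DT.node r a b)) : Iso s (DT.node r b a) := by
  cases h with
  | node h1 h2 => exact Iso.swap h1 h2
  | swap h1 h2 => exact Iso.node h1 h2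

lemma Iso.swap_left {s : DT} {r : ℕ} {a b : DT} (h : Iso (DT.node r a b) s) : Iso (DT.node r b a) s := by
  cases h with
  | node h1 h2 => exact Iso.swap h2 h1
  | swap h1 h2 => exact Iso.node h2 h1

/-- decoration of the root -/
def rd : DT → ℕ
  | leaf r => r
  | node r _ _ => r

lemma Iso.rd_eq {s t : DT} (h : Iso s t) : rd s = rd t := by cases h <;> rfl

lemma rd_bump (t : DT) : rd (bump t) = rd t + 1 := by cases t <;> rfl

lemma Iso.of_bump {s t : DT} (h : Iso (bump s) (bump t)) : Iso s t := by
  cases s with
  | leaf r =>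
    cases t with
    | leaf q =>
      rw [bump, bump] at h
      have := h.rd_eq
      rw [rd, rd] at this
      have e : r = q := by omega
      subst e
      exact Iso.leaf r
    | node q a b => rw [bump, bump] at h; cases h
  | node r c d =>
    cases t with
    | leaf q => rw [bump, bump] at h; cases h
    | node q a b =>
      rw [bump, bump] at h
      have := h.rd_eq
      rw [rd, rd] at this
      have e : r = q := by omega
      subst e
      cases h with
      | node h1 h2 => exact Iso.node h1 h2
      | swap h1 h2 => exact Iso.swap h1 h2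

lemma NT_bump (t : DT) : NT (bump t) ↔ NT t := by cases t <;> rfl

lemma uni_iso {v : ℕ} : ∀ {s t : DT}, Uni v s → Uni v t → BT.Iso s.shape t.shape → Iso s t
  | leaf r, leaf q => by
    intro h h' _
    have e : r = q := h.trans h'.symm
    subst e
    exact Iso.leaf r
  | leaf r, node q a b => by intro _ _ h; rw [shape, shape] at h; cases h
  | node r a b, leaf q => by intro _ _ h; rw [shape, shape] at h; cases h
  | node r a b, node q c d => by
    rintro ⟨rfl, ha, hb⟩ ⟨rfl, hc, hd⟩ h
    rw [shape, shape] at h
    cases h with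
    | node h1 h2 => exact Iso.node (uni_iso ha hc h1) (uni_iso hb hd h2)
    | swap h1 h2 => exact Iso.swap (uni_iso ha hd h1) (uni_iso hb hc h2)

end DT

/-- the three kinds of trees -/
lemma contract_cases (s : BT) : s = BT.leaf ∨
    (∃ b, (s = BT.node BT.leaf b ∨ s = BT.node b BT.leaf) ∧ contract s = (contract b).bump) ∨
    (∃ a b, s = BT.node a b ∧ contract s = DT.node 0 (contract a) (contract b)) := by
  match s with
  | BT.leaf => exact Or.inl rfl
  | BT.node BT.leaf b => exact Or.inr (Or.inl ⟨b, Or.inl rfl, by rw [contract]⟩)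
  | BT.node (BT.node a c) BT.leaf => exact Or.inr (Or.inl ⟨BT.node a c, Or.inr rfl, by rw [contract]⟩)
  | BT.node (BT.node a c) (BT.node b d) =>
    exact Or.inr (Or.inr ⟨BT.node a c, BT.node b d, rfl, by rw [contract]⟩)

lemma BT.Iso.swap_right {s a b : BT} (h : BT.Iso s (BT.node a b)) : BT.Iso s (BT.node b a) := by
  cases h with
  | node h1 h2 => exact BT.Iso.swap h1 h2
  | swap h1 h2 => exact BT.Iso.node h1 h2

lemma BT.Iso.swap_left {s a b : BT} (h : BT.Iso (BT.node a b) s) : BT.Iso (BT.node b a) s := by
  cases h with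
  | node h1 h2 => exact BT.Iso.swap h2 h1
  | swap h1 h2 => exact BT.Iso.node h2 h1

lemma leaf_node_iso {b d s t : BT} (h : BT.Iso b d) (hs : s = BT.node BT.leaf b ∨ s = BT.node b BT.leaf)
    (ht : t = BT.node BT.leaf d ∨ t = BT.node d BT.leaf) : BT.Iso s t := by
  have h0 : BT.Iso (BT.node BT.leaf b) (BT.node BT.leaf d) := BT.Iso.node BT.Iso.leaf h
  rcases hs with rfl | rfl
  · rcases ht with rfl | rfl
    · exact h0
    · exact h0.swap_right
  · rcases ht with rfl | rfl
    · exact h0.swap_left
    · exact h0.swap_left.swap_right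

/-- a tree is determined by its contraction -/
lemma iso_of_contract : ∀ (n : ℕ) (s t : BT), s.lv ≤ n → DT.Iso (contract s) (contract t) → BT.Iso s t := by
  intro n
  induction n with
  | zero => intro s t h; have := s.lv_pos; omega
  | succ n ih =>
    intro s t hn h
    have hr := h.rd_eq
    rcases contract_cases s with rfl | ⟨b, hs, es⟩ | ⟨a, b, rfl, es⟩
    · rcases contract_cases t with rfl | ⟨d, ht, et⟩ | ⟨c, d, rfl, et⟩
      · exact BT.Iso.leaf
      · rw [et, DT.rd_bump, contract, DT.rd] at hr; omega
      · rw [et, contract] at h; cases h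
    · have hb : b.lv ≤ n := by
        rcases hs with rfl | rfl <;> simp only [BT.lv] at hn <;> omega
      rcases contract_cases t with rfl | ⟨d, ht, et⟩ | ⟨c, d, rfl, et⟩
      · rw [es, DT.rd_bump, contract, DT.rd] at hr; omega
      · rw [es, et] at h
        exact leaf_node_iso (ih b d hb h.of_bump) hs ht
      · rw [es, et, DT.rd_bump, DT.rd] at hr; omega
    · have ha := a.lv_pos
      have hb := b.lv_pos
      simp only [BT.lv] at hn
      rcases contract_cases t with rfl | ⟨d, ht, et⟩ | ⟨c, d, rfl, et⟩
      · rw [es, contract] at h; cases h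
      · rw [es, et, DT.rd_bump, DT.rd] at hr; omega
      · rw [es, et] at h
        cases h with
        | node h1 h2 => exact BT.Iso.node (ih a c (by omega) h1) (ih b d (by omega) h2)
        | swap h1 h2 => exact BT.Iso.swap (ih a d (by omega) h1) (ih b c (by omega) h2)

lemma lv_contract_le : ∀ (n : ℕ) (s : BT), s.lv ≤ n → (contract s).lv ≤ s.lv := by
  intro n
  induction n with
  | zero => intro s h; have := s.lv_pos; omega
  | succ n ih =>
    intro s hn
    rcases contract_cases s with rfl | ⟨b, hs, es⟩ | ⟨a, b, rfl, es⟩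
    · exact le_rfl
    · rw [es, DT.lv_bump]
      rcases hs with rfl | rfl <;> simp only [BT.lv] at hn ⊢ <;>
      · have := ih b (by omega)
        omega
    · rw [es, DT.lv]
      have ha := a.lv_pos
      have hb := b.lv_pos
      simp only [BT.lv] at hn ⊢
      have h1 := ih a (by omega)
      have h2 := ih b (by omega)
      omega

lemma lv_contract_lt_aux : ∀ (n : ℕ) (a b : BT), (BT.node a b).lv ≤ n →
    (contract (BT.node a b)).lv < (BT.node a b).lv := by
  intro n
  induction n with
  | zero => intro a b h; have := (BT.node a b).lv_pos; omega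
  | succ n ih =>
    intro a b hn
    match a, b with
    | BT.leaf, b =>
      rw [contract, DT.lv_bump, BT.lv, BT.lv]
      have := lv_contract_le _ b le_rfl
      omega
    | BT.node a c, BT.leaf =>
      rw [contract, DT.lv_bump, BT.lv, BT.lv, BT.lv]
      have := lv_contract_le _ (BT.node a c) le_rfl
      rw [BT.lv] at this
      omega
    | BT.node a c, BT.node b d =>
      have h1 := (BT.node a c).lv_pos
      have h2 := (BT.node b d).lv_pos
      have e : (BT.node (BT.node a c) (BT.node b d)).lv = (BT.node a c).lv + (BT.node b d).lv := rfl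
      rw [e] at hn
      rw [contract, DT.lv, e]
      have h3 := ih a c (by omega)
      have h4 := ih b d (by omega)
      omega

lemma lv_contract_lt (a b : BT) : (contract (BT.node a b)).lv < (BT.node a b).lv :=
  lv_contract_lt_aux _ a b le_rfl

/-- subtrees -/
inductive Sub : BT → BT → Prop
  | refl (t : BT) : Sub t t
  | left {s a : BT} (b : BT) : Sub s a → Sub s (BT.node a b)
  | right {s b : BT} (a : BT) : Sub s b → Sub s (BT.node a b)

lemma Sub.trans {r s t : BT} (h : Sub r s) (h' : Sub s t) : Sub r t := by
  induction h' with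
  | refl => exact h
  | left b _ ih => exact Sub.left b ih
  | right a _ ih => exact Sub.right a ih

lemma leaf_sub : ∀ t : BT, Sub BT.leaf t
  | BT.leaf => Sub.refl _
  | BT.node a b => Sub.left b (leaf_sub a)

lemma core_sub_left : ∀ a b : BT, Sub a.core (BT.node a b).core
  | BT.leaf, b => by rw [BT.core]; exact leaf_sub _
  | BT.node a c, BT.leaf => by
    have : (BT.node (BT.node a c) BT.leaf).core = (BT.node a c).core := by rw [BT.core]
    rw [this]; exact Sub.refl _
  | BT.node a c, BT.node b d => by
    have : (BT.node (BT.node a c) (BT.node b d)).core = BT.node (BT.node a c).core (BT.node b d).core := by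
      rw [BT.core]
    rw [this]; exact Sub.left _ (Sub.refl _)

lemma core_sub_right : ∀ a b : BT, Sub b.core (BT.node a b).core
  | BT.leaf, b => by
    have : (BT.node BT.leaf b).core = b.core := by rw [BT.core]
    rw [this]; exact Sub.refl _
  | BT.node a c, BT.leaf => by
    have : BT.leaf.core = BT.leaf := by rw [BT.core]
    rw [this]; exact leaf_sub _
  | BT.node a c, BT.node b d => by
    have : (BT.node (BT.node a c) (BT.node b d)).core = BT.node (BT.node a c).core (BT.node b d).core := by
      rw [BT.core]
    rw [this]; exact Sub.right _ (Sub.refl _)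

lemma core_mono {s t : BT} (h : Sub s t) : Sub s.core t.core := by
  induction h with
  | refl => exact Sub.refl _
  | left b _ ih => exact ih.trans (core_sub_left _ _)
  | right a _ ih => exact ih.trans (core_sub_right _ _)

lemma iter_core_mono {s t : BT} (h : Sub s t) (n : ℕ) : Sub (BT.core^[n] s) (BT.core^[n] t) := by
  induction n with
  | zero => exact h
  | succ n ih =>
    rw [Function.iterate_succ_apply', Function.iterate_succ_apply']
    exact core_mono ih

lemma NT_left : ∀ a b : BT, (contract (BT.node a b)).NT → (contract a).NT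
  | BT.leaf, b => fun _ => by rw [contract]; exact trivial
  | BT.node a c, BT.leaf => fun h => by
    have e : contract (BT.node (BT.node a c) BT.leaf) = (contract (BT.node a c)).bump := by rw [contract]
    rwa [e, DT.NT_bump] at h
  | BT.node a c, BT.node b d => fun h => by
    have e : contract (BT.node (BT.node a c) (BT.node b d)) =
      DT.node 0 (contract (BT.node a c)) (contract (BT.node b d)) := by rw [contract]
    rw [e] at h
    exact h.2.2.1

lemma NT_right : ∀ a b : BT, (contract (BT.node a b)).NT → (contract b).NT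
  | BT.leaf, b => fun h => by
    have e : contract (BT.node BT.leaf b) = (contract b).bump := by rw [contract]
    rwa [e, DT.NT_bump] at h
  | BT.node a c, BT.leaf => fun _ => by rw [contract]; exact trivial
  | BT.node a c, BT.node b d => fun h => by
    have e : contract (BT.node (BT.node a c) (BT.node b d)) =
      DT.node 0 (contract (BT.node a c)) (contract (BT.node b d)) := by rw [contract]
    rw [e] at h
    exact h.2.2.2

lemma NT_sub {s t : BT} (h : Sub s t) : (contract t).NT → (contract s).NT := by
  induction h with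
  | refl => exact id
  | left b _ ih => exact fun h => ih (NT_left _ _ h)
  | right a _ ih => exact fun h => ih (NT_right _ _ h)

lemma Good.sub {s t : BT} (h : Sub s t) (ht : Good t) : Good s := fun n => NT_sub (iter_core_mono h n) (ht n)

lemma Good.core {s : BT} (h : Good s) : Good s.core := by
  intro n
  have := h (n + 1)
  rwa [Function.iterate_succ_apply] at this

section
variable {K : Type*} [Field K] [Infinite K]

/-- `A` is determined by its subspace -/
def Det (K : Type*) [Field K] (A : DT) : Prop := ∀ E : DT, XX K A = XX K E → DT.Iso A E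

lemma br_XX_ne_bot (A B : DT) : br (XX K A) (XX K B) ≠ ⊥ :=
  br_ne_bot A.lv_pos B.lv_pos (XX_len A) (XX_len B) (XX_clo A) (XX_clo B) (XX_ne_bot A) (XX_ne_bot B)

/-- the vertex step, children ordered by size and matching shapes -/
lemma node_core {A B A' B' : DT} (hAB : B.lv ≤ A.lv) (dA : Det K A) (dB : Det K B)
    (sA : BT.Iso A.shape A'.shape) (sB : BT.Iso B.shape B'.shape)
    (E : br (XX K A) (XX K B) = br (XX K A') (XX K B')) (ht : ¬ DT.Trouble A B) (r : ℕ) :
    DT.Iso (DT.node r A B) (DT.node r A' B') := by
  have hA : A.lv = A'.lv := by rw [← DT.lv_shape, ← DT.lv_shape, sA.lv_eq]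
  have hB : B.lv = B'.lv := by rw [← DT.lv_shape, ← DT.lv_shape, sB.lv_eq]
  by_cases hu : ∃ v, DT.Uni v A ∧ DT.Uni v B
  · obtain ⟨v, hvA, hvB⟩ := hu
    obtain ⟨x, hx, hx0⟩ := Submodule.exists_mem_ne_zero_of_ne_bot (br_XX_ne_bot (K := K) A B)
    have h1 : hk v x = x := by
      refine hk_of_uni (DT.node 0 A B) ⟨rfl, hvA, hvB⟩ x ?_
      rw [XX_zero]; exact hx
    have h2 : x ∈ XX K (DT.node 0 A' B') := by rw [XX_zero, ← E]; exact hx
    obtain ⟨_, hA', hB'⟩ := uni_of_mem h2 hx0 h1
    exact DT.Iso.node (DT.uni_iso hvA hA' sA) (DT.uni_iso hvB hB' sB)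
  · rcases Nat.lt_or_ge B.lv A.lv with hlt | hge
    · obtain ⟨h1, h2⟩ := node_step hA hB hlt E ht hu
      exact DT.Iso.node (dA _ h1) (dB _ h2)
    · have hAB' : A.lv = B.lv := le_antisymm hge hAB
      have lB : XX K B ≤ len K A.lv := by rw [hAB']; exact XX_len B
      have lA' : XX K A' ≤ len K A.lv := by rw [hA]; exact XX_len A'
      have lB' : XX K B' ≤ len K A.lv := by rw [hAB', hB]; exact XX_len B'
      rcases factor_eq A.lv_pos (XX_len A) lB lA' lB' (XX_clo A) (XX_clo B) (XX_clo A') (XX_clo B')
        (XX_ne_bot A) (XX_ne_bot B) (XX_ne_bot A') (XX_ne_bot B') E with ⟨h1, h2⟩ | ⟨h1, h2⟩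
      · exact DT.Iso.node (dA _ h1) (dB _ h2)
      · exact DT.Iso.swap (dA _ h1) (dB _ h2)

lemma node_any {A B A' B' : DT} (dA : Det K A) (dB : Det K B)
    (s : BT.Iso (BT.node A.shape B.shape) (BT.node A'.shape B'.shape))
    (E : br (XX K A) (XX K B) = br (XX K A') (XX K B')) (ht : ¬ DT.Trouble A B) (ht' : ¬ DT.Trouble B A)
    (r : ℕ) : DT.Iso (DT.node r A B) (DT.node r A' B') := by
  have E' : br (XX K A) (XX K B) = br (XX K B') (XX K A') := by rw [E, br_comm]
  have F : br (XX K B) (XX K A) = br (XX K A') (XX K B') := by rw [← E, br_comm]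
  have F' : br (XX K B) (XX K A) = br (XX K B') (XX K A') := by rw [← E', br_comm]
  rcases le_total B.lv A.lv with h | h
  · cases s with
    | node s1 s2 => exact node_core h dA dB s1 s2 E ht r
    | swap s1 s2 => exact (node_core h dA dB s1 s2 E' ht r).swap_right
  · cases s with
    | node s1 s2 => exact (node_core h dB dA s2 s1 F' ht' r).swap_left.swap_right
    | swap s1 s2 => exact (node_core h dB dA s2 s1 F ht' r).swap_left

lemma det_of (n : ℕ) (ih : ∀ s t : BT, s.lv ≤ n → Good s → X0 K s = X0 K t → BT.Iso s t) :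
    ∀ A : DT, A.lv ≤ n → A.NT → Good A.shape → Det K A
  | DT.leaf r => by
    intro hn _ hg E hE
    have h1 := ih _ E.shape (by rw [DT.lv_shape]; exact hn) hg (shape_eq hE)
    match E with
    | DT.leaf q =>
      obtain ⟨x, hx, hx0⟩ := Submodule.exists_mem_ne_zero_of_ne_bot (XX_ne_bot (K := K) (DT.leaf r))
      have h2 := (bi_unique (XX_bi _ hx) (XX_bi (DT.leaf q) (hE ▸ hx)) hx0).2
      rw [DT.dec, DT.dec] at h2
      subst h2
      exact DT.Iso.leaf r
    | DT.node q a b => rw [DT.shape, DT.shape] at h1; cases h1
  | DT.node r A B => by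
    intro hn hnt hg E hE
    have h1 := ih _ E.shape (by rw [DT.lv_shape]; exact hn) hg (shape_eq hE)
    have hA := A.lv_pos
    have hB := B.lv_pos
    rw [DT.lv] at hn
    obtain ⟨ht, ht', hnA, hnB⟩ := hnt
    rw [DT.shape] at hg
    have dA : Det K A := det_of n ih A (by omega) hnA (hg.sub (Sub.left _ (Sub.refl _)))
    have dB : Det K B := det_of n ih B (by omega) hnB (hg.sub (Sub.right _ (Sub.refl _)))
    match E with
    | DT.leaf q => rw [DT.shape, DT.shape] at h1; cases h1
    | DT.node q A' B' =>
      rw [DT.shape, DT.shape] at h1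
      have h2 := h1.lv_eq
      rw [BT.lv, BT.lv, DT.lv_shape, DT.lv_shape, DT.lv_shape, DT.lv_shape] at h2
      rw [XX, XX] at hE
      obtain ⟨hr, hE'⟩ := root_cancel hA hB A'.lv_pos B'.lv_pos h2 (XX_bi A) (XX_bi B) (XX_clo A)
        (XX_clo B) (XX_ne_bot A) (XX_ne_bot B) (XX_bi A') (XX_bi B') (XX_clo A') (XX_clo B')
        (XX_ne_bot A') (XX_ne_bot B') hE
      subst hr
      exact node_any dA dB h1 hE' ht ht' r

lemma lv_eq_of_X0 {s t : BT} (h : X0 K s = X0 K t) : s.lv = t.lv := by
  obtain ⟨x, hx, hx0⟩ := Submodule.exists_mem_ne_zero_of_ne_bot (X0_ne_bot (K := K) s)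
  obtain ⟨w, hw⟩ := exists_coeff_ne hx0
  rw [← length_of_coeff_ne (X0_le_len s hx) hw, ← length_of_coeff_ne (X0_le_len t (h ▸ hx)) hw]

/-- the main theorem over infinite fields -/
theorem iso_of_X0 : ∀ (n : ℕ) (s t : BT), s.lv ≤ n → Good s → X0 K s = X0 K t → BT.Iso s t := by
  intro n
  induction n with
  | zero => intro s t h; have := s.lv_pos; omega
  | succ n ih =>
    intro s t hn hg h
    have hl := lv_eq_of_X0 h
    match s, t with
    | BT.leaf, BT.leaf => exact BT.Iso.leaf
    | BT.leaf, BT.node c d =>
      have := c.lv_pos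
      have := d.lv_pos
      rw [BT.lv, BT.lv] at hl; omega
    | BT.node a b, BT.leaf =>
      have := a.lv_pos
      have := b.lv_pos
      rw [BT.lv, BT.lv] at hl; omega
    | BT.node a b, BT.node c d =>
      have h1 := contr_eq h
      have h2 := lv_contract_lt a b
      have h3 : Det K (contract (BT.node a b)) := by
        refine det_of n ih _ (by omega) (hg 0) ?_
        rw [shape_contract]
        exact hg.core
      exact iso_of_contract _ _ _ le_rfl (h3 _ h1)

end

end Pool.Agent.H25
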