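import Pool.Agent.H25.Unif
import Pool.Agent.H25.Gen
import Pool.Agent.H25.Factor

/-! The step at one vertex. -/

namespace Pool.Agent.H25

open MonoidAlgebra

section
variable {K : Type*} [Field K]

/-- a homogeneous element of `C T` has homogeneous cofactors -/
lemma mem_mul_len {C : Submodule K (TT K)} {c m : ℕ} (hC : C ≤ len K c) {x : TT K}
    (hx : x ∈ len K m) (hxC : x ∈ C * (⊤ : Submodule K (TT K))) : x ∈ C * len K (m - c) := by
  refine mem_mul_of_sL hC hxC ?_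
  intro u hu
  rw [← hu]
  exact sL_len hx

/-- right slices of an element of `C T` -/
lemma sR_mem_mul_top {C : Submodule K (TT K)} {c m : ℕ} (hC : C ≤ len K c) {x : TT K}
    (hx : x ∈ len K m) (hxC : x ∈ C * (⊤ : Submodule K (TT K))) {v : Wd} (hv : v.length + c ≤ m) :
    sR v x ∈ C * (⊤ : Submodule K (TT K)) := by
  have h := mem_mul_len hC hx hxC
  exact sR_mem_top (P := C) (Q := len K (m - c)) le_rfl h (by omega)

lemma bideg_of_meet {A : DT} {C : Submodule K (TT K)} {c q : ℕ} (hc : 1 ≤ c) (hC : C ≤ bi K c q)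
    (pC : C ≤ Prim K) {x : TT K} (hx : x ∈ XX K A) (hxC : x ∈ C * (⊤ : Submodule K (TT K))) (hx0 : x ≠ 0) :
    ∃ j, A.lv = j * c ∧ A.dec = j * q := by
  obtain ⟨s, t, h1, h2⟩ := prim_bideg (B := C) (C := C) hc hc hC hC (sup_le pC pC) A.lv_pos (XX_bi A hx)
    (XX_prim A hx) (by rwa [sup_idem]) hx0
  exact ⟨s + t, by rw [h1]; ring, by rw [h2]; ring⟩

lemma slopes_aux {a b c Na Nb q : ℕ} {X Y C : Submodule K (TT K)} (hb : 1 ≤ b) (hab : b ≤ a)
    (hc : 1 ≤ c) (hca : c ≤ a) (hX : X ≤ bi K a Na) (hY : Y ≤ bi K b Nb) (hC : C ≤ bi K c q)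
    (pX : X ≤ Prim K) (pY : Y ≤ Prim K) (pC : C ≤ Prim K) {x : TT K} (hx : x ∈ br X Y) (hx0 : x ≠ 0)
    (hxC : x ∈ C * (⊤ : Submodule K (TT K))) : ∃ s t, a = s * b + t * c ∧ Na = s * Nb + t * q := by
  have lX := hX.trans (bi_le_len _ _)
  have lY := hY.trans (bi_le_len _ _)
  have lC := hC.trans (bi_le_len _ _)
  have hxl : x ∈ len K (a + b) := br_len lX lY hx
  obtain ⟨G, hG, e⟩ := br_rot lX hx
  have hG0 : G ≠ 0 := by
    rintro rfl
    apply hx0
    rw [e]; simp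
  have hv : ∃ v : Wd, v.length = b ∧ sR v G ≠ 0 := by
    by_contra hcon
    push Not at hcon
    exact hG0 (eq_zero_of_sR (mul_le_len lX lY hG) hcon)
  obtain ⟨v, hvb, hv0⟩ := hv
  have h1 : sR v G ∈ X := sR_mem_left lY hG hvb
  have h2 : sR v (rot a G) ∈ Y * (⊤ : Submodule K (TT K)) :=
    sR_mem_top lX (rot_mem lX hG) (by omega)
  have h3 : sR v x ∈ C * (⊤ : Submodule K (TT K)) := sR_mem_mul_top lC hxl hxC (by omega)
  have h4 : sR v G ∈ (Y ⊔ C) * (⊤ : Submodule K (TT K)) := by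
    have e2 : sR v G = sR v (rot a G) + sR v x := by
      rw [e, map_sub]; abel
    rw [e2, Submodule.sup_mul]
    exact Submodule.add_mem _ (Submodule.mem_sup_left h2) (Submodule.mem_sup_right h3)
  exact prim_bideg (B := Y) (C := C) hb hc hY hC (sup_le pY pC) (by omega) (hX h1) (pX h1) h4 hv0

lemma slopes_arith {a b c Na Nb q s t j : ℕ} (h1 : a + b = j * c) (h2 : Na + Nb = j * q)
    (h3 : a = s * b + t * c) (h4 : Na = s * Nb + t * q) : Na * c = q * a ∧ Nb * c = q * b := by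
  have e1 : (s + 1) * (Nb * c) + t * q * c = (s + 1) * (q * b) + t * q * c := by
    have e3 : (s + 1) * (Nb * c) + t * q * c = (s * Nb + t * q + Nb) * c := by ring
    have e4 : (s + 1) * (q * b) + t * q * c = (s * b + t * c + b) * q := by ring
    rw [e3, e4, ← h3, ← h4, h1, h2]
    ring
  have e2 : Nb * c = q * b := Nat.eq_of_mul_eq_mul_left (Nat.succ_pos s) (Nat.add_right_cancel e1)
  refine ⟨?_, e2⟩
  have e3 : Na * c + Nb * c = q * a + Nb * c := by
    rw [e2]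
    have e4 : Na * c + q * b = Na * c + Nb * c := by rw [e2]
    rw [e4, ← add_mul, h2, ← mul_add, h1]; ring
  exact Nat.add_right_cancel e3

lemma slopes {A1 A2 : DT} {c q : ℕ} {C : Submodule K (TT K)} (hc : 1 ≤ c) (hC : C ≤ bi K c q)
    (pC : C ≤ Prim K) {j : ℕ} (hj : 2 ≤ j) (h1 : A1.lv + A2.lv = j * c) (h2 : A1.dec + A2.dec = j * q)
    {x : TT K} (hx : x ∈ br (XX K A1) (XX K A2)) (hx0 : x ≠ 0)
    (hxC : x ∈ C * (⊤ : Submodule K (TT K))) :
    A1.dec * c = q * A1.lv ∧ A2.dec * c = q * A2.lv := by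
  have h2c : 2 * c ≤ A1.lv + A2.lv := by rw [h1]; exact Nat.mul_le_mul_right c hj
  rcases le_total A2.lv A1.lv with h | h
  · obtain ⟨s, t, h3, h4⟩ := slopes_aux A2.lv_pos h hc (by omega) (XX_bi A1) (XX_bi A2) hC (XX_prim A1)
      (XX_prim A2) pC hx hx0 hxC
    exact slopes_arith h1 h2 h3 h4
  · rw [br_comm] at hx
    obtain ⟨s, t, h3, h4⟩ := slopes_aux A1.lv_pos h hc (by omega) (XX_bi A2) (XX_bi A1) hC (XX_prim A2)
      (XX_prim A1) pC hx hx0 hxC
    exact (slopes_arith (by rw [add_comm]; exact h1) (by rw [add_comm]; exact h2) h3 h4).symm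

lemma hk_of_bi (v : ℕ) {x : TT K} (hx : x ∈ bi K 1 v) : hk v x = x := by
  refine bi_ind (P := fun x => hk v x = x) ?_ ?_ ?_ ?_ hx
  · simp
  · intro x y h h'; rw [map_add, h, h']
  · intro c x h; rw [map_smul, h]
  · intro w hw hv
    obtain ⟨a, rfl⟩ := FreeMonoid.length_eq_one.1 hw
    rw [wt_of] at hv
    rw [hk_of, if_pos hv]

theorem meet_bot [Infinite K] {A : DT} {c q : ℕ} {C : Submodule K (TT K)} (hc : 1 ≤ c) (hlt : c < A.lv)
    (hC : C ≤ bi K c q) (pC : C ≤ Prim K)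
    (hnt : ¬ (2 ≤ c ∧ c ∣ A.lv ∧
      ∃ A1 A2, A = DT.node 0 A1 A2 ∧ A1.dec * c = q * A1.lv ∧ A2.dec * c = q * A2.lv))
    (hu : c = 1 → ¬ DT.Uni q A) : XX K A ⊓ C * ⊤ = ⊥ := by
  rw [eq_bot_iff]
  rintro x ⟨hx, hxC⟩
  rw [Submodule.mem_bot]
  by_contra hx0
  obtain ⟨j, hj1, hj2⟩ := bideg_of_meet hc hC pC hx hxC hx0
  have hj : 2 ≤ j := by
    by_contra hcon
    push Not at hcon
    interval_cases j
    · omega
    · omega
  rcases Nat.lt_or_ge c 2 with h1 | h2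
  · have e : c = 1 := by omega
    subst e
    apply hu rfl
    refine uni_of_mem hx hx0 ?_
    have h3 : x ∈ UU C C := prim_mem_UU (B := C) (C := C) le_rfl le_rfl (hC.trans (bi_le_len _ _))
      (hC.trans (bi_le_len _ _)) (sup_le pC pC) A.lv_pos (XX_len A hx) (XX_prim A hx) (by rwa [sup_idem])
    have h4 : UU C C ≤ AlgHom.equalizer (hk q) (AlgHom.id K (TT K)) := by
      refine Algebra.adjoin_le ?_
      rw [sup_idem]
      intro y hy
      exact hk_of_bi q (hC hy)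
    exact h4 h3
  · apply hnt
    refine ⟨h2, ⟨j, by rw [hj1, mul_comm]⟩, ?_⟩
    match A, hx, hj1, hj2, hlt with
    | DT.leaf r, _, _, _, hlt => rw [DT.lv] at hlt; omega
    | DT.node (r + 1) A1 A2, hx, _, _, hlt =>
      exfalso
      have hxb := XX_bi (DT.node (r + 1) A1 A2) hx
      obtain ⟨y, hy, e⟩ := hx
      rw [pow_succ', Module.End.mul_apply] at e
      exact hx0 (scaling hc hlt hC hxb hxC (Dpow_len r (br_len (XX_len A1) (XX_len A2) hy)) e.symm)
    | DT.node 0 A1 A2, hx, hj1, hj2, _ =>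
      refine ⟨A1, A2, rfl, ?_⟩
      rw [XX_zero] at hx
      rw [DT.lv] at hj1
      rw [DT.dec, zero_add] at hj2
      exact slopes hc hC pC hj hj1 hj2 hx hx0 hxC

lemma bi_unique {k N l M : ℕ} {x : TT K} (h : x ∈ bi K k N) (h' : x ∈ bi K l M) (h0 : x ≠ 0) :
    k = l ∧ N = M := by
  obtain ⟨w, hw⟩ := exists_coeff_ne h0
  have h1 : w.length = k ∧ wt w = N := by
    by_contra hcon; exact hw (mem_bi.1 h w hcon)
  have h2 : w.length = l ∧ wt w = M := by
    by_contra hcon; exact hw (mem_bi.1 h' w hcon)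
  exact ⟨h1.1.symm.trans h2.1, h1.2.symm.trans h2.2⟩

/-- equal decorations of the small factors -/
lemma dec_eq [Infinite K] {A B A' B' : DT} (hA : A.lv = A'.lv) (hB : B.lv = B'.lv) (hlt : B.lv < A.lv)
    (E : br (XX K A) (XX K B) = br (XX K A') (XX K B')) : B.dec = B'.dec := by
  by_contra hne
  have hbB := B.lv_pos
  have hn1 : ¬ XX K B ≤ XX K B' := by
    intro h
    obtain ⟨x, hx, hx0⟩ := Submodule.exists_mem_ne_zero_of_ne_bot (XX_ne_bot (K := K) B)
    exact hne (bi_unique (XX_bi B hx) (XX_bi B' (h hx)) hx0).2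
  have hn2 : ¬ XX K B' ≤ XX K B := by
    intro h
    obtain ⟨x, hx, hx0⟩ := Submodule.exists_mem_ne_zero_of_ne_bot (XX_ne_bot (K := K) B')
    exact hne (bi_unique (XX_bi B (h hx)) (XX_bi B' hx) hx0).2
  have lA' : XX K A' ≤ len K A.lv := by rw [hA]; exact XX_len A'
  have lB' : XX K B' ≤ len K B.lv := by rw [hB]; exact XX_len B'
  have h1 : XX K A ≤ XX K B' * ⊤ := by
    by_contra hcon
    exact hn1 (stepA hbB hlt.le (XX_len A) (XX_len B) lA' lB' (XX_clo A) (XX_clo B) (XX_clo A') (XX_clo B')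
      E.le hcon)
  have h2 : XX K A' ≤ XX K B * ⊤ := by
    by_contra hcon
    exact hn2 (stepA hbB hlt.le lA' lB' (XX_len A) (XX_len B) (XX_clo A') (XX_clo B') (XX_clo A) (XX_clo B)
      E.ge hcon)
  obtain ⟨x, hx, hx0⟩ := Submodule.exists_mem_ne_zero_of_ne_bot (XX_ne_bot (K := K) A)
  obtain ⟨y, hy, hy0⟩ := Submodule.exists_mem_ne_zero_of_ne_bot (XX_ne_bot (K := K) A')
  obtain ⟨j, e1, e2⟩ := bideg_of_meet B'.lv_pos (XX_bi B') (XX_prim B') hx (h1 hx) hx0
  obtain ⟨j', e3, e4⟩ := bideg_of_meet B.lv_pos (XX_bi B) (XX_prim B) hy (h2 hy) hy0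
  have hj : j = j' := by
    rw [hA, e3, ← hB] at e1
    exact (Nat.eq_of_mul_eq_mul_right hbB e1).symm
  subst hj
  have hne' : br (XX K A) (XX K B) ≠ ⊥ :=
    br_ne_bot A.lv_pos B.lv_pos (XX_len A) (XX_len B) (XX_clo A) (XX_clo B) (XX_ne_bot A) (XX_ne_bot B)
  obtain ⟨z, hz, hz0⟩ := Submodule.exists_mem_ne_zero_of_ne_bot hne'
  have hz' : z ∈ br (XX K A') (XX K B') := by rw [← E]; exact hz
  have h5 := (bi_unique (br_bi (XX_bi A) (XX_bi B) hz) (br_bi (XX_bi A') (XX_bi B') hz') hz0).2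
  have hj2 : 2 ≤ j := by
    by_contra hcon
    push Not at hcon
    interval_cases j
    · omega
    · omega
  obtain ⟨i, rfl⟩ : ∃ i, j = i + 2 := ⟨j - 2, by omega⟩
  rw [e2, e4] at h5
  apply hne
  have h6 : (i + 1) * B.dec = (i + 1) * B'.dec := by
    have : (i + 2) * B'.dec + B.dec = (i + 2) * B.dec + B'.dec := h5
    have e5 : (i + 2) * B'.dec = (i + 1) * B'.dec + B'.dec := by ring
    have e6 : (i + 2) * B.dec = (i + 1) * B.dec + B.dec := by ring
    rw [e5, e6] at this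
    omega
  exact Nat.eq_of_mul_eq_mul_left (Nat.succ_pos i) h6

theorem node_step [Infinite K] {A B A' B' : DT} (hA : A.lv = A'.lv) (hB : B.lv = B'.lv)
    (hlt : B.lv < A.lv) (E : br (XX K A) (XX K B) = br (XX K A') (XX K B'))
    (ht : ¬ DT.Trouble A B) (hu : ¬ ∃ v, DT.Uni v A ∧ DT.Uni v B) :
    XX K A = XX K A' ∧ XX K B = XX K B' := by
  have hd := dec_eq hA hB hlt E
  have lA' : XX K A' ≤ len K A.lv := by rw [hA]; exact XX_len A'
  have lB' : XX K B' ≤ len K B.lv := by rw [hB]; exact XX_len B'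
  refine factor_lt B.lv_pos hlt.le (XX_len A) (XX_len B) lA' lB' (XX_clo A) (XX_clo B) (XX_clo A')
    (XX_clo B') (XX_ne_bot A) (XX_ne_bot B) (XX_ne_bot B') E ?_
  have hbB' : XX K B' ≤ bi K B.lv B.dec := by rw [hB, hd]; exact XX_bi B'
  refine meet_bot B.lv_pos hlt hbB' (XX_prim B') ?_ ?_
  · rintro ⟨h1, h2, h3⟩
    exact ht ⟨h1, hlt, h2, h3, hu⟩
  · intro h1 h2
    apply hu
    refine ⟨B.dec, h2, ?_⟩
    match B, h1 with
    | DT.leaf r, _ => rfl
    | DT.node r b1 b2, h1 =>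
      rw [DT.lv] at h1
      have := b1.lv_pos
      have := b2.lv_pos
      omega

end

end Pool.Agent.H25
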