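import Pool.Agent.H25.Factor

/-! The coproduct, primitive elements, and primitive elements of right ideals. -/

namespace Pool.Agent.H25

open MonoidAlgebra

variable {K : Type*} [Field K]

/-- functions on pairs of words -/
abbrev T2 (K : Type*) [Field K] := MonoidAlgebra K (Wd × Wd)

/-- first inclusion -/
noncomputable def i1 : TT K →ₐ[K] T2 K :=
  MonoidAlgebra.lift K (T2 K) Wd ((MonoidAlgebra.of K (Wd × Wd)).comp (MonoidHom.inl Wd Wd))
/-- second inclusion -/
noncomputable def i2 : TT K →ₐ[K] T2 K :=
  MonoidAlgebra.lift K (T2 K) Wd ((MonoidAlgebra.of K (Wd × Wd)).comp (MonoidHom.inr Wd Wd))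

lemma i1_wd (w : Wd) : i1 (wd w : TT K) = single (w, 1) 1 := by
  rw [i1, wd, MonoidAlgebra.lift_single, one_smul]; rfl

lemma i2_wd (w : Wd) : i2 (wd w : TT K) = single (1, w) 1 := by
  rw [i2, wd, MonoidAlgebra.lift_single, one_smul]; rfl

/-- the coproduct -/
noncomputable def cop : TT K →ₐ[K] T2 K :=
  MonoidAlgebra.lift K (T2 K) Wd (FreeMonoid.lift (fun a =>
    i1 (wd (FreeMonoid.of a) : TT K) + i2 (wd (FreeMonoid.of a))))

lemma cop_of (a : ℕ × ℕ) : cop (wd (FreeMonoid.of a) : TT K) =
    i1 (wd (FreeMonoid.of a)) + i2 (wd (FreeMonoid.of a)) := by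
  rw [cop, wd, MonoidAlgebra.lift_single, one_smul, FreeMonoid.lift_eval_of]; rfl

lemma T2_ind {P : T2 K → Prop} (h0 : P 0) (hadd : ∀ x y, P x → P y → P (x + y))
    (hs : ∀ (c : K) x, P x → P (c • x)) (hw : ∀ u v : Wd, P (single (u, v) 1)) (x : T2 K) : P x := by
  induction x using MonoidAlgebra.induction_linear with
  | zero => exact h0
  | add x y hx hy => exact hadd x y hx hy
  | single w r =>
    have : (single w r : T2 K) = r • single (w.1, w.2) 1 := by
      rw [smul_single, smul_eq_mul, mul_one]
    rw [this]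
    exact hs r _ (hw _ _)

/-- slice of a function on pairs -/
noncomputable def sl (u : Wd) : T2 K →ₗ[K] TT K where
  toFun x := comapDomain (fun v => (u, v)) (Prod.mk_right_injective u) x
  map_add' x y := comapDomain_add _ _ x y
  map_smul' c x := by ext; simp

@[simp] lemma coeff_sl (u : Wd) (x : T2 K) (v : Wd) : (sl u x).coeff v = x.coeff (u, v) := rfl

open Classical in
lemma sl_single (u a b : Wd) : sl u (single (a, b) 1 : T2 K) = if a = u then wd b else 0 := by
  ext v
  rw [coeff_sl, coeff_single, Finsupp.single_apply]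
  by_cases h : a = u
  · subst h
    rw [if_pos rfl, coeff_wd]
    simp
  · rw [if_neg h, if_neg]
    · rfl
    · intro h2; exact h (Prod.ext_iff.1 h2).1

open Classical in
lemma sl_i1_mul (u w : Wd) (F : T2 K) : sl u (i1 (wd w) * F) =
    if w.length ≤ u.length ∧ tk w.length u = w then sl (dr w.length u) F else 0 := by
  refine T2_ind (P := fun F => sl u (i1 (wd w) * F) =
    if w.length ≤ u.length ∧ tk w.length u = w then sl (dr w.length u) F else 0) ?_ ?_ ?_ ?_ F
  · simp
  · intro x y h h'
    rw [mul_add, map_add, h, h']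
    split_ifs <;> simp
  · intro c x h
    rw [mul_smul_comm, map_smul, h]
    split_ifs <;> simp
  · intro a b
    rw [i1_wd, single_mul_single, mul_one, Prod.mk_mul_mk, one_mul, sl_single]
    by_cases h : w * a = u
    · have h1 : w.length ≤ u.length := by rw [← h, FreeMonoid.length_mul]; omega
      have h2 : tk w.length u = w := by rw [← h, tk_mul rfl]
      have h3 : dr w.length u = a := by rw [← h, dr_mul rfl]
      rw [if_pos h, if_pos ⟨h1, h2⟩, h3, sl_single, if_pos rfl]
    · rw [if_neg h]
      split_ifs with h1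
      · rw [sl_single, if_neg]
        intro h2
        apply h
        rw [h2]
        conv_lhs => rw [← h1.2]
        rw [h1.2]
        conv_rhs => rw [← tk_mul_dr w.length u, h1.2]
      · rfl

lemma sl_i2_mul (u : Wd) (x : TT K) (F : T2 K) : sl u (i2 x * F) = x * sl u F := by
  refine T_ind (P := fun x => sl u (i2 x * F) = x * sl u F) ?_ ?_ ?_ ?_ x
  · simp
  · intro x y h h'; rw [map_add, add_mul, map_add, h, h', add_mul]
  · intro c x h; rw [map_smul, smul_mul_assoc, map_smul, h, smul_mul_assoc]
  · intro w
    refine T2_ind (P := fun F => sl u (i2 (wd w) * F) = wd w * sl u F) ?_ ?_ ?_ ?_ F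
    · simp
    · intro x y h h'; rw [mul_add, map_add, h, h', map_add, mul_add]
    · intro c x h; rw [mul_smul_comm, map_smul, h, map_smul, mul_smul_comm]
    · intro a b
      rw [i2_wd, single_mul_single, mul_one, Prod.mk_mul_mk, one_mul, sl_single, sl_single]
      split_ifs
      · rw [wd_mul]
      · rw [mul_zero]

open Classical in
lemma sl_mul_single (u p q : Wd) (F : T2 K) : sl u (F * single (p, q) 1) =
    if p.length ≤ u.length ∧ dr (u.length - p.length) u = p then
      sl (tk (u.length - p.length) u) F * wd q else 0 := by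
  refine T2_ind (P := fun F => sl u (F * single (p, q) 1) =
    if p.length ≤ u.length ∧ dr (u.length - p.length) u = p then
      sl (tk (u.length - p.length) u) F * wd q else 0) ?_ ?_ ?_ ?_ F
  · simp
  · intro x y h h'
    rw [add_mul, map_add, h, h']
    split_ifs
    · rw [map_add, add_mul]
    · rw [add_zero]
  · intro c x h
    rw [smul_mul_assoc, map_smul, h]
    split_ifs
    · rw [map_smul, smul_mul_assoc]
    · rw [smul_zero]
  · intro a b
    rw [single_mul_single, mul_one, Prod.mk_mul_mk, sl_single]
    by_cases h : a * p = u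
    · have hl : u.length = a.length + p.length := by rw [← h, FreeMonoid.length_mul]
      have e : u.length - p.length = a.length := by omega
      have h2 : dr a.length u = p := by rw [← h, dr_mul rfl]
      have h3 : tk a.length u = a := by rw [← h, tk_mul rfl]
      rw [if_pos h, e, h2, h3, if_pos ⟨by omega, rfl⟩, sl_single, if_pos rfl, wd_mul]
    · rw [if_neg h]
      split_ifs with h1
      · rw [sl_single, if_neg, zero_mul]
        intro h2
        apply h
        rw [h2]
        conv_lhs => rw [← h1.2]
        rw [h1.2]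
        conv_rhs => rw [← tk_mul_dr (u.length - p.length) u, h1.2]
      · rfl

lemma sl_one_cop (x : TT K) : sl 1 (cop x) = x := by
  refine T_ind (P := fun x => sl 1 (cop x) = x) ?_ ?_ ?_ ?_ x
  · simp
  · intro x y h h'; rw [map_add, map_add, h, h']
  · intro c x h; rw [map_smul, map_smul, h]
  · intro w
    refine word_ind (P := fun w => sl 1 (cop (wd w : TT K)) = wd w) ?_ ?_ w
    · rw [wd_one, map_one]
      have : (1 : T2 K) = single (1, 1) 1 := rfl
      rw [this, sl_single, if_pos rfl, wd_one]
    · intro a w ih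
      rw [wd_mul, map_mul, cop_of, add_mul, map_add, sl_i1_mul, sl_i2_mul, ih, if_neg, zero_add]
      simp

/-- elements all of whose slices lie in the right ideal generated by `W` -/
noncomputable def RI (W : Submodule K (TT K)) : Submodule K (T2 K) :=
  ⨅ u : Wd, (W * ⊤).comap (sl u)

lemma mem_RI {W : Submodule K (TT K)} {F : T2 K} :
    F ∈ RI W ↔ ∀ u, sl u F ∈ W * (⊤ : Submodule K (TT K)) := by
  simp [RI]

lemma RI_mul {W : Submodule K (TT K)} {F : T2 K} (hF : F ∈ RI W) (G : T2 K) : F * G ∈ RI W := by
  refine T2_ind (P := fun G => F * G ∈ RI W) ?_ ?_ ?_ ?_ G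
  · rw [mul_zero]; exact Submodule.zero_mem _
  · intro x y h h'; rw [mul_add]; exact Submodule.add_mem _ h h'
  · intro c x h; rw [mul_smul_comm]; exact Submodule.smul_mem _ _ h
  · intro p q
    rw [mem_RI] at hF ⊢
    intro u
    rw [sl_mul_single]
    split_ifs
    · have h := hF (tk (u.length - p.length) u)
      have h2 := Submodule.mul_mem_mul h (Submodule.mem_top (x := (wd q : TT K)))
      rw [mul_assoc] at h2
      exact Submodule.mul_le.2 (fun x hx y _ => Submodule.mul_mem_mul hx Submodule.mem_top) h2
    · exact Submodule.zero_mem _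

lemma RI_i1 {W : Submodule K (TT K)} {F : T2 K} (hF : F ∈ RI W) (x : TT K) : i1 x * F ∈ RI W := by
  refine T_ind (P := fun x => i1 x * F ∈ RI W) ?_ ?_ ?_ ?_ x
  · rw [map_zero, zero_mul]; exact Submodule.zero_mem _
  · intro x y h h'; rw [map_add, add_mul]; exact Submodule.add_mem _ h h'
  · intro c x h; rw [map_smul, smul_mul_assoc]; exact Submodule.smul_mem _ _ h
  · intro w
    rw [mem_RI] at hF ⊢
    intro u
    rw [sl_i1_mul]
    split_ifs
    · exact hF _
    · exact Submodule.zero_mem _

lemma RI_i2 {W : Submodule K (TT K)} {x : TT K} (hx : x ∈ W) (F : T2 K) : i2 x * F ∈ RI W := by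
  rw [mem_RI]
  intro u
  rw [sl_i2_mul]
  exact Submodule.mul_mem_mul hx Submodule.mem_top

/-- primitive elements -/
noncomputable def Prim (K : Type*) [Field K] : Submodule K (TT K) :=
  LinearMap.eqLocus (cop (K := K)).toLinearMap ((i1 (K := K)).toLinearMap + (i2 (K := K)).toLinearMap)

lemma mem_Prim {x : TT K} : x ∈ Prim K ↔ cop x = i1 x + i2 x := Iff.rfl

lemma i1_i2_comm (x y : TT K) : i1 x * i2 y = i2 y * i1 x := by
  refine T_ind (P := fun x => i1 x * i2 y = i2 y * i1 x) ?_ ?_ ?_ ?_ x
  · simp
  · intro x y h h'; rw [map_add, add_mul, mul_add, h, h']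
  · intro c x h; rw [map_smul, smul_mul_assoc, mul_smul_comm, h]
  · intro w
    refine T_ind (P := fun y => i1 (wd w) * i2 y = i2 y * i1 (wd w)) ?_ ?_ ?_ ?_ y
    · simp
    · intro x y h h'; rw [map_add, add_mul, mul_add, h, h']
    · intro c x h; rw [map_smul, smul_mul_assoc, mul_smul_comm, h]
    · intro v
      rw [i1_wd, i2_wd, single_mul_single, single_mul_single]
      simp

lemma Prim_comm {x y : TT K} (hx : x ∈ Prim K) (hy : y ∈ Prim K) : x * y - y * x ∈ Prim K := by
  rw [mem_Prim] at *
  rw [map_sub, map_mul, map_mul, hx, hy, map_sub, map_sub, map_mul, map_mul, map_mul, map_mul]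
  have h1 := i1_i2_comm x y
  have h2 := i1_i2_comm y x
  simp only [add_mul, mul_add]
  rw [h1, h2]
  abel

/-- Lie elements -/
inductive IsLie : TT K → Prop
  | letter (a : ℕ × ℕ) : IsLie (wd (FreeMonoid.of a))
  | zero : IsLie 0
  | add (x y : TT K) : IsLie x → IsLie y → IsLie (x + y)
  | smul (c : K) (x : TT K) : IsLie x → IsLie (c • x)
  | comm (x y : TT K) : IsLie x → IsLie y → IsLie (x * y - y * x)

lemma IsLie.prim {x : TT K} (h : IsLie x) : x ∈ Prim K := by
  induction h with
  | letter a => rw [mem_Prim, cop_of]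
  | zero => exact Submodule.zero_mem _
  | add x y _ _ hx hy => exact Submodule.add_mem _ hx hy
  | smul c x _ hx => exact Submodule.smul_mem _ _ hx
  | comm x y _ _ hx hy => exact Prim_comm hx hy

lemma IsLie.D {x : TT K} (h : IsLie x) : IsLie (H25.D x) := by
  induction h with
  | letter a => rw [H25.D, der_of]; exact IsLie.letter _
  | zero => rw [map_zero]; exact IsLie.zero
  | add x y _ _ hx hy => rw [map_add]; exact IsLie.add _ _ hx hy
  | smul c x _ hx => rw [map_smul]; exact IsLie.smul _ _ hx
  | comm x y h1 h2 hx hy =>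
    have : H25.D (x * y - y * x) = (H25.D x * y - y * H25.D x) + (x * H25.D y - H25.D y * x) := by
      rw [map_sub, D_mul, D_mul]; abel
    rw [this]
    exact IsLie.add _ _ (IsLie.comm _ _ hx h2) (IsLie.comm _ _ h1 hy)

/-- slices of a product with a first factor of the right length -/
lemma sl_i1_eq {n : ℕ} {b : TT K} (hb : b ∈ len K n) (F : T2 K) {u : Wd} (hu : u.length = n) :
    sl u (i1 b * F) = b.coeff u • sl 1 F := by
  classical
  refine len_ind (P := fun b => sl u (i1 b * F) = b.coeff u • sl 1 F) ?_ ?_ ?_ ?_ hb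
  · simp
  · intro x y h h'; rw [map_add, add_mul, map_add, h, h', coeff_add, Finsupp.add_apply, add_smul]
  · intro c x h
    rw [map_smul, smul_mul_assoc, map_smul, h, coeff_smul, Finsupp.smul_apply, smul_smul, smul_eq_mul]
  · intro w hw
    rw [sl_i1_mul, coeff_wd]
    by_cases h : w = u
    · subst h
      have h1 : tk w.length w = w := by
        have := tk_mul (a := w.length) (u := w) (v := 1) rfl
        rwa [mul_one] at this
      have h2 : dr w.length w = 1 := by
        have := dr_mul (a := w.length) (u := w) (v := 1) rfl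
        rwa [mul_one] at this
      rw [if_pos ⟨le_rfl, h1⟩, if_pos rfl, h2, one_smul]
    · rw [if_neg h, zero_smul, if_neg]
      rintro ⟨h1, h2⟩
      apply h
      have h3 : tk w.length u = u := by
        have := tk_mul (a := w.length) (u := u) (v := 1) (by omega)
        rwa [mul_one] at this
      rw [← h2, h3]

lemma sl_i1_gt {n : ℕ} {b : TT K} (hb : b ∈ len K n) (F : T2 K) {u : Wd} (hu : u.length < n) :
    sl u (i1 b * F) = 0 := by
  refine len_ind (P := fun b => sl u (i1 b * F) = 0) ?_ ?_ ?_ ?_ hb
  · simp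
  · intro x y h h'; rw [map_add, add_mul, map_add, h, h', add_zero]
  · intro c x h; rw [map_smul, smul_mul_assoc, map_smul, h, smul_zero]
  · intro w hw
    rw [sl_i1_mul, if_neg]
    rintro ⟨h1, _⟩
    omega

lemma sl_prim {k : ℕ} {x : TT K} (hx : x ∈ len K k) (hp : x ∈ Prim K) {u : Wd} (hu : u.length ≠ k)
    (hu0 : u.length ≠ 0) : sl u (cop x) = 0 := by
  classical
  rw [mem_Prim.1 hp, map_add]
  have h1 : sl u (i2 x) = 0 := by
    have := sl_i2_mul u x (1 : T2 K)
    rw [mul_one] at this
    rw [this]
    have h2 : (1 : T2 K) = single (1, 1) 1 := rfl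
    rw [h2, sl_single, if_neg, mul_zero]
    rintro rfl
    simp at hu0
  rw [h1, add_zero]
  refine len_ind (P := fun x => sl u (i1 x) = 0) ?_ ?_ ?_ ?_ hx
  · simp
  · intro x y h h'; rw [map_add, map_add, h, h', add_zero]
  · intro c x h; rw [map_smul, map_smul, h, smul_zero]
  · intro w hw
    rw [i1_wd, sl_single, if_neg]
    rintro rfl
    exact hu hw

/-- apply a linear map to the part of words after position `b` -/
noncomputable def Rb (b : ℕ) (g : TT K →ₗ[K] TT K) : TT K →ₗ[K] TT K :=
  lin (fun w => wd (tk b w) * g (wd (dr b w)))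

lemma Rb_mul {b : ℕ} (g : TT K →ₗ[K] TT K) {x : TT K} (hx : x ∈ len K b) (y : TT K) :
    Rb b g (x * y) = x * g y := by
  refine len_ind (P := fun x => Rb b g (x * y) = x * g y) ?_ ?_ ?_ ?_ hx
  · simp
  · intro x x' h h'; rw [add_mul, map_add, h, h', add_mul]
  · intro c x h; rw [smul_mul_assoc, map_smul, h, smul_mul_assoc]
  · intro u hu
    refine T_ind (P := fun y => Rb b g (wd u * y) = wd u * g y) ?_ ?_ ?_ ?_ y
    · simp
    · intro x x' h h'; rw [mul_add, map_add, h, h', map_add, mul_add]
    · intro c x h; rw [mul_smul_comm, map_smul, h, map_smul, mul_smul_comm]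
    · intro v
      rw [← wd_mul, Rb, lin_wd, tk_mul hu, dr_mul hu]

/-- membership in a product from left slices -/
lemma mem_mul_of_sL {b : ℕ} {B W : Submodule K (TT K)} (hB : B ≤ len K b) {x : TT K}
    (hx : x ∈ B * (⊤ : Submodule K (TT K))) (h : ∀ u : Wd, u.length = b → sL u x ∈ W) : x ∈ B * W := by
  obtain ⟨g, hg⟩ := LinearMap.exists_leftInverse_of_injective W.subtype
    (LinearMap.ker_eq_bot.2 W.injective_subtype)
  have hg' : ∀ y ∈ W, W.subtype (g y) = y := by
    intro y hy
    have := congrArg (fun f => f ⟨y, hy⟩) hg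
    simp only [LinearMap.comp_apply, Submodule.subtype_apply, LinearMap.id_apply] at this
    rw [this]; rfl
  have h1 : Rb b (W.subtype ∘ₗ g) x ∈ B * W := by
    refine Submodule.mul_induction_on hx ?_ ?_
    · intro p hp t _
      rw [Rb_mul _ (hB hp)]
      exact Submodule.mul_mem_mul hp (g t).2
    · intro p q hp hq
      rw [map_add]
      exact Submodule.add_mem _ hp hq
  have h2 : ∀ u : Wd, u.length = b → sL u (Rb b (W.subtype ∘ₗ g) x) = W.subtype (g (sL u x)) := by
    intro u hu
    refine Submodule.mul_induction_on hx ?_ ?_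
    · intro p hp t _
      rw [Rb_mul _ (hB hp), sL_mul (hB hp) _ hu, sL_mul (hB hp) _ hu, map_smul, map_smul]; rfl
    · intro p q hp hq
      rw [map_add, map_add, hp, hq, map_add, map_add, map_add]
  have h3 : Rb b (W.subtype ∘ₗ g) x = x := by
    have key : ∀ z ∈ B * (⊤ : Submodule K (TT K)), (∀ u : Wd, u.length = b → sL u z = 0) → z = 0 := by
      intro z hz hzz
      ext w
      by_cases hw : b ≤ w.length
      · have := hzz (tk b w) (length_tk hw)
        have h5 : (sL (tk b w) z).coeff (dr b w) = 0 := by rw [this]; rfl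
        rw [coeff_sL, tk_mul_dr] at h5
        simpa using h5
      · refine Submodule.mul_induction_on (C := fun z => z.coeff w = (0 : TT K).coeff w) hz ?_ ?_
        · intro p hp t _
          rw [coeff_mul_left (hB hp)]
          have : (tk b w) = w := by
            unfold tk
            rw [List.take_of_length_le (by rw [← length_def]; omega), FreeMonoid.ofList_toList]
          rw [this, mem_len.1 (hB hp) w (by omega)]
          simp
        · intro p q hp hq
          rw [coeff_add, Finsupp.add_apply, hp, hq]; simp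
    have h4 := key (Rb b (W.subtype ∘ₗ g) x - x) ?_ ?_
    · exact sub_eq_zero.1 h4
    · refine Submodule.sub_mem _ ?_ hx
      exact Submodule.mul_le.2 (fun p hp q _ => Submodule.mul_mem_mul hp Submodule.mem_top) h1
    · intro u hu
      rw [map_sub, h2 u hu, hg' _ (h u hu), sub_self]
  rw [← h3]
  exact h1

end Pool.Agent.H25
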