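import Pool.Agent.H25.Ev

/-! Cancellation of powers of the derivation. -/

namespace Pool.Agent.H25

open MonoidAlgebra

variable {K : Type*} [Field K]

lemma range_isum (z : ℕ → K) (k : ℕ) : ∑ p ∈ Finset.range k, z p = isum z 0 k := by
  rw [isum, Finset.range_eq_Ico]

lemma D_inj [Infinite K] {k : ℕ} (hk : 1 ≤ k) {x : TT K} (hx : x ∈ len K k) (h : D x = 0) :
    x = 0 := by
  by_contra h0
  obtain ⟨z, hz, hs⟩ := exists_Ev hx h0
  have h1 := Ev_D z hx
  rw [h, map_zero, range_isum] at h1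
  rcases smul_eq_zero.1 h1.symm with h2 | h2
  · exact hs 0 k (by omega) le_rfl h2
  · exact hz h2

lemma Dpow_len {k : ℕ} (r : ℕ) {x : TT K} (hx : x ∈ len K k) : (D ^ r) x ∈ len K k := by
  induction r with
  | zero => simpa using hx
  | succ r ih => rw [pow_succ', Module.End.mul_apply]; exact D_len ih

lemma Dpow_inj [Infinite K] {k : ℕ} (hk : 1 ≤ k) (r : ℕ) {x : TT K} (hx : x ∈ len K k)
    (h : (D ^ r) x = 0) : x = 0 := by
  induction r with
  | zero => simpa using h
  | succ r ih =>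
    rw [pow_succ', Module.End.mul_apply] at h
    exact ih (D_inj hk (Dpow_len r hx) h)

/-- value at a point with vanishing sum kills the image of `D` -/
lemma Ev_D_zero {k : ℕ} {x : TT K} (z : ℕ → K) (hx : x ∈ len K k) (hz : isum z 0 k = 0) :
    Ev z (D x) = 0 := by
  rw [Ev_D z hx, range_isum, hz, zero_smul]

/-- the weights `z` on the first `k` positions, `c` times `z'` afterwards -/
def glue (k : ℕ) (z z' : ℕ → K) (c : K) : ℕ → K := fun n => if n < k then z n else c * z' (n - k)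

lemma glue_shift (k : ℕ) (z z' : ℕ → K) (c : K) : (fun n => glue k z z' c (n + k)) = fun n => c * z' n := by
  funext n
  unfold glue
  rw [if_neg (by omega), Nat.add_sub_cancel]

lemma isum_glue (k l : ℕ) (z z' : ℕ → K) (c : K) :
    isum (glue k z z' c) 0 (k + l) = isum z 0 k + c * isum z' 0 l := by
  unfold isum
  rw [← Finset.range_eq_Ico, ← Finset.range_eq_Ico, ← Finset.range_eq_Ico, Finset.sum_range_add,
    Finset.mul_sum]
  congr 1
  · apply Finset.sum_congr rfl
    intro n hn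
    rw [Finset.mem_range] at hn
    unfold glue
    rw [if_pos hn]
  · apply Finset.sum_congr rfl
    intro n hn
    unfold glue
    rw [if_neg (by omega), Nat.add_sub_cancel_left]

lemma not_image_D [Infinite K] {k l N M : ℕ} (hl : 1 ≤ l) (hlk : l ≤ k) {x y : TT K}
    (hx : x ∈ bi K k N) (hy : y ∈ bi K l M) (hx0 : x ≠ 0) (hy0 : y ≠ 0) {g : TT K}
    (hg : g ∈ len K (k + l)) (h : R0 x * R1 y - R1 y * R0 x = D g) : False := by
  obtain ⟨z, hz, hs⟩ := exists_Ev (bi_le_len _ _ hx) hx0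
  obtain ⟨z', hz', hs'⟩ := exists_Ev (bi_le_len _ _ hy) hy0
  set c : K := -(isum z 0 k) / isum z' 0 l with hc
  have h1 : isum z 0 k ≠ 0 := hs 0 k (by omega) le_rfl
  have h2 : isum z' 0 l ≠ 0 := hs' 0 l (by omega) le_rfl
  have hc0 : c ≠ 0 := div_ne_zero (neg_ne_zero.2 h1) h2
  have hsum : isum (glue k z z' c) 0 (k + l) = 0 := by
    rw [isum_glue, hc]
    field_simp
    ring
  have h3 := congrArg (Ev (glue k z z' c)) h
  rw [Ev_D_zero _ hg hsum, map_sub] at h3
  have hRx : (R0 x : TT K) ∈ len K k := hv_len _ (bi_le_len _ _ hx)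
  have hRy : (R1 y : TT K) ∈ len K l := hv_len _ (bi_le_len _ _ hy)
  rw [Ev_mul _ hRx, Ev_mul _ hRy, glue_shift] at h3
  have e1 : Ev (glue k z z' c) (R0 x) = R0 (Ev z x) := by
    rw [← Ev_congr (k := k) (z := z) hRx]
    · exact Ev_hv _ x z
    · intro n hn; unfold glue; rw [if_pos hn]
  have e2 : Ev (fun n => c * z' n) (R1 y) = c ^ M • R1 (Ev z' y) := by
    rw [← map_smul, ← Ev_scale z' c hy]
    exact Ev_hv _ y _
  have e3 : Ev (glue k z z' c) (R1 y) = R1 (Ev (glue k z z' c) y) := Ev_hv _ y _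
  have e4 : Ev (fun n => glue k z z' c (n + l)) (R0 x) = R0 (Ev (fun n => glue k z z' c (n + l)) x) :=
    Ev_hv _ x _
  rw [e1, e2, e3, e4] at h3
  obtain ⟨v, hv⟩ := exists_coeff_ne hz'
  have hvl := length_of_coeff_ne (Ev_len z' (bi_le_len _ _ hy)) hv
  have h4 := congrArg (sg v) h3
  have m1 : (Ev z' y) ∈ len K l := Ev_len _ (bi_le_len _ _ hy)
  have m2 : (Ev (glue k z z' c) y) ∈ len K l := Ev_len _ (bi_le_len _ _ hy)
  have m3 : (Ev (fun n => glue k z z' c (n + l)) x) ∈ len K k := Ev_len _ (bi_le_len _ _ hx)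
  have m1' : R1 (Ev z' y) ∈ len K l := hv_len _ m1
  have m3' : R0 (Ev (fun n => glue k z z' c (n + l)) x) ∈ len K k := hv_len _ m3
  rw [map_sub, map_zero, mul_smul_comm, map_smul, sg_apply, sg_apply,
    sR_mul_eq _ m1' (by rw [length_m1, hvl]), coeff_R1, map_smul, P0_R0,
    sR_mul _ m3' (by rw [length_m1, hvl]; exact hlk), map_mul, P0_R1 hl m2, zero_mul, sub_zero] at h4
  have h5 := smul_eq_zero.1 h4
  rcases h5 with h5 | h5
  · exact pow_ne_zero _ hc0 h5
  · rcases smul_eq_zero.1 h5 with h6 | h6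
    · exact hv h6
    · exact hz h6

/-- the bracket of two bihomogeneous closed nonzero spaces is not in the image of `D` -/
lemma br_not_image [Infinite K] {k l N M : ℕ} (hk : 1 ≤ k) (hl : 1 ≤ l) {X Y : Submodule K (TT K)}
    (hX : X ≤ bi K k N) (hY : Y ≤ bi K l M) (cX : Clo X) (cY : Clo Y) (nX : X ≠ ⊥) (nY : Y ≠ ⊥)
    (h : ∀ f ∈ br X Y, ∃ g ∈ len K (k + l), f = D g) : False := by
  obtain ⟨x, hx, hx0⟩ := Submodule.exists_mem_ne_zero_of_ne_bot nX
  obtain ⟨y, hy, hy0⟩ := Submodule.exists_mem_ne_zero_of_ne_bot nY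
  rcases le_total l k with hlk | hlk
  · obtain ⟨g, hg, e⟩ := h _ (mem_br (cX _ _ hx) (cY _ _ hy) : R0 x * R1 y - R1 y * R0 x ∈ br X Y)
    exact not_image_D hl hlk (hX hx) (hY hy) hx0 hy0 hg e
  · rw [br_comm] at h
    obtain ⟨g, hg, e⟩ := h _ (mem_br (cY _ _ hy) (cX _ _ hx) : R0 y * R1 x - R1 x * R0 y ∈ br Y X)
    rw [add_comm] at hg
    exact not_image_D hk hlk (hY hy) (hX hx) hy0 hx0 hg e

lemma br_ne_bot {k l : ℕ} (hk : 1 ≤ k) (hl : 1 ≤ l) {X Y : Submodule K (TT K)}
    (hX : X ≤ len K k) (hY : Y ≤ len K l) (cX : Clo X) (cY : Clo Y) (nX : X ≠ ⊥) (nY : Y ≠ ⊥) :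
    br X Y ≠ ⊥ := by
  obtain ⟨x, hx, hx0⟩ := Submodule.exists_mem_ne_zero_of_ne_bot nX
  obtain ⟨y, hy, hy0⟩ := Submodule.exists_mem_ne_zero_of_ne_bot nY
  intro h
  rcases le_total l k with hlk | hlk
  · have h1 : R0 x * R1 y - R1 y * R0 x ∈ br X Y := mem_br (cX _ _ hx) (cY _ _ hy)
    rw [h, Submodule.mem_bot] at h1
    obtain ⟨v, hv⟩ := exists_coeff_ne hy0
    have h2 := sg_R hl hlk (hX hx) (hY hy) (length_of_coeff_ne (hY hy) hv)
    rw [h1, map_zero] at h2
    rcases smul_eq_zero.1 h2.symm with h3 | h3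
    · exact hv h3
    · exact hx0 h3
  · have h1 : R0 y * R1 x - R1 x * R0 y ∈ br Y X := mem_br (cY _ _ hy) (cX _ _ hx)
    rw [br_comm, h, Submodule.mem_bot] at h1
    obtain ⟨v, hv⟩ := exists_coeff_ne hx0
    have h2 := sg_R hk hlk (hY hy) (hX hx) (length_of_coeff_ne (hX hx) hv)
    rw [h1, map_zero] at h2
    rcases smul_eq_zero.1 h2.symm with h3 | h3
    · exact hv h3
    · exact hy0 h3

lemma br_len {k l : ℕ} {X Y : Submodule K (TT K)} (hX : X ≤ len K k) (hY : Y ≤ len K l) :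
    br X Y ≤ len K (k + l) := by
  rw [br_le]
  intro x hx y hy
  refine Submodule.sub_mem _ (len_mul (hX hx) (hY hy)) ?_
  rw [add_comm]
  exact len_mul (hY hy) (hX hx)

lemma br_bi {k l N M : ℕ} {X Y : Submodule K (TT K)} (hX : X ≤ bi K k N) (hY : Y ≤ bi K l M) :
    br X Y ≤ bi K (k + l) (N + M) := by
  rw [br_le]
  intro x hx y hy
  refine Submodule.sub_mem _ (bi_mul (hX hx) (hY hy)) ?_
  rw [add_comm k, add_comm N]
  exact bi_mul (hY hy) (hX hx)

/-- cancellation of the decorations at the root -/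
theorem root_cancel [Infinite K] {k l k' l' N M N' M' : ℕ} (hk : 1 ≤ k) (hl : 1 ≤ l) (hk' : 1 ≤ k')
    (hl' : 1 ≤ l') (hkl : k + l = k' + l') {X Y X' Y' : Submodule K (TT K)}
    (hX : X ≤ bi K k N) (hY : Y ≤ bi K l M) (cX : Clo X) (cY : Clo Y) (nX : X ≠ ⊥) (nY : Y ≠ ⊥)
    (hX' : X' ≤ bi K k' N') (hY' : Y' ≤ bi K l' M') (cX' : Clo X') (cY' : Clo Y') (nX' : X' ≠ ⊥)
    (nY' : Y' ≠ ⊥) {r s : ℕ} (h : (br X Y).map (D ^ r) = (br X' Y').map (D ^ s)) :
    r = s ∧ br X Y = br X' Y' := by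
  have l1 : br X Y ≤ len K (k + l) := br_len (hX.trans (bi_le_len _ _)) (hY.trans (bi_le_len _ _))
  have l2 : br X' Y' ≤ len K (k + l) := by
    rw [hkl]; exact br_len (hX'.trans (bi_le_len _ _)) (hY'.trans (bi_le_len _ _))
  have hkl1 : 1 ≤ k + l := by omega
  have hrs : r = s := by
    rcases lt_trichotomy r s with hrs | hrs | hrs
    · exfalso
      obtain ⟨d, rfl⟩ : ∃ d, s = r + d + 1 := ⟨s - r - 1, by omega⟩
      refine br_not_image hk hl hX hY cX cY nX nY (fun f hf => ?_)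
      have h1 : (D ^ r) f ∈ (br X' Y').map (D ^ (r + d + 1)) := by
        rw [← h]; exact Submodule.mem_map_of_mem hf
      obtain ⟨g, hg, e⟩ := h1
      refine ⟨(D ^ d) g, Dpow_len _ (l2 hg), ?_⟩
      have h2 : (D ^ r) (f - D ((D ^ d) g)) = 0 := by
        rw [map_sub, ← e, add_assoc, pow_add, pow_succ', Module.End.mul_apply, Module.End.mul_apply,
          sub_self]
      exact sub_eq_zero.1 (Dpow_inj hkl1 r (Submodule.sub_mem _ (l1 hf) (D_len (Dpow_len _ (l2 hg)))) h2)
    · exact hrs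
    · exfalso
      obtain ⟨d, rfl⟩ : ∃ d, r = s + d + 1 := ⟨r - s - 1, by omega⟩
      refine br_not_image hk' hl' hX' hY' cX' cY' nX' nY' (fun f hf => ?_)
      have h1 : (D ^ s) f ∈ (br X Y).map (D ^ (s + d + 1)) := by
        rw [h]; exact Submodule.mem_map_of_mem hf
      obtain ⟨g, hg, e⟩ := h1
      refine ⟨(D ^ d) g, by rw [← hkl]; exact Dpow_len _ (l1 hg), ?_⟩
      have h2 : (D ^ s) (f - D ((D ^ d) g)) = 0 := by
        rw [map_sub, ← e, add_assoc, pow_add, pow_succ', Module.End.mul_apply, Module.End.mul_apply,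
          sub_self]
      exact sub_eq_zero.1 (Dpow_inj hkl1 s (Submodule.sub_mem _ (l2 hf) (D_len (Dpow_len _ (l1 hg)))) h2)
  subst hrs
  refine ⟨rfl, le_antisymm ?_ ?_⟩
  · intro f hf
    have h1 : (D ^ r) f ∈ (br X' Y').map (D ^ r) := by
      rw [← h]; exact Submodule.mem_map_of_mem hf
    obtain ⟨g, hg, e⟩ := h1
    have h2 : (D ^ r) (f - g) = 0 := by rw [map_sub, ← e, sub_self]
    rw [sub_eq_zero.1 (Dpow_inj hkl1 r (Submodule.sub_mem _ (l1 hf) (l2 hg)) h2)]
    exact hg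
  · intro f hf
    have h1 : (D ^ r) f ∈ (br X Y).map (D ^ r) := by
      rw [h]; exact Submodule.mem_map_of_mem hf
    obtain ⟨g, hg, e⟩ := h1
    have h2 : (D ^ r) (f - g) = 0 := by rw [map_sub, ← e, sub_self]
    rw [sub_eq_zero.1 (Dpow_inj hkl1 r (Submodule.sub_mem _ (l2 hf) (l1 hg)) h2)]
    exact hg

/-- scaling argument: no nonzero bihomogeneous element of `C T` is a derivative -/
theorem scaling [Infinite K] {c k M N : ℕ} (hc : 1 ≤ c) (hck : c < k) {C : Submodule K (TT K)}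
    (hC : C ≤ bi K c M) {f g : TT K} (hf : f ∈ bi K k N) (hfC : f ∈ C * (⊤ : Submodule K (TT K)))
    (hg : g ∈ len K k) (h : f = D g) : f = 0 := by
  by_contra hf0
  obtain ⟨z, hz, hs⟩ := exists_Ev (bi_le_len _ _ hf) hf0
  -- support of f
  have hsupp : ∀ w : Wd, f.coeff w ≠ 0 → wt (tk c w) = M := by
    intro w hw
    by_contra hcon
    apply hw
    refine Submodule.mul_induction_on (C := fun f => f.coeff w = 0) hfC ?_ ?_
    · intro p hp t _
      rw [coeff_mul_left (bi_le_len _ _ (hC hp)), mem_bi.1 (hC hp) (tk c w) (fun h => hcon h.2), zero_mul]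
    · intro x y h h'
      rw [coeff_add, Finsupp.add_apply, h, h', add_zero]
  set s1 := isum z 0 c with hs1
  set s2 := isum z c k with hs2
  have h1 : s1 ≠ 0 := hs 0 c (by omega) (by omega)
  have h2 : s2 ≠ 0 := hs c k hck le_rfl
  set a : K := -s1 / s2 with ha
  have ha0 : a ≠ 0 := div_ne_zero (neg_ne_zero.2 h1) h2
  let z' : ℕ → K := glue c z (fun n => z (n + c)) a
  have hz'sum : isum z' 0 k = 0 := by
    obtain ⟨l, rfl⟩ := Nat.exists_eq_add_of_lt hck
    have e : c + l + 1 = c + (l + 1) := by ring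
    rw [e] at hs2 ⊢
    rw [isum_glue, ← hs1]
    have e2 : isum (fun n => z (n + c)) 0 (l + 1) = s2 := by
      rw [hs2, isum, isum, Finset.sum_Ico_add' (fun p => z p) 0 (l + 1) c]
      congr 2
      · ring
      · ring
    rw [e2, ha]
    field_simp
    ring
  have hEv : ∀ w : Wd, w.length = k → wt w = N → wt (tk c w) = M →
      evS z' w.toList = a ^ (N - M) * evS z w.toList := by
    intro w hw hN hM
    have e1 : w.toList = (tk c w).toList ++ (dr c w).toList := by
      conv_lhs => rw [← tk_mul_dr c w]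
      rw [FreeMonoid.toList_mul]
    have hl1 : (tk c w).toList.length = c := by rw [← length_def]; exact length_tk (by omega)
    rw [e1, evS_append, evS_append, hl1]
    have e2 : evS z' (tk c w).toList = evS z (tk c w).toList := by
      apply evS_congr
      intro n hn
      rw [hl1] at hn
      change glue c z (fun n => z (n + c)) a n = z n
      unfold glue
      rw [if_pos hn]
    have e3 : (fun n => z' (n + c)) = fun n => a * z (n + c) := glue_shift c z _ a
    have e4 : ((dr c w).toList.map Prod.snd).sum = N - M := by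
      have := wt_mul (tk c w) (dr c w)
      rw [tk_mul_dr, hN, hM] at this
      change wt (dr c w) = N - M
      omega
    rw [e2, e3, evS_scale (fun n => z (n + c)) a, e4]
    ring
  have key : ∀ x ∈ supported K K {w : Wd | w.length = k ∧ wt w = N ∧ wt (tk c w) = M},
      Ev z' x = a ^ (N - M) • Ev z x := by
    intro x hx
    rw [supported_eq_span_single] at hx
    clear hfC hf hf0 hsupp h hg
    induction hx using Submodule.span_induction with
    | mem x hx =>
      obtain ⟨w, ⟨hw1, hw2, hw3⟩, rfl⟩ := hx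
      change Ev z' (wd w) = a ^ (N - M) • Ev z (wd w)
      rw [Ev_wd, Ev_wd, hEv w hw1 hw2 hw3, smul_smul]
    | zero => simp
    | add x y _ _ hx hy => rw [map_add, map_add, hx, hy, smul_add]
    | smul b x _ hx => rw [map_smul, map_smul, hx, smul_comm]
  have hfin : Ev z' f = a ^ (N - M) • Ev z f := by
    have hmem : f ∈ supported K K {w : Wd | w.length = k ∧ wt w = N ∧ wt (tk c w) = M} := by
      rw [mem_supported']
      intro w hw
      by_contra hcon
      apply hw
      have h5 : w.length = k ∧ wt w = N := by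
        by_contra h6
        exact hcon (mem_bi.1 hf w h6)
      exact ⟨h5.1, h5.2, hsupp w hcon⟩
    exact key f hmem
  rw [h, Ev_D_zero z' hg hz'sum] at hfin
  rw [h] at hz
  rcases smul_eq_zero.1 hfin.symm with h5 | h5
  · exact pow_ne_zero _ ha0 h5
  · exact hz h5

end Pool.Agent.H25
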