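import Pool.Agent.H25.Root
import Pool.Agent.H25.LB

/-! Plain and decorated binary trees and their subspaces. -/

namespace Pool.Agent.H25

open MonoidAlgebra

/-- plain binary trees -/
inductive BT where
  | leaf : BT
  | node : BT → BT → BT

/-- binary trees with a number at every vertex -/
inductive DT where
  | leaf : ℕ → DT
  | node : ℕ → DT → DT → DT

namespace BT

/-- number of leaves -/
def lv : BT → ℕ
  | leaf => 1
  | node a b => lv a + lv b

/-- isomorphism of trees with unordered children -/
inductive Iso : BT → BT → Prop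
  | leaf : Iso leaf leaf
  | node {a b c d : BT} : Iso a c → Iso b d → Iso (node a b) (node c d)
  | swap {a b c d : BT} : Iso a d → Iso b c → Iso (node a b) (node c d)

lemma lv_pos : ∀ t : BT, 1 ≤ lv t
  | leaf => le_rfl
  | node a b => by have := lv_pos a; rw [lv]; omega

lemma Iso.refl : ∀ t : BT, Iso t t
  | BT.leaf => Iso.leaf
  | BT.node a b => Iso.node (Iso.refl a) (Iso.refl b)

lemma Iso.symm {s t : BT} (h : Iso s t) : Iso t s := by
  induction h with
  | leaf => exact Iso.leaf
  | node _ _ h1 h2 => exact Iso.node h1 h2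
  | swap _ _ h1 h2 => exact Iso.swap h2 h1

lemma Iso.lv_eq {s t : BT} (h : Iso s t) : lv s = lv t := by
  induction h with
  | leaf => rfl
  | node _ _ h1 h2 => rw [lv, lv, h1, h2]
  | swap _ _ h1 h2 => rw [lv, lv, h1, h2, add_comm]

/-- the tree of cherries: forget the leaves whose sibling is not a leaf -/
def core : BT → BT
  | leaf => leaf
  | node leaf b => core b
  | node (node a c) leaf => core (node a c)
  | node (node a c) (node b d) => node (core (node a c)) (core (node b d))

end BT

namespace DT

/-- number of leaves -/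
def lv : DT → ℕ
  | leaf _ => 1
  | node _ a b => lv a + lv b

/-- sum of the decorations -/
def dec : DT → ℕ
  | leaf r => r
  | node r a b => r + dec a + dec b

/-- forget the decorations -/
def shape : DT → BT
  | leaf _ => BT.leaf
  | node _ a b => BT.node (shape a) (shape b)

/-- add one at the root -/
def bump : DT → DT
  | leaf r => leaf (r + 1)
  | node r a b => node (r + 1) a b

/-- isomorphism of decorated trees with unordered children -/
inductive Iso : DT → DT → Prop
  | leaf (r : ℕ) : Iso (leaf r) (leaf r)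
  | node {r : ℕ} {a b c d : DT} : Iso a c → Iso b d → Iso (node r a b) (node r c d)
  | swap {r : ℕ} {a b c d : DT} : Iso a d → Iso b c → Iso (node r a b) (node r c d)

lemma lv_pos : ∀ t : DT, 1 ≤ lv t
  | leaf _ => le_rfl
  | node _ a b => by have := lv_pos a; rw [lv]; omega

lemma lv_shape : ∀ t : DT, BT.lv (shape t) = lv t
  | leaf _ => rfl
  | node _ a b => by rw [shape, BT.lv, lv_shape a, lv_shape b, lv]

lemma lv_bump (t : DT) : lv (bump t) = lv t := by cases t <;> rfl

lemma dec_bump (t : DT) : dec (bump t) = dec t + 1 := by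
  cases t with
  | leaf r => rfl
  | node r a b => simp only [bump, dec]; ring

lemma shape_bump (t : DT) : shape (bump t) = shape t := by cases t <;> rfl

/-- no decorations at inner vertices, decoration `v` at each leaf -/
def Uni (v : ℕ) : DT → Prop
  | leaf r => r = v
  | node r a b => r = 0 ∧ Uni v a ∧ Uni v b

/-- the exceptional pairs (first component the larger tree) not covered by the method -/
def Trouble (A B : DT) : Prop :=
  2 ≤ lv B ∧ lv B < lv A ∧ lv B ∣ lv A ∧
  (∃ A1 A2, A = node 0 A1 A2 ∧ dec A1 * lv B = dec B * lv A1 ∧ dec A2 * lv B = dec B * lv A2) ∧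
  ¬ ∃ v, Uni v A ∧ Uni v B

/-- no exceptional pair of siblings -/
def NT : DT → Prop
  | leaf _ => True
  | node _ A B => ¬ Trouble A B ∧ ¬ Trouble B A ∧ NT A ∧ NT B

end DT

/-- the decorated tree of cherries: each forgotten leaf adds one to a decoration -/
def contract : BT → DT
  | BT.leaf => DT.leaf 0
  | BT.node BT.leaf b => (contract b).bump
  | BT.node (BT.node a c) BT.leaf => (contract (BT.node a c)).bump
  | BT.node (BT.node a c) (BT.node b d) => DT.node 0 (contract (BT.node a c)) (contract (BT.node b d))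

/-- good trees -/
def Good (s : BT) : Prop := ∀ t : ℕ, (contract (BT.core^[t] s)).NT

lemma shape_contract : ∀ s : BT, (contract s).shape = s.core
  | BT.leaf => rfl
  | BT.node BT.leaf b => by rw [contract, BT.core, DT.shape_bump, shape_contract b]
  | BT.node (BT.node a c) BT.leaf => by rw [contract, BT.core, DT.shape_bump, shape_contract]
  | BT.node (BT.node a c) (BT.node b d) => by
    rw [contract, BT.core, DT.shape, shape_contract, shape_contract]

section
variable (K : Type*) [Field K]

/-- span of the letters `(i, r)` -/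
noncomputable def V1 (r : ℕ) : Submodule K (TT K) :=
  Submodule.span K (Set.range (fun i : ℕ => (wd (FreeMonoid.of (i, r)) : TT K)))

/-- the subspace of a decorated tree -/
noncomputable def XX : DT → Submodule K (TT K)
  | DT.leaf r => V1 K r
  | DT.node r a b => (br (XX a) (XX b)).map (D ^ r)

/-- the subspace of a plain tree -/
noncomputable def X0 : BT → Submodule K (TT K)
  | BT.leaf => V1 K 0
  | BT.node a b => br (X0 a) (X0 b)

variable {K}

lemma V1_bi (r : ℕ) : V1 K r ≤ bi K 1 r := by
  rw [V1, Submodule.span_le]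
  rintro _ ⟨i, rfl⟩
  exact wd_mem_bi _

lemma letter_mem_V1 (i r : ℕ) : (wd (FreeMonoid.of (i, r)) : TT K) ∈ V1 K r :=
  Submodule.subset_span ⟨i, rfl⟩

lemma wd_ne_zero (w : Wd) : (wd w : TT K) ≠ 0 := by
  intro h
  have := congrArg (fun x : TT K => x.coeff w) h
  simp [coeff_wd] at this

lemma V1_ne_bot (r : ℕ) : V1 K r ≠ ⊥ := by
  intro h
  have := letter_mem_V1 (K := K) 0 r
  rw [h, Submodule.mem_bot] at this
  exact wd_ne_zero _ this

lemma V1_clo (r : ℕ) : Clo (V1 K r) := by
  intro g x hx
  have : V1 K r ≤ (V1 K r).comap (hv g).toLinearMap := by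
    conv_lhs => rw [V1]
    rw [Submodule.span_le]
    rintro _ ⟨i, rfl⟩
    change hv g (wd (FreeMonoid.of (i, r))) ∈ V1 K r
    rw [hv_of]
    cases h : g i with
    | none => exact Submodule.zero_mem _
    | some j => exact letter_mem_V1 _ _
  exact this hx

lemma V1_lie (r : ℕ) : ∀ x ∈ V1 K r, IsLie x := by
  intro x hx
  rw [V1] at hx
  induction hx using Submodule.span_induction with
  | mem x hx => obtain ⟨i, rfl⟩ := hx; exact IsLie.letter _
  | zero => exact IsLie.zero
  | add x y _ _ h h' => exact IsLie.add _ _ h h'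
  | smul c x _ h => exact IsLie.smul _ _ h

lemma D_V1 (r : ℕ) : (V1 K r).map D = V1 K (r + 1) := by
  rw [V1, V1, Submodule.map_span]
  congr 1
  ext x
  simp only [Set.mem_image, Set.mem_range]
  constructor
  · rintro ⟨_, ⟨i, rfl⟩, rfl⟩
    exact ⟨i, by rw [D, der_of]⟩
  · rintro ⟨i, rfl⟩
    exact ⟨_, ⟨i, rfl⟩, by rw [D, der_of]⟩

lemma br_clo {X Y : Submodule K (TT K)} (hX : Clo X) (hY : Clo Y) : Clo (br X Y) := by
  intro g x hx
  refine br_ind (C := fun x => hv g x ∈ br X Y) ?_ ?_ ?_ hx
  · rw [map_zero]; exact Submodule.zero_mem _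
  · intro x y h h'; rw [map_add]; exact Submodule.add_mem _ h h'
  · intro x hx y hy
    rw [map_sub, map_mul, map_mul]
    exact mem_br (hX _ _ hx) (hY _ _ hy)

lemma Dpow_clo {X : Submodule K (TT K)} (hX : Clo X) (r : ℕ) : Clo (X.map (D ^ r)) := by
  rintro g _ ⟨x, hx, rfl⟩
  rw [hv_Dpow]
  exact Submodule.mem_map_of_mem (hX _ _ hx)

lemma XX_clo : ∀ t : DT, Clo (XX K t)
  | DT.leaf r => V1_clo r
  | DT.node r a b => Dpow_clo (br_clo (XX_clo a) (XX_clo b)) r

lemma XX_bi : ∀ t : DT, XX K t ≤ bi K t.lv t.dec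
  | DT.leaf r => V1_bi r
  | DT.node r a b => by
    rw [XX, Submodule.map_le_iff_le_comap]
    intro x hx
    rw [Submodule.mem_comap]
    have h1 := Dpow_bi r (br_bi (XX_bi a) (XX_bi b) hx)
    have e : a.dec + b.dec + r = r + a.dec + b.dec := by ring
    rw [e] at h1
    exact h1

lemma XX_len (t : DT) : XX K t ≤ len K t.lv := (XX_bi t).trans (bi_le_len _ _)

lemma XX_lie : ∀ t : DT, ∀ x ∈ XX K t, IsLie x
  | DT.leaf r => V1_lie r
  | DT.node r a b => by
    rintro _ ⟨x, hx, rfl⟩
    have h1 : IsLie x := by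
      refine br_ind (C := IsLie) IsLie.zero (fun x y => IsLie.add x y) ?_ hx
      intro x hx y hy
      exact IsLie.comm _ _ (XX_lie a x hx) (XX_lie b y hy)
    clear hx
    induction r with
    | zero => simpa using h1
    | succ r ih =>
      rw [pow_succ', Module.End.mul_apply]
      exact ih.D

lemma XX_prim (t : DT) : XX K t ≤ Prim K := fun x hx => (XX_lie t x hx).prim

lemma XX_ne_bot [Infinite K] : ∀ t : DT, XX K t ≠ ⊥
  | DT.leaf r => V1_ne_bot r
  | DT.node r a b => by
    have h1 : br (XX K a) (XX K b) ≠ ⊥ :=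
      br_ne_bot a.lv_pos b.lv_pos (XX_len a) (XX_len b) (XX_clo a) (XX_clo b) (XX_ne_bot a) (XX_ne_bot b)
    intro h
    apply h1
    rw [eq_bot_iff]
    intro x hx
    have h2 : (D ^ r) x ∈ XX K (DT.node r a b) := Submodule.mem_map_of_mem hx
    rw [h, Submodule.mem_bot] at h2
    have h3 : x ∈ len K (a.lv + b.lv) := br_len (XX_len a) (XX_len b) hx
    have h4 := a.lv_pos
    rw [Submodule.mem_bot]
    exact Dpow_inj (by omega) r h3 h2

lemma XX_bump (t : DT) : XX K t.bump = (XX K t).map D := by
  cases t with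
  | leaf r => rw [DT.bump, XX, XX, D_V1]
  | node r a b =>
    rw [DT.bump, XX, XX, ← Submodule.map_comp, pow_succ']
    rfl

lemma X0_le_len : ∀ s : BT, X0 K s ≤ len K s.lv
  | BT.leaf => (V1_bi 0).trans (bi_le_len _ _)
  | BT.node a b => br_len (X0_le_len a) (X0_le_len b)

lemma X0_clo : ∀ s : BT, Clo (X0 K s)
  | BT.leaf => V1_clo 0
  | BT.node a b => br_clo (X0_clo a) (X0_clo b)

end

end Pool.Agent.H25
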