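import Pool.Agent.H25.Trees

/-! Decorated trees whose subspace contains a nonzero element with constant exponents. -/

namespace Pool.Agent.H25

open MonoidAlgebra

section
variable {K : Type*} [Field K]

/-- kill the letters whose exponent is not `v` -/
noncomputable def hk (v : ℕ) : TT K →ₐ[K] TT K :=
  MonoidAlgebra.lift K (TT K) Wd (FreeMonoid.lift (fun a : ℕ × ℕ =>
    if a.2 = v then (wd (FreeMonoid.of a) : TT K) else 0))

lemma hk_of (v : ℕ) (a : ℕ × ℕ) : hk v (wd (FreeMonoid.of a) : TT K) =
    if a.2 = v then (wd (FreeMonoid.of a) : TT K) else 0 := by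
  rw [hk, wd, MonoidAlgebra.lift_single, one_smul, FreeMonoid.lift_eval_of]
  rfl

/-- set all exponents to `v` -/
def mv (v : ℕ) : Wd →* Wd := FreeMonoid.map (fun a : ℕ × ℕ => (a.1, v))

lemma hk_wd (v : ℕ) (w : Wd) : (hk v (wd w : TT K) = wd w ∧ mv v (z0 w) = w) ∨ hk v (wd w : TT K) = 0 := by
  refine word_ind (P := fun w => (hk v (wd w : TT K) = wd w ∧ mv v (z0 w) = w) ∨
    hk v (wd w : TT K) = 0) ?_ ?_ w
  · left
    exact ⟨by rw [wd_one, map_one], by rw [map_one, map_one]⟩
  · intro a w ih
    rw [wd_mul, map_mul, hk_of]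
    by_cases h : a.2 = v
    · rw [if_pos h]
      rcases ih with ⟨ih1, ih2⟩ | ih
      · left
        refine ⟨by rw [ih1], ?_⟩
        rw [map_mul, map_mul, ih2]
        congr 1
        subst h
        simp [z0, mv]
      · right; rw [ih, mul_zero]
    · right; rw [if_neg h, zero_mul]

lemma evS_ne {z : ℕ → K} (h : ∀ n, z n ≠ 0) (u : List (ℕ × ℕ)) : evS z u ≠ 0 := by
  induction u generalizing z with
  | nil => simp [evS]
  | cons a u ih =>
    rw [evS]
    exact mul_ne_zero (pow_ne_zero _ (h 0)) (ih (fun n => h (n + 1)))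

/-- evaluation at nonzero weights is injective on elements with constant exponents -/
lemma Ev_hk {z : ℕ → K} (h : ∀ n, z n ≠ 0) (v : ℕ) {x : TT K} (hx : hk v x = x) (h0 : Ev z x = 0) :
    x = 0 := by
  let bk : TT K →ₗ[K] TT K := lin (fun u => (evS z (mv v u).toList)⁻¹ • wd (mv v u))
  have key : ∀ x : TT K, bk (Ev z (hk v x)) = hk v x := by
    intro x
    refine T_ind (P := fun x => bk (Ev z (hk v x)) = hk v x) ?_ ?_ ?_ ?_ x
    · simp
    · intro x y h h'; rw [map_add, map_add, map_add, h, h']
    · intro c x h; rw [map_smul, map_smul, map_smul, h]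
    · intro w
      rcases hk_wd (K := K) v w with ⟨h1, h2⟩ | h1
      · rw [h1, Ev_wd, map_smul]
        have : bk (wd (z0 w)) = (evS z (mv v (z0 w)).toList)⁻¹ • wd (mv v (z0 w)) := lin_wd _ _
        rw [this, h2, smul_smul, mul_inv_cancel₀ (evS_ne h _), one_smul]
      · rw [h1, map_zero, map_zero]
  have := key x
  rw [hx, h0, map_zero] at this
  exact this.symm

/-- all shifts of the evaluation vanish on the subspace -/
def Killed (z : ℕ → K) (W : Submodule K (TT K)) : Prop :=
  ∀ c : ℕ, ∀ x ∈ W, Ev (fun n => z (n + c)) x = 0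

lemma Killed.map_D {z : ℕ → K} {W : Submodule K (TT K)} {k : ℕ} (hW : W ≤ len K k) (h : Killed z W)
    (r : ℕ) : Killed z (W.map (D ^ r)) := by
  intro c x hx
  obtain ⟨y, hy, rfl⟩ := hx
  induction r with
  | zero => simpa using h c y hy
  | succ r ih =>
    rw [pow_succ', Module.End.mul_apply, Ev_D _ (Dpow_len r (hW hy)), ih, smul_zero]

lemma Killed.br_left {z : ℕ → K} {W W' : Submodule K (TT K)} {k l : ℕ} (hW : W ≤ len K k)
    (hW' : W' ≤ len K l) (h : Killed z W) : Killed z (br W W') := by
  intro c x hx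
  refine br_ind (C := fun x => Ev (fun n => z (n + c)) x = 0) ?_ ?_ ?_ hx
  · simp
  · intro x y h h'; rw [map_add, h, h', add_zero]
  · intro x hx y hy
    rw [map_sub, Ev_mul _ (hW hx), Ev_mul _ (hW' hy), h c x hx, zero_mul, zero_sub, neg_eq_zero]
    have h1 := h (l + c) x hx
    have e : (fun n => z (n + l + c)) = fun n => z (n + (l + c)) := by
      funext n; rw [add_assoc]
    change Ev (fun n => z (n + c)) y * Ev (fun n => z (n + l + c)) x = 0
    rw [e, h1, mul_zero]

lemma Killed.br_right {z : ℕ → K} {W W' : Submodule K (TT K)} {k l : ℕ} (hW : W ≤ len K k)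
    (hW' : W' ≤ len K l) (h : Killed z W') : Killed z (br W W') := by
  rw [br_comm]; exact h.br_left hW' hW

/-- no decorations at inner vertices -/
def IZ : DT → Prop
  | DT.leaf _ => True
  | DT.node r a b => r = 0 ∧ IZ a ∧ IZ b

lemma exists_killed [Infinite K] : ∀ t : DT, ¬ IZ t → ∃ z : ℕ → K, (∀ n, z n ≠ 0) ∧ Killed z (XX K t)
  | DT.leaf _ => fun h => absurd trivial h
  | DT.node r a b => by
    intro h
    by_cases ha : IZ a
    · by_cases hb : IZ b
      · have hr : r ≠ 0 := fun e => h ⟨e, ha, hb⟩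
        obtain ⟨r, rfl⟩ := Nat.exists_eq_succ_of_ne_zero hr
        let u := Infinite.natEmbedding K
        set m := a.lv + b.lv with hm
        have hm2 : 2 ≤ m := by have := a.lv_pos; have := b.lv_pos; omega
        refine ⟨fun p => u ((p + 1) % m) - u (p % m), ?_, ?_⟩
        · intro n hn
          have h1 : u ((n + 1) % m) = u (n % m) := sub_eq_zero.1 hn
          have h2 := u.injective h1
          have h3 := Nat.mod_lt n (show 0 < m by omega)
          rw [Nat.add_mod] at h2
          rw [Nat.mod_eq_of_lt (show 1 < m by omega)] at h2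
          by_cases h4 : n % m + 1 < m
          · rw [Nat.mod_eq_of_lt h4] at h2; omega
          · have h5 : n % m + 1 = m := by omega
            rw [h5, Nat.mod_self] at h2; omega
        · intro c x hx
          obtain ⟨y, hy, rfl⟩ := hx
          rw [Nat.succ_eq_add_one, pow_succ', Module.End.mul_apply]
          have hl : br (XX K a) (XX K b) ≤ len K m := br_len (XX_len a) (XX_len b)
          rw [Ev_D _ (Dpow_len r (hl hy))]
          have : ∑ p ∈ Finset.range m, (u ((p + c + 1) % m) - u ((p + c) % m)) = 0 := by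
            have h1 := Finset.sum_range_sub (fun n => u ((n + c) % m)) m
            have h2 : ∀ p, u ((p + c + 1) % m) = u ((p + 1 + c) % m) := by
              intro p; congr 2; ring
            simp only [h2]
            rw [h1]
            simp
          rw [this, zero_smul]
      · obtain ⟨z, hz, hk⟩ := exists_killed b hb
        exact ⟨z, hz, (hk.br_right (XX_len a) (XX_len b)).map_D (br_len (XX_len a) (XX_len b)) r⟩
    · obtain ⟨z, hz, hk⟩ := exists_killed a ha
      exact ⟨z, hz, (hk.br_left (XX_len a) (XX_len b)).map_D (br_len (XX_len a) (XX_len b)) r⟩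

lemma XX_zero (a b : DT) : XX K (DT.node 0 a b) = br (XX K a) (XX K b) := by
  rw [XX, pow_zero]
  exact Submodule.map_id _

lemma hk_zero_left (v : ℕ) {W W' : Submodule K (TT K)} (h : ∀ x ∈ W, hk v x = 0) :
    ∀ x ∈ br W W', hk v x = 0 := by
  intro x hx
  refine br_ind (C := fun x => hk v x = 0) ?_ ?_ ?_ hx
  · simp
  · intro x y h h'; rw [map_add, h, h', add_zero]
  · intro x hx y _
    rw [map_sub, map_mul, map_mul, h x hx, zero_mul, mul_zero, sub_zero]

lemma hk_zero (v : ℕ) : ∀ t : DT, IZ t → ¬ DT.Uni v t → ∀ x ∈ XX K t, hk v x = 0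
  | DT.leaf r => by
    intro _ hr x hx
    rw [XX, V1] at hx
    induction hx using Submodule.span_induction with
    | mem x hx =>
      obtain ⟨i, rfl⟩ := hx
      have hr' : ¬ (i, r).2 = v := hr
      rw [hk_of, if_neg hr']
    | zero => simp
    | add x y _ _ h h' => rw [map_add, h, h', add_zero]
    | smul c x _ h => rw [map_smul, h, smul_zero]
  | DT.node r a b => by
    rintro ⟨rfl, ha, hb⟩ hu
    rw [XX_zero]
    by_cases h1 : DT.Uni v a
    · by_cases h2 : DT.Uni v b
      · exact absurd ⟨rfl, h1, h2⟩ hu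
      · rw [br_comm]
        exact hk_zero_left v (hk_zero v b hb h2)
    · exact hk_zero_left v (hk_zero v a ha h1)

/-- a tree whose subspace meets the constant exponents is uniform -/
theorem uni_of_mem [Infinite K] {t : DT} {v : ℕ} {x : TT K} (hx : x ∈ XX K t) (hx0 : x ≠ 0)
    (hv : hk v x = x) : DT.Uni v t := by
  have h1 : IZ t := by
    by_contra h
    obtain ⟨z, hz, hkill⟩ := exists_killed (K := K) t h
    exact hx0 (Ev_hk hz v hv (hkill 0 x hx))
  by_contra h2
  apply hx0
  rw [← hv]
  exact hk_zero v t h1 h2 x hx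

theorem hk_of_uni {v : ℕ} : ∀ t : DT, DT.Uni v t → ∀ x ∈ XX K t, hk v x = x
  | DT.leaf r => by
    intro hr x hx
    rw [XX, V1] at hx
    induction hx using Submodule.span_induction with
    | mem x hx =>
      obtain ⟨i, rfl⟩ := hx
      have hr' : (i, r).2 = v := hr
      rw [hk_of, if_pos hr']
    | zero => simp
    | add x y _ _ h h' => rw [map_add, h, h']
    | smul c x _ h => rw [map_smul, h]
  | DT.node r a b => by
    rintro ⟨rfl, ha, hb⟩ x hx
    rw [XX_zero] at hx
    refine br_ind (C := fun x => hk v x = x) ?_ ?_ ?_ hx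
    · simp
    · intro x y h h'; rw [map_add, h, h']
    · intro x hx y hy
      rw [map_sub, map_mul, map_mul, hk_of_uni a ha x hx, hk_of_uni b hb y hy]

end

end Pool.Agent.H25
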