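import Mathlib

/-! Words, the free associative algebra on the letters `(i, j)`, gradings and slices. -/

namespace Pool.Agent.H25

open MonoidAlgebra

/-- words in the letters `(i, j)` -/
abbrev Wd := FreeMonoid (ℕ × ℕ)

/-- the free associative algebra -/
abbrev TT (K : Type*) [Field K] := MonoidAlgebra K Wd

/-- first part of a word -/
def tk (a : ℕ) (w : Wd) : Wd := FreeMonoid.ofList (w.toList.take a)

/-- rest of a word -/
def dr (a : ℕ) (w : Wd) : Wd := FreeMonoid.ofList (w.toList.drop a)

lemma tk_mul_dr (a : ℕ) (w : Wd) : tk a w * dr a w = w := by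
  unfold tk dr
  rw [← FreeMonoid.ofList_append, List.take_append_drop, FreeMonoid.ofList_toList]

lemma length_def (w : Wd) : w.length = w.toList.length := rfl

lemma tk_mul {a : ℕ} {u v : Wd} (h : u.length = a) : tk a (u * v) = u := by
  unfold tk
  rw [FreeMonoid.toList_mul, ← h, length_def, List.take_left, FreeMonoid.ofList_toList]

lemma dr_mul {a : ℕ} {u v : Wd} (h : u.length = a) : dr a (u * v) = v := by
  unfold dr
  rw [FreeMonoid.toList_mul, ← h, length_def, List.drop_left, FreeMonoid.ofList_toList]

lemma length_tk {a : ℕ} {w : Wd} (h : a ≤ w.length) : (tk a w).length = a := by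
  unfold tk
  rw [length_def, FreeMonoid.toList_ofList, List.length_take]
  exact min_eq_left h

lemma length_dr (a : ℕ) (w : Wd) : (dr a w).length = w.length - a := by
  unfold dr
  rw [length_def, FreeMonoid.toList_ofList, List.length_drop]
  rfl

lemma mul_eq_iff {a : ℕ} {u v w : Wd} (h : u.length = a) :
    u * v = w ↔ u = tk a w ∧ v = dr a w := by
  constructor
  · rintro rfl
    exact ⟨(tk_mul h).symm, (dr_mul h).symm⟩
  · rintro ⟨rfl, rfl⟩
    exact tk_mul_dr a w

/-- total exponent of a word -/
def wt (w : Wd) : ℕ := (w.toList.map Prod.snd).sum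

@[simp] lemma wt_one : wt 1 = 0 := by simp [wt]

@[simp] lemma wt_mul (u v : Wd) : wt (u * v) = wt u + wt v := by
  simp [wt]

@[simp] lemma wt_of (a : ℕ × ℕ) : wt (FreeMonoid.of a) = a.2 := by
  simp [wt]

section
variable {K : Type*} [Field K]
variable {V : Type*} [AddCommGroup V] [Module K V]

/-- linear map given on words -/
noncomputable def lin (f : Wd → V) : TT K →ₗ[K] V := (MonoidAlgebra.basis Wd K).constr K f

@[simp] lemma lin_single (f : Wd → V) (w : Wd) (r : K) : lin f (single w r) = r • f w := by
  have h : (single w r : TT K) = r • (MonoidAlgebra.basis Wd K w) := by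
    rw [MonoidAlgebra.basis_apply, smul_single, smul_eq_mul, mul_one]
  rw [h, map_smul, lin, Module.Basis.constr_basis]

lemma T_ext {f g : TT K →ₗ[K] V} (h : ∀ w, f (single w 1) = g (single w 1)) : f = g :=
  (MonoidAlgebra.basis Wd K).ext (fun w => by simpa using h w)

/-- words as algebra elements -/
noncomputable def wd (w : Wd) : TT K := single w 1

lemma wd_mul (u v : Wd) : (wd (u * v) : TT K) = wd u * wd v := by
  simp [wd, single_mul_single]

@[simp] lemma wd_one : (wd 1 : TT K) = 1 := rfl

@[simp] lemma lin_wd (f : Wd → V) (w : Wd) : lin f (wd w : TT K) = f w := by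
  simp [wd]

open Classical in
lemma coeff_wd (u w : Wd) : (wd u : TT K).coeff w = if u = w then 1 else 0 := by
  simp [wd, Finsupp.single_apply]

/-- span of words of length `k` -/
noncomputable def len (K : Type*) [Field K] (k : ℕ) : Submodule K (TT K) := supported K K {w | w.length = k}

/-- span of words of length `k` and weight `N` -/
noncomputable def bi (K : Type*) [Field K] (k N : ℕ) : Submodule K (TT K) :=
  supported K K {w | w.length = k ∧ wt w = N}

/-- span of words of length at least `k` -/
noncomputable def hi (K : Type*) [Field K] (k : ℕ) : Submodule K (TT K) := supported K K {w | k ≤ w.length}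

lemma mem_len {k : ℕ} {x : TT K} : x ∈ len K k ↔ ∀ w, w.length ≠ k → x.coeff w = 0 := by
  unfold len; rw [mem_supported']; rfl

lemma mem_bi {k N : ℕ} {x : TT K} :
    x ∈ bi K k N ↔ ∀ w, ¬ (w.length = k ∧ wt w = N) → x.coeff w = 0 := by
  unfold bi; rw [mem_supported']; rfl

lemma mem_hi {k : ℕ} {x : TT K} : x ∈ hi K k ↔ ∀ w, w.length < k → x.coeff w = 0 := by
  unfold hi; rw [mem_supported']
  simp

lemma wd_mem_len (w : Wd) : (wd w : TT K) ∈ len K w.length := by
  rw [mem_len]
  intro u hu
  rw [coeff_wd, if_neg]
  rintro rfl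
  exact hu rfl

lemma wd_mem_bi (w : Wd) : (wd w : TT K) ∈ bi K w.length (wt w) := by
  rw [mem_bi]
  intro u hu
  rw [coeff_wd, if_neg]
  rintro rfl
  exact hu ⟨rfl, rfl⟩

lemma bi_le_len (k N : ℕ) : bi K k N ≤ len K k :=
  supported_mono (fun _ h => h.1)

lemma len_le_hi (k : ℕ) : len K k ≤ hi K k :=
  supported_mono (fun _ h => le_of_eq h.symm)

lemma hi_mono {k l : ℕ} (h : k ≤ l) : hi K l ≤ hi K k :=
  supported_mono (fun _ h' => le_trans h h')

lemma len_eq_span (k : ℕ) : len K k = Submodule.span K ((fun w : Wd => (wd w : TT K)) '' {w | w.length = k}) :=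
  supported_eq_span_single K _

lemma bi_eq_span (k N : ℕ) : bi K k N =
    Submodule.span K ((fun w : Wd => (wd w : TT K)) '' {w | w.length = k ∧ wt w = N}) :=
  supported_eq_span_single K _

lemma hi_eq_span (k : ℕ) : hi K k =
    Submodule.span K ((fun w : Wd => (wd w : TT K)) '' {w | k ≤ w.length}) :=
  supported_eq_span_single K _

lemma len_ind {k : ℕ} {P : TT K → Prop} (h0 : P 0) (hadd : ∀ x y, P x → P y → P (x + y))
    (hs : ∀ (c : K) x, P x → P (c • x)) (hw : ∀ w : Wd, w.length = k → P (wd w)) {x : TT K}
    (hx : x ∈ len K k) : P x := by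
  rw [len_eq_span] at hx
  induction hx using Submodule.span_induction with
  | mem x hx => obtain ⟨w, hw', rfl⟩ := hx; exact hw w hw'
  | zero => exact h0
  | add x y _ _ hx hy => exact hadd x y hx hy
  | smul c x _ hx => exact hs c x hx

lemma T_ind {P : TT K → Prop} (h0 : P 0) (hadd : ∀ x y, P x → P y → P (x + y))
    (hs : ∀ (c : K) x, P x → P (c • x)) (hw : ∀ w : Wd, P (wd w)) (x : TT K) : P x := by
  induction x using MonoidAlgebra.induction_linear with
  | zero => exact h0
  | add x y hx hy => exact hadd x y hx hy
  | single w r =>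
    have : (single w r : TT K) = r • wd w := by rw [wd, smul_single, smul_eq_mul, mul_one]
    rw [this]
    exact hs r _ (hw w)

/-- coefficients of a product when the left factor is homogeneous -/
lemma coeff_mul_left {a : ℕ} {x : TT K} (hx : x ∈ len K a) (y : TT K) (w : Wd) :
    (x * y).coeff w = x.coeff (tk a w) * y.coeff (dr a w) := by
  classical
  refine len_ind (k := a) (P := fun x => (x * y).coeff w = x.coeff (tk a w) * y.coeff (dr a w))
    ?_ ?_ ?_ ?_ hx
  · simp
  · intro x x' h h'
    simp only [add_mul, coeff_add, Finsupp.add_apply, h, h']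
  · intro c x h
    simp only [smul_mul_assoc, coeff_smul, Finsupp.smul_apply, h, smul_eq_mul]
    ring
  · intro u hu
    refine T_ind (P := fun y => (wd u * y).coeff w = (wd u : TT K).coeff (tk a w) * y.coeff (dr a w))
      ?_ ?_ ?_ ?_ y
    · simp
    · intro y y' h h'
      simp only [mul_add, coeff_add, Finsupp.add_apply, h, h']
    · intro c x h
      simp only [mul_smul_comm, coeff_smul, Finsupp.smul_apply, h, smul_eq_mul]
      ring
    · intro v
      rw [← wd_mul, coeff_wd, coeff_wd, coeff_wd]
      by_cases h : u * v = w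
      · rw [if_pos h]
        obtain ⟨h1, h2⟩ := (mul_eq_iff hu).1 h
        rw [if_pos h1, if_pos h2, one_mul]
      · rw [if_neg h]
        by_cases h1 : u = tk a w
        · by_cases h2 : v = dr a w
          · exact absurd ((mul_eq_iff hu).2 ⟨h1, h2⟩) h
          · rw [if_neg h2, mul_zero]
        · rw [if_neg h1, zero_mul]

lemma len_mul {a b : ℕ} {x y : TT K} (hx : x ∈ len K a) (hy : y ∈ len K b) :
    x * y ∈ len K (a + b) := by
  rw [mem_len]
  intro w hw
  rw [coeff_mul_left hx]
  by_cases h : a ≤ w.length
  · have h2 : (dr a w).length ≠ b := by rw [length_dr]; omega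
    rw [mem_len.1 hy _ h2, mul_zero]
  · have : tk a w = w := by
      unfold tk
      rw [List.take_of_length_le (by rw [← length_def]; omega), FreeMonoid.ofList_toList]
    rw [this, mem_len.1 hx w (by omega), zero_mul]

/-- coefficients of a product when the right factor is homogeneous -/
lemma coeff_mul_right {b : ℕ} (x : TT K) {y : TT K} (hy : y ∈ len K b) (w : Wd) :
    (x * y).coeff w = x.coeff (tk (w.length - b) w) * y.coeff (dr (w.length - b) w) := by
  classical
  refine T_ind (P := fun x => (x * y).coeff w =
    x.coeff (tk (w.length - b) w) * y.coeff (dr (w.length - b) w)) ?_ ?_ ?_ ?_ x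
  · simp
  · intro x x' h h'
    simp only [add_mul, coeff_add, Finsupp.add_apply, h, h']
  · intro c x h
    simp only [smul_mul_assoc, coeff_smul, Finsupp.smul_apply, h, smul_eq_mul]
    ring
  · intro u
    rw [coeff_mul_left (wd_mem_len u)]
    by_cases hb : u.length + b = w.length
    · have : w.length - b = u.length := by omega
      rw [this]
    · have h1 : (wd u : TT K).coeff (tk u.length w) * y.coeff (dr u.length w) = 0 := by
        by_cases h2 : u.length ≤ w.length
        · have : (dr u.length w).length ≠ b := by rw [length_dr]; omega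
          rw [mem_len.1 hy _ this, mul_zero]
        · rw [coeff_wd, if_neg, zero_mul]
          intro h
          apply_fun FreeMonoid.length at h
          have : tk u.length w = w := by
            unfold tk
            rw [List.take_of_length_le (by rw [← length_def]; omega), FreeMonoid.ofList_toList]
          rw [this] at h
          omega
      rw [h1, coeff_wd]
      by_cases h2 : b ≤ w.length
      · rw [if_neg, zero_mul]
        intro h
        apply_fun FreeMonoid.length at h
        rw [length_tk (by omega)] at h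
        omega
      · have : (dr (w.length - b) w).length ≠ b := by rw [length_dr]; omega
        rw [mem_len.1 hy _ this, mul_zero]

/-- right slice: `(sR v f)(u) = f(u v)` -/
noncomputable def sR (v : Wd) : TT K →ₗ[K] TT K where
  toFun x := comapDomain (fun u => u * v) (mul_left_injective v) x
  map_add' x y := comapDomain_add _ _ x y
  map_smul' c x := by ext; simp

@[simp] lemma coeff_sR (v : Wd) (x : TT K) (u : Wd) : (sR v x).coeff u = x.coeff (u * v) := rfl

/-- left slice: `(sL u f)(v) = f(u v)` -/
noncomputable def sL (u : Wd) : TT K →ₗ[K] TT K where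
  toFun x := comapDomain (fun v => u * v) (mul_right_injective u) x
  map_add' x y := comapDomain_add _ _ x y
  map_smul' c x := by ext; simp

@[simp] lemma coeff_sL (u : Wd) (x : TT K) (v : Wd) : (sL u x).coeff v = x.coeff (u * v) := rfl

lemma sR_len {b : ℕ} {v : Wd} {y : TT K} (hy : y ∈ len K b) : sR v y ∈ len K (b - v.length) := by
  rw [mem_len]
  intro u hu
  rw [coeff_sR]
  apply mem_len.1 hy
  rw [FreeMonoid.length_mul]
  omega

lemma sL_len {b : ℕ} {u : Wd} {y : TT K} (hy : y ∈ len K b) : sL u y ∈ len K (b - u.length) := by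
  rw [mem_len]
  intro v hv
  rw [coeff_sL]
  apply mem_len.1 hy
  rw [FreeMonoid.length_mul]
  omega

lemma tk_append_of_le {a : ℕ} {u v : Wd} (h : a ≤ u.length) : tk a (u * v) = tk a u := by
  unfold tk
  rw [FreeMonoid.toList_mul, List.take_append_of_le_length h]

lemma dr_append_of_le {a : ℕ} {u v : Wd} (h : a ≤ u.length) : dr a (u * v) = dr a u * v := by
  unfold dr
  rw [FreeMonoid.toList_mul, List.drop_append_of_le_length h, FreeMonoid.ofList_append,
    FreeMonoid.ofList_toList]

/-- right slices of products -/
lemma sR_mul {b : ℕ} {v : Wd} (x : TT K) {y : TT K} (hy : y ∈ len K b) (hv : v.length ≤ b) :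
    sR v (x * y) = x * sR v y := by
  ext u
  have hy' := sR_len (v := v) hy
  rw [coeff_sR, coeff_mul_right x hy, coeff_mul_right x hy', coeff_sR]
  have e : (u * v).length - b = u.length - (b - v.length) := by
    rw [FreeMonoid.length_mul]; omega
  rw [e, tk_append_of_le (by omega), dr_append_of_le (by omega)]

/-- left slices of products -/
lemma sL_mul {a : ℕ} {u : Wd} {x : TT K} (hx : x ∈ len K a) (y : TT K) (hu : u.length = a) :
    sL u (x * y) = x.coeff u • y := by
  ext v
  rw [coeff_sL, coeff_mul_left hx, tk_mul hu, dr_mul hu]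
  simp

lemma eq_smul_one {x : TT K} (hx : x ∈ len K 0) : x = x.coeff 1 • (1 : TT K) := by
  ext w
  by_cases h : w = 1
  · subst h; simp
  · have h2 : w.length ≠ 0 := by rwa [Ne, FreeMonoid.length_eq_zero]
    rw [mem_len.1 hx w h2]
    simp only [coeff_smul, Finsupp.smul_apply, smul_eq_mul]
    rw [← wd_one, coeff_wd, if_neg (Ne.symm h), mul_zero]

lemma sR_mul_eq {b : ℕ} {v : Wd} (x : TT K) {y : TT K} (hy : y ∈ len K b) (hv : v.length = b) :
    sR v (x * y) = y.coeff v • x := by
  rw [sR_mul x hy (by omega)]
  have h : sR v y ∈ len K 0 := by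
    have := sR_len (v := v) hy
    rwa [hv, Nat.sub_self] at this
  rw [eq_smul_one h, coeff_sR, one_mul, mul_smul_comm, mul_one]

/-- an element of `len` vanishing on all right slices is zero -/
lemma eq_zero_of_sR {a b : ℕ} {x : TT K} (hx : x ∈ len K (a + b))
    (h : ∀ v : Wd, v.length = b → sR v x = 0) : x = 0 := by
  ext w
  by_cases hw : w.length = a + b
  · have h1 : (dr a w).length = b := by rw [length_dr]; omega
    have h2 := h _ h1
    have h3 : (sR (dr a w) x).coeff (tk a w) = 0 := by rw [h2]; rfl
    rw [coeff_sR, tk_mul_dr] at h3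
    simpa using h3
  · rw [mem_len.1 hx w hw]; rfl

lemma eq_zero_of_sL {a b : ℕ} {x : TT K} (hx : x ∈ len K (a + b))
    (h : ∀ u : Wd, u.length = a → sL u x = 0) : x = 0 := by
  ext w
  by_cases hw : w.length = a + b
  · have h1 : (tk a w).length = a := length_tk (by omega)
    have h2 := h _ h1
    have h3 : (sL (tk a w) x).coeff (dr a w) = 0 := by rw [h2]; rfl
    rw [coeff_sL, tk_mul_dr] at h3
    simpa using h3
  · rw [mem_len.1 hx w hw]; rfl

lemma exists_coeff_ne {x : TT K} (hx : x ≠ 0) : ∃ w, x.coeff w ≠ 0 := by
  by_contra h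
  push Not at h
  exact hx (by ext w; simpa using h w)

lemma length_of_coeff_ne {k : ℕ} {x : TT K} (hx : x ∈ len K k) {w : Wd} (h : x.coeff w ≠ 0) :
    w.length = k := by
  by_contra h2
  exact h (mem_len.1 hx w h2)

/-- rotation of words by `a` letters -/
noncomputable def rot (a : ℕ) : TT K →ₗ[K] TT K := lin (fun w => wd (dr a w * tk a w))

lemma rot_mul {a : ℕ} {x : TT K} (hx : x ∈ len K a) (y : TT K) : rot a (x * y) = y * x := by
  refine len_ind (k := a) (P := fun x => rot a (x * y) = y * x) ?_ ?_ ?_ ?_ hx
  · simp
  · intro x x' h h'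
    rw [add_mul, map_add, h, h', mul_add]
  · intro c x h
    rw [smul_mul_assoc, map_smul, h, mul_smul_comm]
  · intro u hu
    refine T_ind (P := fun y => rot a (wd u * y) = y * wd u) ?_ ?_ ?_ ?_ y
    · simp
    · intro y y' h h'
      rw [mul_add, map_add, h, h', add_mul]
    · intro c y h
      rw [mul_smul_comm, map_smul, h, smul_mul_assoc]
    · intro v
      rw [← wd_mul, rot, lin_wd, tk_mul hu, dr_mul hu, wd_mul]

end

end Pool.Agent.H25
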